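import Mathlib

/-!
Basic definitions for the proof of S12853 (sphere maps into hereditarily indecomposable
inverse limits).
-/

set_option autoImplicit false

open Set Topology

namespace Pool.Agent.Lib_MP_1dc66a_gt

/-- A finite coloured simplicial complex on the vertex set `V`, with colours in `Fin (k+1)`:
each face has at most one vertex of each colour. -/
structure Cx (V : Type) (k : ℕ) where
  /-- the faces, as sets of vertices -/
  faces : Set (Set V)
  /-- faces are closed under subsets -/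
  down : ∀ s ∈ faces, ∀ t, t ⊆ s → t ∈ faces
  /-- the colouring -/
  col : V → Fin (k + 1)
  /-- the colouring is injective on each face -/
  inj : ∀ s ∈ faces, ∀ v ∈ s, ∀ w ∈ s, col v = col w → v = w

/-- The geometric realisation of `K`, in barycentric coordinates. -/
def Cx.real {V : Type} [Fintype V] {k : ℕ} (K : Cx V k) : Set (V → ℝ) :=
  {x | (∀ v, 0 ≤ x v) ∧ ∑ v, x v = 1 ∧ {v | x v ≠ 0} ∈ K.faces}

/-- The type map: total weight of the vertices of colour `i`. -/
noncomputable def Cx.typ {V : Type} [Fintype V] {k : ℕ} (K : Cx V k) (x : V → ℝ) (i : Fin (k + 1)) : ℝ :=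
  ∑ v, if K.col v = i then x v else 0

/-- `f` is locally constant at every point of `U`. -/
def LC {M : Type} [TopologicalSpace M] {S : Type} (f : M → S) (U : Set M) : Prop :=
  ∀ x ∈ U, ∀ᶠ y in 𝓝 x, f y = f x

/-- Every discrete cocycle on a two-set open cover of `M` is a coboundary. -/
def SC (M : Type) [TopologicalSpace M] : Prop :=
  ∀ (G : Type) [Group G] (U₁ U₂ : Set M) (h : M → G), IsOpen U₁ → IsOpen U₂ → U₁ ∪ U₂ = univ →
    LC h (U₁ ∩ U₂) → ∃ f₁ f₂ : M → G, LC f₁ U₁ ∧ LC f₂ U₂ ∧ ∀ x ∈ U₁ ∩ U₂, f₁ x = h x * f₂ x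

/-- The composite bonding map `X (n+d) → X n`. -/
def bond {X : ℕ → Type} [∀ n, TopologicalSpace (X n)] (P : ∀ n, C(X (n + 1), X n)) (n : ℕ) :
    (d : ℕ) → C(X (n + d), X n)
  | 0 => ContinuousMap.id (X n)
  | d + 1 => (bond P n d).comp (P (n + d))

/-- The inverse limit. -/
def lim {X : ℕ → Type} [∀ n, TopologicalSpace (X n)] (P : ∀ n, C(X (n + 1), X n)) : Set (∀ n, X n) :=
  {x | ∀ n, P n (x (n + 1)) = x n}

end Pool.Agent.Lib_MP_1dc66a_gt
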