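import Pool.Agent.Lib_MP_1dc66a_gt.Basic

/-!
Combinatorics of words with labels: the normal form `nf`, the outward transport `Reach`, and
the piecewise linear paths `pth`.
-/

set_option autoImplicit false

open Set Topology

namespace Pool.Agent.Lib_MP_1dc66a_gt

/-! ### Simplices -/

/-- The closed simplex spanned by the vertices in `ρ`. -/
def Splx {V : Type} [Fintype V] (ρ : Set V) : Set (V → ℝ) :=
  {x | (∀ v, 0 ≤ x v) ∧ ∑ v, x v = 1 ∧ ∀ v, x v ≠ 0 → v ∈ ρ}

theorem Splx_convex {V : Type} [Fintype V] (ρ : Set V) : Convex ℝ (Splx ρ) := by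
  intro x hx y hy a b ha hb hab
  refine ⟨fun v => ?_, ?_, fun v hv => ?_⟩
  · have := hx.1 v
    have := hy.1 v
    simp only [Pi.add_apply, Pi.smul_apply, smul_eq_mul]
    positivity
  · simp only [Pi.add_apply, Pi.smul_apply, smul_eq_mul]
    rw [Finset.sum_add_distrib, ← Finset.mul_sum, ← Finset.mul_sum, hx.2.1, hy.2.1]
    linarith
  · by_cases h1 : x v = 0
    · by_cases h2 : y v = 0
      · simp [h1, h2] at hv
      · exact hy.2.2 v h2
    · exact hx.2.2 v h1

theorem Splx_mono {V : Type} [Fintype V] {ρ ρ' : Set V} (h : ρ ⊆ ρ') : Splx ρ ⊆ Splx ρ' :=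
  fun _ hx => ⟨hx.1, hx.2.1, fun v hv => h (hx.2.2 v hv)⟩

theorem Splx_real {V : Type} [Fintype V] {k : ℕ} (K : Cx V k) {ρ : Set V} (hρ : ρ ∈ K.faces) :
    Splx ρ ⊆ K.real :=
  fun _ hx => ⟨hx.1, hx.2.1, K.down ρ hρ _ fun v hv => hx.2.2 v hv⟩

theorem mem_Splx_supp {V : Type} [Fintype V] {k : ℕ} (K : Cx V k) {x : V → ℝ} (hx : x ∈ K.real) :
    x ∈ Splx {v | x v ≠ 0} :=
  ⟨hx.1, hx.2.1, fun _ hv => hv⟩

/-- Vertex as a point. -/
noncomputable def vpt {V : Type} [Fintype V] (v : V) : V → ℝ :=
  fun u => by classical exact if u = v then 1 else 0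

theorem vpt_mem {V : Type} [Fintype V] {ρ : Set V} {v : V} (hv : v ∈ ρ) : vpt v ∈ Splx ρ := by
  classical
  refine ⟨fun u => ?_, ?_, fun u hu => ?_⟩
  · unfold vpt
    split_ifs <;> norm_num
  · unfold vpt
    simp
  · unfold vpt at hu
    by_cases h : u = v
    · rw [h]; exact hv
    · simp [h] at hu

/-! ### The clamp function -/

/-- Clamping to `[0,1]`. -/
noncomputable def clp (t : ℝ) : ℝ := max 0 (min 1 t)

theorem clp_cont : Continuous clp := by
  unfold clp
  fun_prop

theorem clp_of_nonpos {t : ℝ} (h : t ≤ 0) : clp t = 0 := by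
  unfold clp
  rw [max_eq_left]
  exact (min_le_right _ _).trans h

theorem clp_of_one_le {t : ℝ} (h : 1 ≤ t) : clp t = 1 := by
  unfold clp
  rw [min_eq_left h]
  norm_num

theorem clp_of_mem {t : ℝ} (h0 : 0 ≤ t) (h1 : t ≤ 1) : clp t = t := by
  unfold clp
  rw [min_eq_right h1, max_eq_right h0]

theorem clp_nonneg (t : ℝ) : 0 ≤ clp t := le_max_left _ _

theorem clp_le_one (t : ℝ) : clp t ≤ 1 := max_le (by norm_num) (min_le_left _ _)

/-! ### Normal forms -/

section Tree

variable {Γ A : Type} (R : Γ → A → A → Prop)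

/-- Normal form: pull the label inward as long as possible. -/
noncomputable def nf : List Γ → A → List Γ × A
  | [], a => ([], a)
  | x :: L, a => by
      classical
      exact if h : ∃ a', R x a a' then nf L h.choose else (x :: L, a)

/-- Outward transport from the gate `p` with label `a₀`. -/
inductive Reach (p : List Γ) (a₀ : A) : List Γ → A → Prop
  | refl : Reach p a₀ p a₀
  | step {L : List Γ} {a : A} {x : Γ} {a' : A} :
      Reach p a₀ L a → R x a' a → Reach p a₀ (x :: L) a'

theorem nf_nil (a : A) : nf R [] a = ([], a) := by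
  simp [nf]

theorem nf_cons_of (hfun : ∀ x a b b', R x a b → R x a b' → b = b') {x : Γ} {a a' : A}
    (h : R x a a') (L : List Γ) : nf R (x :: L) a = nf R L a' := by
  have hex : ∃ a', R x a a' := ⟨a', h⟩
  simp only [nf, hex, dite_true]
  rw [hfun x a _ _ hex.choose_spec h]

theorem nf_cons_not {x : Γ} {a : A} (h : ¬ ∃ a', R x a a') (L : List Γ) :
    nf R (x :: L) a = (x :: L, a) := by
  simp only [nf, h, dite_false]

theorem nf_reach (L : List Γ) : ∀ a : A, Reach R (nf R L a).1 (nf R L a).2 L a := by
  induction L with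
  | nil => intro a; rw [nf_nil]; exact Reach.refl
  | cons x L ih =>
    intro a
    by_cases h : ∃ a', R x a a'
    · simp only [nf, h, dite_true]
      exact Reach.step (ih _) h.choose_spec
    · rw [nf_cons_not R h]; exact Reach.refl

variable {R}

theorem Reach.suffix {p : List Γ} {a₀ : A} {L : List Γ} {a : A} (h : Reach R p a₀ L a) :
    p <:+ L := by
  induction h with
  | refl => exact List.suffix_refl p
  | step _ _ ih => exact ih.trans (List.suffix_cons _ _)

theorem Reach.cases' {p : List Γ} {a₀ : A} {x : Γ} {L : List Γ} {a : A}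
    (h : Reach R p a₀ (x :: L) a) :
    (p = x :: L ∧ a = a₀) ∨ ∃ a', Reach R p a₀ L a' ∧ R x a a' := by
  cases h with
  | refl => exact Or.inl ⟨rfl, rfl⟩
  | step h1 h2 => exact Or.inr ⟨_, h1, h2⟩

theorem Reach.nil {p : List Γ} {a₀ : A} {a : A}
    (h : Reach R p a₀ [] a) : p = [] ∧ a = a₀ := by
  cases h with
  | refl => exact ⟨rfl, rfl⟩

theorem Reach.self {p : List Γ} {a₀ : A} {a : A}
    (h : Reach R p a₀ p a) : a = a₀ := by
  cases p with
  | nil => exact h.nil.2
  | cons x L =>
    rcases h.cases' with h1 | ⟨a', h1, _⟩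
    · exact h1.2
    · have := h1.suffix.length_le
      simp at this

theorem Reach.uniq (hinj : ∀ x a a' b, R x a b → R x a' b → a = a')
    {p : List Γ} {a₀ : A} {L : List Γ} :
    ∀ {a a' : A}, Reach R p a₀ L a → Reach R p a₀ L a' → a = a' := by
  induction L with
  | nil =>
    intro a a' h h'
    rw [h.nil.2, h'.nil.2]
  | cons x L ih =>
    intro a a' h h'
    rcases h.cases' with h1 | ⟨b, h1, h2⟩
    · have := h'
      rw [← h1.1] at this
      rw [this.self, h1.2]
    · rcases h'.cases' with h1' | ⟨b', h1', h2'⟩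
      · exfalso
        have := h1.suffix.length_le
        rw [h1'.1] at this
        simp at this
      · have := ih h1 h1'
        subst this
        exact hinj x _ _ _ h2 h2'

end Tree

/-! ### Paths -/

section Path

variable {Γ A V : Type} [Fintype V] (R : Γ → A → A → Prop) (pt : A → V)

/-- The label at `L` (junk if there is none). -/
noncomputable def lb (q : List Γ × A) (L : List Γ) : A := by
  classical
  exact if h : ∃ a, Reach R q.1 q.2 L a then h.choose else q.2

theorem lb_eq (hinj : ∀ x a a' b, R x a b → R x a' b → a = a') {q : List Γ × A} {L : List Γ}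
    {a : A} (h : Reach R q.1 q.2 L a) : lb R q L = a := by
  unfold lb
  have hex : ∃ a, Reach R q.1 q.2 L a := ⟨a, h⟩
  rw [dif_pos hex]
  exact Reach.uniq hinj hex.choose_spec h

/-- The path of the vertex `q` along the word `L`. -/
noncomputable def pth (q : List Γ × A) : List Γ → ℝ → (V → ℝ)
  | [], _ => vpt (pt q.2)
  | x :: L, r => by
      classical
      exact if q.1 = x :: L then vpt (pt q.2)
        else pth q L r + clp (r - L.length) • (vpt (pt (lb R q (x :: L))) - vpt (pt (lb R q L)))

theorem pth_cont (q : List Γ × A) (L : List Γ) : Continuous (fun r => pth R pt q L r) := by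
  induction L with
  | nil => simp only [pth]; exact continuous_const
  | cons x L ih =>
    by_cases h : q.1 = x :: L
    · simp only [pth, h, if_true]
      exact continuous_const
    · simp only [pth, h, if_false]
      refine ih.add ?_
      exact (clp_cont.comp (by fun_prop)).smul continuous_const

theorem pth_le {q : List Γ × A} {L L' : List Γ} {r : ℝ} (h1 : q.1 <:+ L) (h2 : L <:+ L')
    (h3 : r ≤ L.length) : pth R pt q L' r = pth R pt q L r := by
  induction L' with
  | nil =>
    have : L = [] := List.eq_nil_of_suffix_nil h2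
    rw [this]
  | cons x L' ih =>
    rcases List.suffix_cons_iff.1 h2 with h | h
    · rw [h]
    · have hne : q.1 ≠ x :: L' := by
        intro he
        have := (h1.trans h).length_le
        rw [he] at this
        simp at this
      simp only [pth, hne, if_false]
      rw [ih h, clp_of_nonpos, zero_smul, add_zero]
      have : (L.length : ℝ) ≤ L'.length := by exact_mod_cast h.length_le
      linarith

theorem pth_end (hinj : ∀ x a a' b, R x a b → R x a' b → a = a') {q : List Γ × A} {L : List Γ} :
    ∀ {a : A} {r : ℝ}, Reach R q.1 q.2 L a → (L.length : ℝ) ≤ r →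
      pth R pt q L r = vpt (pt a) := by
  induction L with
  | nil =>
    intro a r h _
    simp only [pth]
    rw [h.nil.2]
  | cons x L ih =>
    intro a r h hr
    rcases h.cases' with h1 | ⟨b, h1, h2⟩
    · simp only [pth, h1.1, if_true, h1.2]
    · have hne : q.1 ≠ x :: L := by
        intro he
        have := h1.suffix.length_le
        rw [he] at this
        simp at this
      simp only [pth, hne, if_false]
      have hr' : (L.length : ℝ) + 1 ≤ r := by simpa using hr
      rw [ih h1 (by linarith), clp_of_one_le (by linarith), lb_eq R hinj h, lb_eq R hinj h1]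
      simp

theorem pth_mid (hinj : ∀ x a a' b, R x a b → R x a' b → a = a') {q : List Γ × A} {L : List Γ}
    {x : Γ} {a b : A} {r : ℝ} (h1 : Reach R q.1 q.2 L b) (h2 : R x a b)
    (hr : (L.length : ℝ) ≤ r) (hr' : r ≤ L.length + 1) :
    pth R pt q (x :: L) r = (1 - (r - L.length)) • vpt (pt b) + (r - L.length) • vpt (pt a) := by
  have hne : q.1 ≠ x :: L := by
    intro he
    have := h1.suffix.length_le
    rw [he] at this
    simp at this
  have h : Reach R q.1 q.2 (x :: L) a := Reach.step h1 h2
  simp only [pth, hne, if_false]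
  rw [pth_end R pt hinj h1 hr, lb_eq R hinj h, lb_eq R hinj h1,
    clp_of_mem (by linarith) (by linarith)]
  module

theorem pth_mid_mem (hinj : ∀ x a a' b, R x a b → R x a' b → a = a') {q : List Γ × A} {L : List Γ}
    {x : Γ} {a b : A} {r : ℝ} {ρ : Set V} (h1 : Reach R q.1 q.2 L b) (h2 : R x a b)
    (hr : (L.length : ℝ) ≤ r) (hr' : r ≤ L.length + 1) (ha : pt a ∈ ρ) (hb : pt b ∈ ρ) :
    pth R pt q (x :: L) r ∈ Splx ρ := by
  rw [pth_mid R pt hinj h1 h2 hr hr']
  exact Splx_convex ρ (vpt_mem hb) (vpt_mem ha) (by linarith) (by linarith) (by ring)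

end Path

end Pool.Agent.Lib_MP_1dc66a_gt
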