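import Pool.Agent.Lib_MP_1dc66a_gt.StepM

/-!
Fold data from a Krasinkiewicz–Minc decomposition.
-/

set_option autoImplicit false

open Set Topology Filter

namespace Pool.Agent.Lib_MP_1dc66a_gt

section Sets

variable {X : Type} (T N : X → ℝ)

/-- the closed set `A` -/
def setA : Set X := {x | 1 ≤ |T x| + N x} ∪ {x | |T x + 1 / 2| ≤ 1 / 32 ∧ N x ≤ 1 / 8}
/-- the open set `U` -/
def setU : Set X := {x | 7 / 8 < |T x| + N x} ∪ {x | |T x + 1 / 2| < 1 / 16 ∧ N x < 3 / 16}
/-- the closed set `B` -/
def setB : Set X := {x | |T x| ≤ 1 / 32 ∧ N x ≤ 1 / 32}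
/-- the open set `V` -/
def setV : Set X := {x | |T x| < 1 / 16 ∧ N x < 1 / 16}

theorem setA_sub : setA T N ⊆ setU T N := by
  rintro x (h | h)
  · left
    show 7 / 8 < |T x| + N x
    have : 1 ≤ |T x| + N x := h
    linarith
  · right
    show |T x + 1 / 2| < 1 / 16 ∧ N x < 3 / 16
    have h1 : |T x + 1 / 2| ≤ 1 / 32 := h.1
    have h2 : N x ≤ 1 / 8 := h.2
    constructor <;> linarith

theorem setB_sub : setB T N ⊆ setV T N := by
  rintro x ⟨h1, h2⟩
  exact ⟨by linarith, by linarith⟩

theorem setUV : Disjoint (setU T N) (setV T N) := by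
  rw [Set.disjoint_left]
  rintro x (h | h) ⟨h1, h2⟩
  · have : 7 / 8 < |T x| + N x := h
    linarith
  · have h3 : |T x + 1 / 2| < 1 / 16 := h.1
    rw [abs_lt] at h3 h1
    linarith [h3.2, h1.1]

variable [TopologicalSpace X] (hT : Continuous T) (hN : Continuous N)

include hT hN

theorem setA_closed : IsClosed (setA T N) := by
  refine (isClosed_le continuous_const (hT.abs.add hN)).union ?_
  exact (isClosed_le (hT.add continuous_const).abs continuous_const).inter
    (isClosed_le hN continuous_const)

theorem setU_open : IsOpen (setU T N) := by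
  refine (isOpen_lt continuous_const (hT.abs.add hN)).union ?_
  exact (isOpen_lt (hT.add continuous_const).abs continuous_const).inter
    (isOpen_lt hN continuous_const)

theorem setB_closed : IsClosed (setB T N) :=
  (isClosed_le hT.abs continuous_const).inter (isClosed_le hN continuous_const)

theorem setV_open : IsOpen (setV T N) :=
  (isOpen_lt hT.abs continuous_const).inter (isOpen_lt hN continuous_const)

end Sets

/-- scaled difference coordinates -/
noncomputable def FF {k : ℕ} (g : Fin (k + 2) → ℝ) (j : Fin (k + 1)) : ℝ :=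
  (k + 3) * (g j.succ - g 0)

/-- the special coordinate -/
noncomputable def TT {k : ℕ} (g : Fin (k + 2) → ℝ) : ℝ := FF g 0

/-- the norm of the other coordinates -/
noncomputable def NN {k : ℕ} (g : Fin (k + 2) → ℝ) : ℝ := ∑ j : Fin k, |FF g j.succ|

theorem FF_pos {k : ℕ} {g : Fin (k + 2) → ℝ} {j : Fin (k + 1)} (h : 0 < FF g j) : g 0 < g j.succ := by
  unfold FF at h
  have : (0 : ℝ) < k + 3 := by positivity
  have := (mul_pos_iff_of_pos_left this).1 h
  linarith

theorem FF_neg {k : ℕ} {g : Fin (k + 2) → ℝ} {j : Fin (k + 1)} (h : FF g j < 0) : g j.succ < g 0 := by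
  unfold FF at h
  by_contra hcon
  push Not at hcon
  have : (0 : ℝ) ≤ (k + 3) * (g j.succ - g 0) := mul_nonneg (by positivity) (by linarith)
  linarith

theorem all_pos {k : ℕ} {g : Fin (k + 2) → ℝ} (hs : ∑ i, g i = 1) (h : |TT g| + NN g < 1) :
    ∀ i, 0 < g i := by
  have h1 : ∑ j : Fin (k + 1), |FF g j| < 1 := by
    rw [Fin.sum_univ_succ]
    exact h
  have hk : (0 : ℝ) < k + 3 := by positivity
  have h2 : ∀ j : Fin (k + 1), |FF g j| = (k + 3) * |g j.succ - g 0| := by
    intro j
    unfold FF
    rw [abs_mul, abs_of_pos hk]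
  simp only [h2] at h1
  rw [← Finset.mul_sum] at h1
  obtain ⟨S, hS⟩ : ∃ S, S = ∑ j : Fin (k + 1), |g j.succ - g 0| := ⟨_, rfl⟩
  rw [← hS] at h1
  have h3 : ∑ j : Fin (k + 1), (g j.succ - g 0) ≤ S := by
    rw [hS]
    exact Finset.sum_le_sum fun j _ => le_abs_self _
  rw [Fin.sum_univ_succ] at hs
  rw [Finset.sum_sub_distrib, Finset.sum_const, Finset.card_univ, Fintype.card_fin,
    nsmul_eq_mul] at h3
  push_cast at h3
  -- 1 ≤ (k+2) g 0 + S
  have h4 : 1 - S ≤ (k + 2) * g 0 := by linarith
  have h5 : S < g 0 := by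
    have : (k + 3 : ℝ) * S < 1 := h1
    by_contra hcon
    push Not at hcon
    have : (k + 2 : ℝ) * g 0 ≤ (k + 2) * S := mul_le_mul_of_nonneg_left hcon (by positivity)
    linarith
  have h6 : 0 ≤ S := by
    rw [hS]
    exact Finset.sum_nonneg fun j _ => abs_nonneg _
  intro i
  refine Fin.cases ?_ (fun j => ?_) i
  · linarith
  · have h7 : |g j.succ - g 0| ≤ S := by
      rw [hS]
      exact Finset.single_le_sum (f := fun j : Fin (k + 1) => |g j.succ - g 0|)
        (fun j _ => abs_nonneg _) (Finset.mem_univ j)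
    have := (abs_le.1 h7).1
    linarith

theorem eventually_sign {X : Type} [TopologicalSpace X] {f : X → ℝ} (hf : Continuous f) {x : X}
    (h : f x ≠ 0) : ∀ᶠ y in 𝓝 x, (0 < f y ↔ 0 < f x) := by
  rcases lt_or_gt_of_ne h with h1 | h1
  · filter_upwards [hf.continuousAt.eventually_lt continuousAt_const h1] with y hy
    exact ⟨fun h2 => absurd h2 (not_lt.2 hy.le), fun h2 => absurd h2 (not_lt.2 h1.le)⟩
  · filter_upwards [continuousAt_const.eventually_lt hf.continuousAt h1] with y hy
    exact ⟨fun _ => h1, fun _ => hy⟩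

/-- The wall function. -/
noncomputable def wall (t n : ℝ) : ℝ :=
  max (max (-(1 / 2)) (min (1 / 2) (4 * t))) (clp (8 * (|t| + n - 3 / 4)) - 1 / 2)

theorem wall_big {t n : ℝ} (h : 7 / 8 < |t| + n) : wall t n = 1 / 2 := by
  unfold wall
  rw [clp_of_one_le (by linarith)]
  have : max (-(1 / 2)) (min (1 / 2) (4 * t)) ≤ 1 - 1 / 2 := by
    refine max_le (by norm_num) ((min_le_left _ _).trans (by norm_num))
  rw [max_eq_right this]
  norm_num

theorem wall_pos {t n : ℝ} (h : 0 < t) : 0 < wall t n := by
  unfold wall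
  refine lt_of_lt_of_le ?_ (le_max_left _ _)
  refine lt_of_lt_of_le ?_ (le_max_right _ _)
  exact lt_min (by norm_num) (by linarith)

theorem wall_small {t n : ℝ} (h : t < -(1 / 8)) (h2 : |t| + n < 3 / 4) : wall t n = -(1 / 2) := by
  unfold wall
  rw [clp_of_nonpos (by linarith), max_eq_left]
  · rw [max_eq_left]
    exact (min_le_right _ _).trans (by linarith)
  · rw [zero_sub]
    exact le_max_left _ _

theorem fold_of_km {X : Type} [TopologicalSpace X] {k : ℕ} (g : X → Fin (k + 2) → ℝ)
    (hg : ∀ i, Continuous (fun x => g x i)) (hg0 : ∀ x i, 0 ≤ g x i) (hg1 : ∀ x, ∑ i, g x i = 1)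
    (X₀ XM X₁ : Set X) (h₀ : IsClosed X₀) (hM : IsClosed XM) (h₁ : IsClosed X₁)
    (hcov : X₀ ∪ XM ∪ X₁ = univ) (hA : setA (fun x => TT (g x)) (fun x => NN (g x)) ⊆ X₀)
    (hB : setB (fun x => TT (g x)) (fun x => NN (g x)) ⊆ X₁) (hdis : Disjoint X₀ X₁)
    (h0M : X₀ ∩ XM ⊆ setV (fun x => TT (g x)) (fun x => NN (g x)))
    (hM1 : XM ∩ X₁ ⊆ setU (fun x => TT (g x)) (fun x => NN (g x))) : Nonempty (Fold X k g) := by
  classical
  -- notation
  obtain ⟨T, hTdef⟩ : ∃ T : X → ℝ, T = fun x => TT (g x) := ⟨_, rfl⟩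
  obtain ⟨N, hNdef⟩ : ∃ N : X → ℝ, N = fun x => NN (g x) := ⟨_, rfl⟩
  have hTx : ∀ x, T x = TT (g x) := fun x => by rw [hTdef]
  have hNx : ∀ x, N x = NN (g x) := fun x => by rw [hNdef]
  rw [← hTdef, ← hNdef] at hA hB h0M hM1
  have hFFc : ∀ j, Continuous (fun x => FF (g x) j) := by
    intro j
    unfold FF
    exact continuous_const.mul ((hg _).sub (hg _))
  have hTc : Continuous T := by rw [hTdef]; exact hFFc 0
  have hNc : Continuous N := by
    rw [hNdef]
    unfold NN
    exact continuous_finsetSum _ fun j _ => (hFFc j.succ).abs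
  have hN0 : ∀ x, 0 ≤ N x := by
    intro x
    rw [hNx]
    unfold NN
    exact Finset.sum_nonneg fun j _ => abs_nonneg _
  have hpos : ∀ x, x ∉ X₀ → ∀ i, 0 < g x i := by
    intro x hx
    refine all_pos (hg1 x) ?_
    by_contra hcon
    push Not at hcon
    refine hx (hA (Or.inl ?_))
    show 1 ≤ |T x| + N x
    rw [hTx, hNx]
    exact hcon
  have hd : ∀ x, x ∈ X₀ → x ∉ X₁ := fun x h h' => Set.disjoint_left.1 hdis h h'
  have hcov' : ∀ x, x ∈ X₀ ∨ x ∈ XM ∨ x ∈ X₁ := by
    intro x
    have : x ∈ X₀ ∪ XM ∪ X₁ := by rw [hcov]; trivial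
    rcases this with (h | h) | h
    · exact Or.inl h
    · exact Or.inr (Or.inl h)
    · exact Or.inr (Or.inr h)
  have h0M' : ∀ x, x ∈ X₀ → x ∈ XM → |T x| < 1 / 16 ∧ N x < 1 / 16 := fun x h h' => h0M ⟨h, h'⟩
  have hM1' : ∀ x, x ∈ XM → x ∈ X₁ → (7 / 8 < |T x| + N x) ∨
      (|T x + 1 / 2| < 1 / 16 ∧ N x < 3 / 16) := fun x h h' => hM1 ⟨h, h'⟩
  -- the function D
  obtain ⟨D, hD⟩ : ∃ D : X → ℝ, D = fun x => if x ∈ X₀ then max (N x) |T x|
    else if x ∈ XM then max (N x) (min (1 / 8) |T x|) else max (N x) (1 / 8) := ⟨_, rfl⟩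
  have hD0 : ∀ x, x ∈ X₀ → D x = max (N x) |T x| := by
    intro x hx
    rw [hD]; simp only [if_pos hx]
  have hDM : ∀ x, x ∈ XM → D x = max (N x) (min (1 / 8) |T x|) := by
    intro x hx
    by_cases h0 : x ∈ X₀
    · rw [hD0 x h0, min_eq_right]
      linarith [(h0M' x h0 hx).1]
    · rw [hD]; simp only [if_neg h0, if_pos hx]
  have hD1 : ∀ x, x ∈ X₁ → D x = max (N x) (1 / 8) := by
    intro x hx
    have h0 : x ∉ X₀ := fun h => hd x h hx
    by_cases h : x ∈ XM
    · rw [hDM x h]
      rcases hM1' x h hx with h1 | h1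
      · by_cases h2 : 1 / 8 ≤ |T x|
        · rw [min_eq_left h2]
        · push Not at h2
          rw [min_eq_right h2.le, max_eq_left (by linarith), max_eq_left (by linarith)]
      · rw [min_eq_left]
        have := (abs_lt.1 h1.1).2
        rw [abs_of_neg (by linarith)]
        linarith
    · rw [hD]; simp only [if_neg h0, if_neg h]
  have hDc : Continuous D := by
    have hcl : ∀ i : Fin 3, IsClosed ((![X₀, XM, X₁] : Fin 3 → Set X) i) := by
      intro i
      fin_cases i
      · exact h₀
      · exact hM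
      · exact h₁
    refine (locallyFinite_of_finite (![X₀, XM, X₁] : Fin 3 → Set X)).continuous ?_ hcl ?_
    · rw [eq_univ_iff_forall]
      intro x
      rw [mem_iUnion]
      rcases hcov' x with h | h | h
      · exact ⟨0, h⟩
      · exact ⟨1, h⟩
      · exact ⟨2, h⟩
    · intro i
      fin_cases i
      · exact (hNc.max hTc.abs).continuousOn.congr fun x hx => hD0 x hx
      · exact (hNc.max (continuous_const.min hTc.abs)).continuousOn.congr fun x hx => hDM x hx
      · exact (hNc.max continuous_const).continuousOn.congr fun x hx => hD1 x hx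
  have hDN : ∀ x, N x ≤ D x := by
    intro x
    rcases hcov' x with h | h | h
    · rw [hD0 x h]; exact le_max_left _ _
    · rw [hDM x h]; exact le_max_left _ _
    · rw [hD1 x h]; exact le_max_left _ _
  have hDpos : ∀ x, 0 < D x := by
    intro x
    by_contra hcon
    have hN' : N x = 0 := le_antisymm ((hDN x).trans (not_lt.1 hcon)) (hN0 x)
    have hx1 : x ∉ X₁ := by
      intro h
      rw [hD1 x h] at hcon
      exact hcon (lt_max_of_lt_right (by norm_num))
    have hT' : T x = 0 := by
      by_contra hT0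
      have : 0 < |T x| := abs_pos.2 hT0
      rcases hcov' x with h | h | h
      · rw [hD0 x h] at hcon
        exact hcon (lt_max_of_lt_right this)
      · rw [hDM x h] at hcon
        exact hcon (lt_max_of_lt_right (lt_min (by norm_num) this))
      · exact hx1 h
    refine hx1 (hB ⟨?_, ?_⟩)
    · show |T x| ≤ 1 / 32
      rw [hT']; norm_num
    · show N x ≤ 1 / 32
      rw [hN']; norm_num
  -- facts on the special region `N < D`
  have hspec1 : ∀ x, x ∈ X₁ → N x < D x → N x < 1 / 8 := by
    intro x hx h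
    rw [hD1 x hx] at h
    rcases lt_max_iff.1 h with h | h
    · exact absurd h (lt_irrefl _)
    · exact h
  have hspecT : ∀ x, x ∉ X₁ → N x < D x → T x ≠ 0 := by
    intro x hx h hT'
    have : ¬ N x < 0 := not_lt.2 (hN0 x)
    rcases hcov' x with h' | h' | h'
    · rw [hD0 x h', hT', abs_zero, max_eq_left (hN0 x)] at h
      exact lt_irrefl _ h
    · rw [hDM x h', hT', abs_zero, min_eq_right (by norm_num), max_eq_left (hN0 x)] at h
      exact lt_irrefl _ h
    · exact hx h'
  have hspechalf : ∀ x, x ∉ X₀ → N x < D x → T x ≠ -(1 / 2) := by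
    intro x hx h hT'
    have hN8 : 1 / 8 < N x := by
      by_contra hcon
      push Not at hcon
      refine hx (hA (Or.inr ⟨?_, hcon⟩))
      show |T x + 1 / 2| ≤ 1 / 32
      rw [hT']; norm_num
    rcases hcov' x with h' | h' | h'
    · exact hx h'
    · rw [hDM x h', hT', max_eq_left] at h
      · exact lt_irrefl _ h
      · exact (min_le_left _ _).trans hN8.le
    · exact absurd (hspec1 x h' h) (not_lt.2 hN8.le)
  -- weights
  obtain ⟨w, hw⟩ : ∃ w : X → Fin (k + 1) → ℝ, w = fun x => Fin.cons (1 - N x / D x)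
    (fun j : Fin k => |FF (g x) j.succ| / D x) := ⟨_, rfl⟩
  have hw0 : ∀ x, w x 0 = 1 - N x / D x := fun x => by rw [hw]; rfl
  have hws : ∀ x (j : Fin k), w x j.succ = |FF (g x) j.succ| / D x := fun x j => by rw [hw]; rfl
  have hw0' : ∀ x, w x 0 ≠ 0 → N x < D x := by
    intro x hx
    refine lt_of_le_of_ne (hDN x) fun he => hx ?_
    rw [hw0, he, div_self (hDpos x).ne', sub_self]
  have hws' : ∀ x (j : Fin k), w x j.succ ≠ 0 → FF (g x) j.succ ≠ 0 := by
    intro x j hx he
    apply hx
    rw [hws, he, abs_zero, zero_div]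
  obtain ⟨s, hs⟩ : ∃ s : X → ℝ, s = fun x => wall (T x) (N x) := ⟨_, rfl⟩
  have hsx : ∀ x, s x = wall (T x) (N x) := fun x => by rw [hs]
  have hsc : Continuous s := by
    rw [hs]
    unfold wall
    refine Continuous.max (continuous_const.max (continuous_const.min (continuous_const.mul hTc))) ?_
    exact (clp_cont.comp (continuous_const.mul ((hTc.abs.add hNc).sub continuous_const))).sub
      continuous_const
  obtain ⟨U2, hU2⟩ : ∃ U2 : Set X, U2 = (X₀ ∪ XM)ᶜ := ⟨_, rfl⟩
  have hU2o : IsOpen U2 := by rw [hU2]; exact (h₀.union hM).isOpen_compl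
  have hU2' : ∀ x, x ∈ U2 → x ∉ X₀ ∧ x ∉ XM ∧ x ∈ X₁ := by
    intro x hx
    rw [hU2] at hx
    have h1 : x ∉ X₀ := fun h => hx (Or.inl h)
    have h2 : x ∉ XM := fun h => hx (Or.inr h)
    refine ⟨h1, h2, ?_⟩
    rcases hcov' x with h | h | h
    · exact absurd h h1
    · exact absurd h h2
    · exact h
  have hU2i : ∀ x, x ∉ XM → x ∈ X₁ → x ∈ U2 := by
    intro x h1 h2
    rw [hU2]
    rintro (h | h)
    · exact hd x h h2
    · exact h1 h
  -- kinds
  let circ : X → Prop := fun x => x ∉ X₀ ∧ T x < -(1 / 2)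
  let sd : X → Prop := fun x => (x ∉ X₁ ∧ 0 < T x) ∨ (x ∈ X₁ ∧ 0 < s x)
  -- eventual constancy of circ
  have hcirc : ∀ x, N x < D x → ∀ᶠ y in 𝓝 x, (circ y ↔ circ x) := by
    intro x hx
    by_cases hc : circ x
    · filter_upwards [h₀.isOpen_compl.mem_nhds hc.1,
        hTc.continuousAt.eventually_lt continuousAt_const hc.2] with y hy1 hy2
      exact ⟨fun _ => hc, fun _ => ⟨hy1, hy2⟩⟩
    · by_cases hT2 : -(1 / 2) < T x
      · filter_upwards [continuousAt_const.eventually_lt hTc.continuousAt hT2] with y hy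
        exact ⟨fun h => absurd h.2 (not_lt.2 hy.le), fun h => absurd h hc⟩
      · push Not at hT2
        have hx0 : x ∈ X₀ := by
          by_contra hx0
          exact hc ⟨hx0, lt_of_le_of_ne hT2 (hspechalf x hx0 hx)⟩
        have hxM : x ∉ XM := by
          intro hxM
          have := (abs_lt.1 (h0M' x hx0 hxM).1).1
          linarith
        have hx1 : x ∉ X₁ := hd x hx0
        filter_upwards [hM.isOpen_compl.mem_nhds hxM, h₁.isOpen_compl.mem_nhds hx1] with y hy1 hy2
        have hy0 : y ∈ X₀ := by
          rcases hcov' y with h | h | h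
          · exact h
          · exact absurd h hy1
          · exact absurd h hy2
        exact ⟨fun h => absurd hy0 h.1, fun h => absurd h hc⟩
  have hsd : ∀ x, N x < D x → ¬ circ x → ¬ (x ∈ U2 ∧ s x = 0) →
      ∀ᶠ y in 𝓝 x, (sd y ↔ sd x) := by
    intro x hx hc hW
    by_cases hx1 : x ∈ X₁
    · by_cases hxM : x ∈ XM
      · have hx0 : x ∉ X₀ := fun h => hd x h hx1
        have hT2 : -(1 / 2) ≤ T x := by
          by_contra hcon
          exact hc ⟨hx0, not_le.1 hcon⟩
        have hN8 := hspec1 x hx1 hx
        rcases hM1' x hxM hx1 with h | h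
        · have hT3 : 3 / 4 < T x := by
            rcases le_total 0 (T x) with h3 | h3
            · rw [abs_of_nonneg h3] at h; linarith
            · rw [abs_of_nonpos h3] at h; linarith
          have hT4 : 0 < T x := by linarith
          filter_upwards [continuousAt_const.eventually_lt hTc.continuousAt hT4] with y hy
          have hyes : sd y := by
            by_cases hy1 : y ∈ X₁
            · exact Or.inr ⟨hy1, by rw [hsx]; exact wall_pos hy⟩
            · exact Or.inl ⟨hy1, hy⟩
          have hyes' : sd x := Or.inr ⟨hx1, by rw [hsx]; exact wall_pos hT4⟩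
          exact ⟨fun _ => hyes', fun _ => hyes⟩
        · have h1 := (abs_lt.1 h.1).1
          have h2 := (abs_lt.1 h.1).2
          have hTlt : T x < -(1 / 8) := by linarith
          have hTN : |T x| + N x < 3 / 4 := by
            rw [abs_of_neg (by linarith)]; linarith
          filter_upwards [hTc.continuousAt.eventually_lt continuousAt_const hTlt,
            (hTc.abs.add hNc).continuousAt.eventually_lt continuousAt_const hTN] with y hy1 hy2
          have hno : ∀ z, T z < -(1 / 8) → |T z| + N z < 3 / 4 → ¬ sd z := by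
            rintro z hz1 hz2 (hz | hz)
            · linarith [hz.2]
            · have := hz.2
              rw [hsx, wall_small hz1 hz2] at this
              norm_num at this
          exact ⟨fun h => absurd h (hno y hy1 hy2), fun h => absurd h (hno x hTlt hTN)⟩
      · have hxU := hU2i x hxM hx1
        have hsne : s x ≠ 0 := fun h => hW ⟨hxU, h⟩
        filter_upwards [hU2o.mem_nhds hxU, eventually_sign hsc hsne] with y hy1 hy2
        have hyX1 := (hU2' y hy1).2.2
        constructor
        · rintro (h | h)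
          · exact absurd hyX1 h.1
          · exact Or.inr ⟨hx1, hy2.1 h.2⟩
        · rintro (h | h)
          · exact absurd hx1 h.1
          · exact Or.inr ⟨hyX1, hy2.2 h.2⟩
    · filter_upwards [h₁.isOpen_compl.mem_nhds hx1, eventually_sign hTc (hspecT x hx1 hx)] with
        y hy1 hy2
      constructor
      · rintro (h | h)
        · exact Or.inl ⟨hx1, hy2.1 h.2⟩
        · exact absurd h.1 hy1
      · rintro (h | h)
        · exact Or.inl ⟨hy1, hy2.2 h.2⟩
        · exact absurd h.1 hx1
  let kind0 : X → Option (Fin (k + 2)) := fun x =>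
    if circ x then none else if sd x then some 1 else some 0
  let kp0 : X → Option (Fin (k + 2)) := fun x => if circ x then none else some 1
  let kinds : Fin k → X → Option (Fin (k + 2)) := fun j x =>
    if 0 < FF (g x) j.succ then some j.succ.succ else some 0
  refine ⟨{
    w := w
    w_cont := ?_
    w_nonneg := ?_
    w_sum := ?_
    U2 := U2
    U2_open := hU2o
    U2_g := fun x hx => hpos x (hU2' x hx).1
    s := s
    s_cont := hsc
    C_closed := ?_
    flip := fun j => Fin.cases (motive := fun _ => Option (Fin (k + 2)) → Option (Fin (k + 2)) → Prop)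
      (fun a b => (a = none ∧ b = none) ∨ (a = some 1 ∧ b = some 0)) (fun _ a b => a = b) j
    flip_fun := ?_
    flip_inj := ?_
    kind := fun j => Fin.cases (motive := fun _ => X → Option (Fin (k + 2))) kind0 kinds j
    kp := fun j => Fin.cases (motive := fun _ => X → Option (Fin (k + 2))) kp0 kinds j
    kind_LC := ?_
    kp_LC := ?_
    kind_ok := ?_
    kp_pos := ?_
    kp_neg := ?_
    kp_dom := ?_ }⟩
  · -- w_cont
    intro j
    refine Fin.cases ?_ (fun j => ?_) j
    · simp only [hw0]
      exact continuous_const.sub (hNc.div hDc fun x => (hDpos x).ne')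
    · simp only [hws]
      exact (hFFc j.succ).abs.div hDc fun x => (hDpos x).ne'
  · -- w_nonneg
    intro x j
    refine Fin.cases ?_ (fun j => ?_) j
    · rw [hw0, sub_nonneg]
      exact (div_le_one (hDpos x)).2 (hDN x)
    · rw [hws]
      exact div_nonneg (abs_nonneg _) (hDpos x).le
  · -- w_sum
    intro x
    rw [Fin.sum_univ_succ]
    simp only [hw0, hws]
    rw [← Finset.sum_div, hNx]
    unfold NN
    ring
  · -- C_closed
    have : {x | x ∈ U2 ∧ |s x| ≤ 1 / 4} = X₁ ∩ {x | |s x| ≤ 1 / 4} := by
      ext x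
      constructor
      · rintro ⟨h1, h2⟩
        exact ⟨(hU2' x h1).2.2, h2⟩
      · rintro ⟨h1, h2⟩
        refine ⟨hU2i x (fun hM' => ?_) h1, h2⟩
        have h2' : |s x| ≤ 1 / 4 := h2
        rw [hsx] at h2'
        rcases hM1' x hM' h1 with h | h
        · rw [wall_big h] at h2'
          norm_num at h2'
        · have h3 := (abs_lt.1 h.1).1
          have h4 := (abs_lt.1 h.1).2
          rw [wall_small (by linarith) (by rw [abs_of_neg (by linarith)]; linarith)] at h2'
          norm_num at h2'
    rw [this]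
    exact h₁.inter (isClosed_le hsc.abs continuous_const)
  · -- flip_fun
    intro j
    refine Fin.cases ?_ (fun j => ?_) j
    · rintro a b b' (⟨h1, h2⟩ | ⟨h1, h2⟩) (⟨h3, h4⟩ | ⟨h3, h4⟩)
      · rw [h2, h4]
      · rw [h1] at h3; simp at h3
      · rw [h1] at h3; simp at h3
      · rw [h2, h4]
    · intro a b b' h h'
      exact h.symm.trans h'
  · -- flip_inj
    intro j
    refine Fin.cases ?_ (fun j => ?_) j
    · rintro a a' b (⟨h1, h2⟩ | ⟨h1, h2⟩) (⟨h3, h4⟩ | ⟨h3, h4⟩)
      · rw [h1, h3]
      · rw [h2] at h4; simp at h4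
      · rw [h2] at h4; simp at h4
      · rw [h1, h3]
    · intro a a' b h h'
      exact (show a = b from h).trans (show a' = b from h').symm
  · -- kind_LC
    intro j
    refine Fin.cases ?_ (fun j => ?_) j
    · rintro x ⟨h1, h2⟩
      have hx := hw0' x h1
      by_cases hc : circ x
      · filter_upwards [hcirc x hx] with y hy
        show kind0 y = kind0 x
        simp only [kind0, if_pos hc, if_pos (hy.2 hc)]
      · filter_upwards [hcirc x hx, hsd x hx hc h2] with y hy hy2
        show kind0 y = kind0 x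
        simp only [kind0, hy, hy2]
    · rintro x ⟨h1, h2⟩
      filter_upwards [eventually_sign (hFFc j.succ) (hws' x j h1)] with y hy
      show kinds j y = kinds j x
      simp only [kinds, hy]
  · -- kp_LC
    intro j
    refine Fin.cases ?_ (fun j => ?_) j
    · rintro x ⟨h1, h2⟩
      filter_upwards [hcirc x (hw0' x h1)] with y hy
      show kp0 y = kp0 x
      simp only [kp0, hy]
    · rintro x ⟨h1, h2⟩
      filter_upwards [eventually_sign (hFFc j.succ) (hws' x j h1)] with y hy
      show kinds j y = kinds j x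
      simp only [kinds, hy]
  · -- kind_ok
    intro j
    refine Fin.cases ?_ (fun j => ?_) j
    · intro x h1 h2
      have hx := hw0' x h1
      show KOk (g x) (kind0 x)
      by_cases hc : circ x
      · simp only [kind0, if_pos hc]
        exact hpos x hc.1
      · by_cases hs' : sd x
        · simp only [kind0, if_neg hc, if_pos hs']
          show 0 < g x 1
          rcases hs' with h | h
          · have := FF_pos (g := g x) (j := 0) (by have := h.2; rwa [hTx] at this)
            have h3 := hg0 x 0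
            exact lt_of_le_of_lt h3 this
          · exact hpos x (fun h' => hd x h' h.1) 1
        · simp only [kind0, if_neg hc, if_neg hs']
          show 0 < g x 0
          by_cases hx1 : x ∈ X₁
          · exact hpos x (fun h' => hd x h' hx1) 0
          · have hT0 := hspecT x hx1 hx
            have hTn : T x < 0 := by
              refine lt_of_le_of_ne ?_ hT0
              by_contra hcon
              exact hs' (Or.inl ⟨hx1, not_le.1 hcon⟩)
            have := FF_neg (g := g x) (j := 0) (by rwa [hTx] at hTn)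
            exact lt_of_le_of_lt (hg0 x _) this
    · intro x h1 h2
      show KOk (g x) (kinds j x)
      by_cases hF : 0 < FF (g x) j.succ
      · simp only [kinds, if_pos hF]
        exact lt_of_le_of_lt (hg0 x 0) (FF_pos hF)
      · simp only [kinds, if_neg hF]
        have hF' : FF (g x) j.succ < 0 := lt_of_le_of_ne (not_lt.1 hF) (hws' x j h1)
        exact lt_of_le_of_lt (hg0 x _) (FF_neg hF')
  · -- kp_pos
    intro j
    refine Fin.cases ?_ (fun j => ?_) j
    · intro x h1 h2 h3
      show kind0 x = kp0 x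
      have : sd x := Or.inr ⟨(hU2' x h2).2.2, h3⟩
      simp only [kind0, kp0, if_pos this]
    · intro x h1 h2 h3
      rfl
  · -- kp_neg
    intro j
    refine Fin.cases ?_ (fun j => ?_) j
    · intro x h1 h2 h3
      have hn : ¬ sd x := by
        rintro (h | h)
        · exact h.1 (hU2' x h2).2.2
        · exact absurd h3 (not_lt.2 h.2.le)
      show (kp0 x = none ∧ kind0 x = none) ∨ (kp0 x = some 1 ∧ kind0 x = some 0)
      by_cases hc : circ x
      · left
        simp only [kp0, kind0, if_pos hc, and_self]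
      · right
        simp only [kp0, kind0, if_neg hc, if_neg hn, and_self]
    · intro x h1 h2 h3
      rfl
  · -- kp_dom
    intro j
    refine Fin.cases ?_ (fun j => ?_) j
    · intro x h1 h2
      by_cases hc : circ x
      · refine ⟨none, Or.inl ⟨?_, rfl⟩⟩
        show kp0 x = none
        simp only [kp0, if_pos hc]
      · refine ⟨some 0, Or.inr ⟨?_, rfl⟩⟩
        show kp0 x = some 1
        simp only [kp0, if_neg hc]
    · intro x h1 h2
      exact ⟨_, rfl⟩

end Pool.Agent.Lib_MP_1dc66a_gt
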