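import Pool.Agent.Lib_MP_1dc66a_gt.Basic

/-!
Krasinkiewicz–Minc type lemma at a finite stage of an inverse sequence.
-/

set_option autoImplicit false

open Set Topology Filter

namespace Pool.Agent.Lib_MP_1dc66a_gt

/-! ### clopen hulls in compact spaces -/

/-- If every clopen set containing the closed set `A` contains `x`, then the component of `x`
meets `A`. -/
lemma component_meets {F : Type*} [TopologicalSpace F] [CompactSpace F] [T2Space F]
    {A : Set F} (hA : IsClosed A) {x : F} (h : ∀ C : Set F, IsClopen C → A ⊆ C → x ∈ C) :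
    (connectedComponent x ∩ A).Nonempty := by
  by_contra hne
  rw [not_nonempty_iff_eq_empty] at hne
  rw [connectedComponent_eq_iInter_isClopen] at hne
  -- compactness
  have hdir : Directed (· ⊇ ·) (fun s : {s : Set F // IsClopen s ∧ x ∈ s} => (s : Set F) ∩ A) := by
    intro s t
    refine ⟨⟨s.1 ∩ t.1, s.2.1.inter t.2.1, s.2.2, t.2.2⟩, ?_, ?_⟩
    · intro y hy
      exact ⟨hy.1.1, hy.2⟩
    · intro y hy
      exact ⟨hy.1.2, hy.2⟩
  have hnonempty : ∃ s : {s : Set F // IsClopen s ∧ x ∈ s}, ¬ ((s : Set F) ∩ A).Nonempty := by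
    by_contra hall
    push Not at hall
    have : Nonempty {s : Set F // IsClopen s ∧ x ∈ s} := ⟨⟨univ, isClopen_univ, mem_univ _⟩⟩
    have h1 := IsCompact.nonempty_iInter_of_directed_nonempty_isCompact_isClosed
      (fun s : {s : Set F // IsClopen s ∧ x ∈ s} => (s : Set F) ∩ A) hdir hall
      (fun s => (s.2.1.1.inter hA).isCompact) (fun s => s.2.1.1.inter hA)
    obtain ⟨y, hy⟩ := h1
    rw [mem_iInter] at hy
    have : y ∈ (⋂ s : {s : Set F // IsClopen s ∧ x ∈ s}, (s : Set F)) ∩ A := by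
      refine ⟨mem_iInter.2 (fun s => (hy s).1), ?_⟩
      exact (hy ⟨univ, isClopen_univ, mem_univ _⟩).2
    rw [hne] at this
    exact this
  obtain ⟨⟨s, hs, hxs⟩, hsA⟩ := hnonempty
  have h2 : A ⊆ sᶜ := by
    intro y hy hys
    exact hsA ⟨y, hys, hy⟩
  exact h sᶜ hs.compl h2 hxs

/-! ### the extension maps -/

section ext

variable {X : ℕ → Type} [∀ n, TopologicalSpace (X n)]

/-- extend a point of `X N` to a point of the product which is a thread below `N`. -/
noncomputable def ex (P : ∀ n, C(X (n + 1), X n)) (c : ∀ m, X m) : (N : ℕ) → X N → ∀ m, X m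
  | 0 => fun x => Function.update c 0 x
  | N + 1 => fun x => Function.update (ex P c N (P N x)) (N + 1) x

variable (P : ∀ n, C(X (n + 1), X n)) (c : ∀ m, X m)

lemma ex_self (N : ℕ) (x : X N) : ex P c N x N = x := by
  cases N with
  | zero => simp [ex]
  | succ N => simp [ex]

lemma ex_succ_of_le (N m : ℕ) (h : m ≤ N) (x : X (N + 1)) :
    ex P c (N + 1) x m = ex P c N (P N x) m := by
  simp only [ex]
  rw [Function.update_of_ne (by omega)]

lemma ex_thread (N m : ℕ) (h : m < N) (x : X N) :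
    P m (ex P c N x (m + 1)) = ex P c N x m := by
  induction N with
  | zero => omega
  | succ N ih =>
    rcases Nat.lt_succ_iff_lt_or_eq.1 h with h1 | h1
    · rw [ex_succ_of_le P c N (m + 1) h1, ex_succ_of_le P c N m h1.le]
      exact ih h1 _
    · subst h1
      rw [ex_self, ex_succ_of_le P c m m le_rfl, ex_self]

lemma ex_bond (n d : ℕ) (x : X (n + d)) : ex P c (n + d) x n = bond P n d x := by
  induction d with
  | zero => exact ex_self P c n x
  | succ d ih =>
    have h1 : ex P c (n + (d + 1)) x n = ex P c (n + d) (P (n + d) x) n :=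
      ex_succ_of_le P c (n + d) n (by omega) x
    rw [h1, ih]
    rfl

lemma ex_continuous (N : ℕ) : Continuous (ex P c N) := by
  induction N with
  | zero =>
    simp only [ex]
    exact continuous_const.update 0 continuous_id
  | succ N ih =>
    simp only [ex]
    exact (ih.comp (P N).continuous).update (N + 1) continuous_id

end ext

/-! ### ultralimits of connected sets -/

section ulim

variable {Z : Type*} [TopologicalSpace Z]

/-- the ultralimit of a sequence of sets. -/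
def ulim (U : Ultrafilter ℕ) (C : ℕ → Set Z) : Set Z :=
  {z | ∀ W ∈ 𝓝 z, ∀ᶠ d in (U : Filter ℕ), (C d ∩ W).Nonempty}

variable {U : Ultrafilter ℕ} {C : ℕ → Set Z}

lemma ulim_subset {T : Set Z} (hT : IsClosed T) (h : ∀ᶠ d in (U : Filter ℕ), C d ⊆ T) :
    ulim U C ⊆ T := by
  intro z hz
  by_contra hzT
  have h1 := hz Tᶜ (hT.isOpen_compl.mem_nhds hzT)
  obtain ⟨d, hd1, hd2⟩ := (h1.and h).exists
  obtain ⟨y, hy1, hy2⟩ := hd1
  exact hy2 (hd2 hy1)

lemma ulim_closed : IsClosed (ulim U C) := by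
  rw [← closure_subset_iff_isClosed]
  intro z hz W hW
  obtain ⟨O, hOW, hO, hzO⟩ := mem_nhds_iff.1 hW
  rw [mem_closure_iff] at hz
  obtain ⟨z', hz'O, hz'⟩ := hz O hO hzO
  refine (hz' O (hO.mem_nhds hz'O)).mono (fun d hd => ?_)
  obtain ⟨y, hy1, hy2⟩ := hd
  exact ⟨y, hy1, hOW hy2⟩

lemma lim_mem_ulim {s : ℕ → Z} {z : Z} (hs : ∀ᶠ d in (U : Filter ℕ), s d ∈ C d)
    (hz : Tendsto s (U : Filter ℕ) (𝓝 z)) : z ∈ ulim U C := by
  intro W hW
  refine (hs.and (hz.eventually hW)).mono (fun d hd => ⟨s d, hd.1, hd.2⟩)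

lemma exists_lim [CompactSpace Z] (s : ℕ → Z) : ∃ z, Tendsto s (U : Filter ℕ) (𝓝 z) := by
  obtain ⟨z, _, hz⟩ := isCompact_univ.ultrafilter_le_nhds (U.map s) (by simp)
  exact ⟨z, hz⟩

/-- an ultralimit is contained in every pair of closed sets ... contrapositive form: if the
ultralimit is inside an open set `O`, then eventually so are the sets. -/
lemma eventually_subset [CompactSpace Z] {O : Set Z} (hO : IsOpen O)
    (h : ulim U C ⊆ O) : ∀ᶠ d in (U : Filter ℕ), C d ⊆ O := by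
  classical
  by_contra hne
  rw [← Ultrafilter.eventually_not] at hne
  -- choose points outside
  have hne2 : ∀ᶠ d in (U : Filter ℕ), ∃ y, y ∈ C d ∧ y ∉ O := by
    refine hne.mono (fun d hd => ?_)
    exact not_subset.1 hd
  obtain ⟨d0, y0, _⟩ := hne2.exists
  let s : ℕ → Z := fun d => if hd : ∃ y, y ∈ C d ∧ y ∉ O then hd.choose else y0
  have hs : ∀ᶠ d in (U : Filter ℕ), s d ∈ C d ∧ s d ∉ O := by
    refine hne2.mono (fun d hd => ?_)
    simp only [s]
    rw [dif_pos hd]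
    exact hd.choose_spec
  obtain ⟨z, hz⟩ := exists_lim (U := U) s
  have h1 : z ∈ ulim U C := lim_mem_ulim (hs.mono (fun d hd => hd.1)) hz
  have h2 : z ∈ Oᶜ := hO.isClosed_compl.mem_of_tendsto hz (hs.mono (fun d hd => hd.2))
  exact h2 (h h1)

lemma ulim_preconnected [CompactSpace Z] [T2Space Z] (hC : ∀ d, IsPreconnected (C d))
    {s : ℕ → Z} (hs : ∀ d, s d ∈ C d) : IsPreconnected (ulim U C) := by
  rw [isPreconnected_iff_subset_of_fully_disjoint_closed ulim_closed]
  intro u v hu hv huv hdisj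
  -- symmetric statement
  have key : ∀ u v : Set Z, IsClosed u → IsClosed v → ulim U C ⊆ u ∪ v → Disjoint u v →
      ∀ z, Tendsto s (U : Filter ℕ) (𝓝 z) → z ∈ u → ulim U C ⊆ u := by
    intro u v hu hv huv hdisj z hz hzu
    obtain ⟨E, F, hE, hF, huE, hvF, hEF⟩ := normal_separation hu hv hdisj
    have h1 : ∀ᶠ d in (U : Filter ℕ), C d ⊆ E ∪ F :=
      eventually_subset (hE.union hF) (huv.trans (union_subset_union huE hvF))
    have h2 : ∀ᶠ d in (U : Filter ℕ), s d ∈ E := hz.eventually (hE.mem_nhds (huE hzu))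
    have h3 : ∀ᶠ d in (U : Filter ℕ), C d ⊆ E := by
      refine (h1.and h2).mono (fun d hd => ?_)
      exact (hC d).subset_left_of_subset_union hE hF hEF hd.1 ⟨s d, hs d, hd.2⟩
    intro w hw
    rcases huv hw with h4 | h4
    · exact h4
    · exfalso
      have h5 := hw F (hF.mem_nhds (hvF h4))
      obtain ⟨d, ⟨y, hy1, hy2⟩, hd⟩ := (h5.and h3).exists
      exact disjoint_left.1 hEF (hd hy1) hy2
  obtain ⟨z, hz⟩ := exists_lim (U := U) s
  have hzU : z ∈ ulim U C := lim_mem_ulim (Eventually.of_forall hs) hz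
  rcases huv hzU with h | h
  · exact Or.inl (key u v hu hv huv hdisj z hz h)
  · refine Or.inr (key v u hv hu ?_ hdisj.symm z hz h)
    rw [union_comm]
    exact huv

end ulim

/-! ### step (1) -/

section main

variable {X : ℕ → Type} [∀ n, TopologicalSpace (X n)] [∀ n, CompactSpace (X n)]
    [∀ n, T2Space (X n)] (P : ∀ n, C(X (n + 1), X n))

/-- For some stage, there is no point `x` and connected sets `K₁, K₂ ∋ x` with `K₁` missing
(the preimage of) `V` and meeting `A`, and `K₂` missing `U` and meeting `B`. -/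
lemma exists_stage
    (hHI : ∀ A B : Set (∀ n, X n), A ⊆ lim P → B ⊆ lim P → IsCompact A → IsConnected A →
      IsCompact B → IsConnected B → (A ∩ B).Nonempty → A ⊆ B ∨ B ⊆ A)
    (n : ℕ) (A B U V : Set (X n)) (hA : IsClosed A) (hB : IsClosed B) (hU : IsOpen U)
    (hV : IsOpen V) (hAU : A ⊆ U) (hBV : B ⊆ V) :
    ∃ d : ℕ, ∀ (x : X (n + d)) (K₁ K₂ : Set (X (n + d))), IsPreconnected K₁ → IsPreconnected K₂ →
      x ∈ K₁ → x ∈ K₂ → Disjoint K₁ (bond P n d ⁻¹' V) → Disjoint K₂ (bond P n d ⁻¹' U) →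
      (K₁ ∩ bond P n d ⁻¹' A).Nonempty → (K₂ ∩ bond P n d ⁻¹' B).Nonempty → False := by
  classical
  by_contra hne
  push Not at hne
  choose x K₁ K₂ hK₁ hK₂ hx₁ hx₂ hV₁ hU₂ hA₁ hB₂ _ using hne
  -- base point
  have hc : ∀ m, Nonempty (X m) := by
    intro m
    -- from x m : X (n + m) push down to X m
    have : ∀ k m : ℕ, X (m + k) → Nonempty (X m) := by
      intro k
      induction k with
      | zero => exact fun m y => ⟨y⟩
      | succ k ih => exact fun m y => ih m (P (m + k) y)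
    have h := x m
    rw [Nat.add_comm] at h
    exact this n m h
  let c : ∀ m, X m := fun m => (hc m).some
  let e : ∀ d, X (n + d) → ∀ m, X m := fun d => ex P c (n + d)
  let C₁ : ℕ → Set (∀ m, X m) := fun d => e d '' K₁ d
  let C₂ : ℕ → Set (∀ m, X m) := fun d => e d '' K₂ d
  have he : ∀ d, Continuous (e d) := fun d => ex_continuous P c (n + d)
  have hC₁ : ∀ d, IsPreconnected (C₁ d) := fun d => (hK₁ d).image _ (he d).continuousOn
  have hC₂ : ∀ d, IsPreconnected (C₂ d) := fun d => (hK₂ d).image _ (he d).continuousOn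
  let Uf : Ultrafilter ℕ := hyperfilter ℕ
  have hUf : ∀ m : ℕ, ∀ᶠ d in (Uf : Filter ℕ), m < d := by
    intro m
    have : ∀ᶠ d in (atTop : Filter ℕ), m < d := eventually_gt_atTop m
    rw [← Nat.cofinite_eq_atTop] at this
    exact this.filter_mono (hyperfilter_le_cofinite)
  let L₁ := ulim Uf C₁
  let L₂ := ulim Uf C₂
  have hx₁' : ∀ d, e d (x d) ∈ C₁ d := fun d => mem_image_of_mem _ (hx₁ d)
  have hx₂' : ∀ d, e d (x d) ∈ C₂ d := fun d => mem_image_of_mem _ (hx₂ d)
  obtain ⟨z, hz⟩ := exists_lim (U := Uf) (fun d => e d (x d))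
  have hz₁ : z ∈ L₁ := lim_mem_ulim (Eventually.of_forall hx₁') hz
  have hz₂ : z ∈ L₂ := lim_mem_ulim (Eventually.of_forall hx₂') hz
  have hP₁ : IsPreconnected L₁ := ulim_preconnected hC₁ hx₁'
  have hP₂ : IsPreconnected L₂ := ulim_preconnected hC₂ hx₂'
  have hlim : ∀ C : ℕ → Set (∀ m, X m), (∀ d, C d ⊆ range (e d)) → ulim Uf C ⊆ lim P := by
    intro C hC w hw m
    have hT : IsClosed {w : ∀ m, X m | P m (w (m + 1)) = w m} :=
      isClosed_eq ((P m).continuous.comp (continuous_apply (m + 1))) (continuous_apply m)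
    have : ulim Uf C ⊆ {w : ∀ m, X m | P m (w (m + 1)) = w m} := by
      refine ulim_subset hT ((hUf m).mono (fun d hd => ?_))
      intro w hw
      obtain ⟨y, rfl⟩ := hC d hw
      exact ex_thread P c (n + d) m (by omega) y
    exact this hw
  have hL₁ : L₁ ⊆ lim P := hlim C₁ (fun d => image_subset_range _ _)
  have hL₂ : L₂ ⊆ lim P := hlim C₂ (fun d => image_subset_range _ _)
  have hLV : L₁ ⊆ {w | w n ∈ Vᶜ} := by
    refine ulim_subset (hV.isClosed_compl.preimage (continuous_apply n))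
      (Eventually.of_forall (fun d => ?_))
    rintro w ⟨y, hy, rfl⟩
    have h1 : e d y n = bond P n d y := ex_bond P c n d y
    change e d y n ∈ Vᶜ
    rw [h1]
    exact disjoint_left.1 (hV₁ d) hy
  have hLU : L₂ ⊆ {w | w n ∈ Uᶜ} := by
    refine ulim_subset (hU.isClosed_compl.preimage (continuous_apply n))
      (Eventually.of_forall (fun d => ?_))
    rintro w ⟨y, hy, rfl⟩
    have h1 : e d y n = bond P n d y := ex_bond P c n d y
    change e d y n ∈ Uᶜ
    rw [h1]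
    exact disjoint_left.1 (hU₂ d) hy
  -- points in A and B
  obtain ⟨a, ha1, ha2⟩ : ∃ a ∈ L₁, a n ∈ A := by
    choose y hy using hA₁
    obtain ⟨a, ha⟩ := exists_lim (U := Uf) (fun d => e d (y d))
    refine ⟨a, lim_mem_ulim (Eventually.of_forall (fun d => mem_image_of_mem _ (hy d).1)) ha, ?_⟩
    have hcl : IsClosed {w : ∀ m, X m | w n ∈ A} := hA.preimage (continuous_apply n)
    refine hcl.mem_of_tendsto ha (Eventually.of_forall (fun d => ?_))
    change e d (y d) n ∈ A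
    have h1 : e d (y d) n = bond P n d (y d) := ex_bond P c n d (y d)
    rw [h1]
    exact (hy d).2
  obtain ⟨b, hb1, hb2⟩ : ∃ b ∈ L₂, b n ∈ B := by
    choose y hy using hB₂
    obtain ⟨b, hb⟩ := exists_lim (U := Uf) (fun d => e d (y d))
    refine ⟨b, lim_mem_ulim (Eventually.of_forall (fun d => mem_image_of_mem _ (hy d).1)) hb, ?_⟩
    have hcl : IsClosed {w : ∀ m, X m | w n ∈ B} := hB.preimage (continuous_apply n)
    refine hcl.mem_of_tendsto hb (Eventually.of_forall (fun d => ?_))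
    change e d (y d) n ∈ B
    have h1 : e d (y d) n = bond P n d (y d) := ex_bond P c n d (y d)
    rw [h1]
    exact (hy d).2
  rcases hHI L₁ L₂ hL₁ hL₂ ulim_closed.isCompact ⟨⟨z, hz₁⟩, hP₁⟩ ulim_closed.isCompact
    ⟨⟨z, hz₂⟩, hP₂⟩ ⟨z, hz₁, hz₂⟩ with h | h
  · exact hLU (h ha1) (hAU ha2)
  · exact hLV (h hb1) (hBV hb2)

end main

/-! ### step (2) -/

section sep

variable {X : Type} [TopologicalSpace X] [CompactSpace X] [T2Space X]

/-- P is relatively clopen in the closed set F: both `P` and `F \ P` are closed. -/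
def RC (F P : Set X) : Prop := IsClosed P ∧ P ⊆ F ∧ IsClosed (F \ P)

lemma RC.inter {F P Q : Set X} (hP : RC F P) (hQ : RC F Q) : RC F (P ∩ Q) := by
  refine ⟨hP.1.inter hQ.1, inter_subset_left.trans hP.2.1, ?_⟩
  rw [diff_inter]
  exact hP.2.2.union hQ.2.2

/-- a point in all relatively clopen sets containing `A` lies in a connected subset of `F`
meeting `A`. -/
lemma exists_conn {F A : Set X} (hF : IsClosed F) (hA : IsClosed A) {x : X}
    (hx : ∀ P, RC F P → A ∩ F ⊆ P → x ∈ P) :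
    ∃ K : Set X, IsPreconnected K ∧ x ∈ K ∧ K ⊆ F ∧ (K ∩ A).Nonempty := by
  have hxF : x ∈ F := hx F ⟨hF, Subset.rfl, by simp⟩ inter_subset_right
  have hFc : CompactSpace F := isCompact_iff_compactSpace.1 hF.isCompact
  have h1 := component_meets (F := F) (A := ((↑) : F → X) ⁻¹' A)
    (hA.preimage continuous_subtype_val) (x := ⟨x, hxF⟩) (by
      intro C hC hAC
      have h2 : RC F (((↑) : F → X) '' C) := by
        refine ⟨(hF.isClosedEmbedding_subtypeVal.isClosedMap _ hC.1), ?_, ?_⟩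
        · rintro y ⟨z, _, rfl⟩
          exact z.2
        · have h3 : F \ (((↑) : F → X) '' C) = ((↑) : F → X) '' Cᶜ := by
            ext y
            constructor
            · rintro ⟨hy, hy2⟩
              exact ⟨⟨y, hy⟩, fun hyC => hy2 ⟨_, hyC, rfl⟩, rfl⟩
            · rintro ⟨z, hz, rfl⟩
              refine ⟨z.2, ?_⟩
              rintro ⟨w, hw, hwz⟩
              rw [Subtype.ext hwz] at hw
              exact hz hw
          rw [h3]
          exact hF.isClosedEmbedding_subtypeVal.isClosedMap _ hC.compl.1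
      obtain ⟨z, hz, hzx⟩ := hx _ h2 (by
        rintro y ⟨hyA, hyF⟩
        exact ⟨⟨y, hyF⟩, hAC hyA, rfl⟩)
      rwa [show (⟨x, hxF⟩ : F) = z from Subtype.ext hzx.symm])
  obtain ⟨y, hy1, hy2⟩ := h1
  refine ⟨((↑) : F → X) '' connectedComponent (⟨x, hxF⟩ : F), ?_, ?_, ?_, ?_⟩
  · exact isPreconnected_connectedComponent.image _ continuous_subtype_val.continuousOn
  · exact ⟨_, mem_connectedComponent, rfl⟩
  · rintro z ⟨w, _, rfl⟩
    exact w.2
  · exact ⟨y, ⟨y, hy1, rfl⟩, hy2⟩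

/-- the separation. -/
lemma exists_sep (A B U V : Set X) (hA : IsClosed A) (hB : IsClosed B) (hU : IsOpen U)
    (hV : IsOpen V) (hAU : A ⊆ U) (hBV : B ⊆ V) (hUV : Disjoint U V)
    (h : ∀ (x : X) (K₁ K₂ : Set X), IsPreconnected K₁ → IsPreconnected K₂ →
      x ∈ K₁ → x ∈ K₂ → Disjoint K₁ V → Disjoint K₂ U →
      (K₁ ∩ A).Nonempty → (K₂ ∩ B).Nonempty → False) :
    ∃ (X₀ XM X₁ : Set X), IsClosed X₀ ∧ IsClosed XM ∧ IsClosed X₁ ∧
      X₀ ∪ XM ∪ X₁ = univ ∧ A ⊆ X₀ ∧ B ⊆ X₁ ∧ Disjoint X₀ X₁ ∧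
      X₀ ∩ XM ⊆ V ∧ XM ∩ X₁ ⊆ U := by
  have hAV : A ⊆ Vᶜ := fun a ha haV => disjoint_left.1 hUV (hAU ha) haV
  have hBU : B ⊆ Uᶜ := fun b hb hbU => disjoint_left.1 hUV hbU (hBV hb)
  -- find P, R disjoint
  obtain ⟨P, R, hP, hR, hAP, hBR, hPR⟩ : ∃ P R : Set X, RC Vᶜ P ∧ RC Uᶜ R ∧ A ⊆ P ∧ B ⊆ R ∧
      ¬ (P ∩ R).Nonempty := by
    by_contra hall
    push Not at hall
    let ι := {p : Set X × Set X // RC Vᶜ p.1 ∧ RC Uᶜ p.2 ∧ A ⊆ p.1 ∧ B ⊆ p.2}
    have hι : Nonempty ι := ⟨⟨(Vᶜ, Uᶜ), ⟨hV.isClosed_compl, Subset.rfl, by simp⟩,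
      ⟨hU.isClosed_compl, Subset.rfl, by simp⟩, hAV, hBU⟩⟩
    have hdir : Directed (· ⊇ ·) (fun p : ι => p.1.1 ∩ p.1.2) := by
      intro p q
      refine ⟨⟨(p.1.1 ∩ q.1.1, p.1.2 ∩ q.1.2), p.2.1.inter q.2.1, p.2.2.1.inter q.2.2.1,
        subset_inter p.2.2.2.1 q.2.2.2.1, subset_inter p.2.2.2.2 q.2.2.2.2⟩, ?_, ?_⟩
      · intro y hy
        exact ⟨hy.1.1, hy.2.1⟩
      · intro y hy
        exact ⟨hy.1.2, hy.2.2⟩
    obtain ⟨x, hx⟩ := IsCompact.nonempty_iInter_of_directed_nonempty_isCompact_isClosed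
      (fun p : ι => p.1.1 ∩ p.1.2) hdir
      (fun p => hall p.1.1 p.1.2 p.2.1 p.2.2.1 p.2.2.2.1 p.2.2.2.2)
      (fun p => (p.2.1.1.inter p.2.2.1.1).isCompact) (fun p => p.2.1.1.inter p.2.2.1.1)
    rw [mem_iInter] at hx
    obtain ⟨K₁, h11, h12, h13, h14⟩ := exists_conn (F := Vᶜ) (A := A) (x := x)
      hV.isClosed_compl hA (by
        intro P hP hAP
        have hAP' : A ⊆ P := fun a ha => hAP ⟨ha, hAV ha⟩
        exact (hx ⟨(P, Uᶜ), hP, ⟨hU.isClosed_compl, Subset.rfl, by simp⟩, hAP', hBU⟩).1)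
    obtain ⟨K₂, h21, h22, h23, h24⟩ := exists_conn (F := Uᶜ) (A := B) (x := x)
      hU.isClosed_compl hB (by
        intro R hR hBR
        have hBR' : B ⊆ R := fun b hb => hBR ⟨hb, hBU hb⟩
        exact (hx ⟨(Vᶜ, R), ⟨hV.isClosed_compl, Subset.rfl, by simp⟩, hR, hAV, hBR'⟩).2)
    exact h x K₁ K₂ h11 h21 h12 h22 (disjoint_left.2 (fun y hy => h13 hy))
      (disjoint_left.2 (fun y hy => h23 hy)) h14 h24
  rw [not_nonempty_iff_eq_empty] at hPR
  have hPRd : Disjoint P R := disjoint_iff_inter_eq_empty.2 hPR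
  -- first open set
  obtain ⟨O₀, hO₀, hPO₀, hcl₀⟩ := normal_exists_closure_subset hP.1
    ((hP.2.2.union hR.1).isOpen_compl) (by
      intro y hy
      simp only [mem_compl_iff, mem_union, mem_diff, not_or, not_and, not_not]
      exact ⟨fun _ => hy, fun hyR => disjoint_left.1 hPRd hy hyR⟩)
  obtain ⟨O₁, hO₁, hRO₁, hcl₁⟩ := normal_exists_closure_subset hR.1
    ((hR.2.2.union (isClosed_closure (s := O₀))).isOpen_compl) (by
      intro y hy
      simp only [mem_compl_iff, mem_union, mem_diff, not_or, not_and, not_not]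
      exact ⟨fun _ => hy, fun hyc => hcl₀ hyc (Or.inr hy)⟩)
  refine ⟨closure O₀, closure (closure O₀ ∪ closure O₁)ᶜ, closure O₁, isClosed_closure,
    isClosed_closure, isClosed_closure, ?_, ?_, ?_, ?_, ?_, ?_⟩
  · rw [eq_univ_iff_forall]
    intro y
    by_cases hy : y ∈ closure O₀ ∪ closure O₁
    · rcases hy with hy | hy
      · exact Or.inl (Or.inl hy)
      · exact Or.inr hy
    · exact Or.inl (Or.inr (subset_closure hy))
  · exact hAP.trans (hPO₀.trans subset_closure)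
  · exact hBR.trans (hRO₁.trans subset_closure)
  · rw [disjoint_left]
    intro y hy0 hy1
    exact hcl₁ hy1 (Or.inr hy0)
  · rintro y ⟨hy0, hyM⟩
    by_contra hyV
    have hyP : y ∈ P := by
      by_contra hyP
      exact hcl₀ hy0 (Or.inl ⟨hyV, hyP⟩)
    rw [mem_closure_iff] at hyM
    obtain ⟨w, hw1, hw2⟩ := hyM O₀ hO₀ (hPO₀ hyP)
    exact hw2 (Or.inl (subset_closure hw1))
  · rintro y ⟨hyM, hy1⟩
    by_contra hyU
    have hyR : y ∈ R := by
      by_contra hyR
      exact hcl₁ hy1 (Or.inl ⟨hyU, hyR⟩)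
    rw [mem_closure_iff] at hyM
    obtain ⟨w, hw1, hw2⟩ := hyM O₁ hO₁ (hRO₁ hyR)
    exact hw2 (Or.inr (subset_closure hw1))

end sep

theorem km_fin {X : ℕ → Type} [∀ n, TopologicalSpace (X n)] [∀ n, CompactSpace (X n)]
    [∀ n, T2Space (X n)] (P : ∀ n, C(X (n + 1), X n))
    (hHI : ∀ A B : Set (∀ n, X n), A ⊆ lim P → B ⊆ lim P → IsCompact A → IsConnected A →
      IsCompact B → IsConnected B → (A ∩ B).Nonempty → A ⊆ B ∨ B ⊆ A)
    (n : ℕ) (A B U V : Set (X n)) (hA : IsClosed A) (hB : IsClosed B) (hU : IsOpen U)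
    (hV : IsOpen V) (hAU : A ⊆ U) (hBV : B ⊆ V) (hUV : Disjoint U V) :
    ∃ (d : ℕ) (X₀ XM X₁ : Set (X (n + d))), IsClosed X₀ ∧ IsClosed XM ∧ IsClosed X₁ ∧
      X₀ ∪ XM ∪ X₁ = univ ∧ bond P n d ⁻¹' A ⊆ X₀ ∧ bond P n d ⁻¹' B ⊆ X₁ ∧ Disjoint X₀ X₁ ∧
      X₀ ∩ XM ⊆ bond P n d ⁻¹' V ∧ XM ∩ X₁ ⊆ bond P n d ⁻¹' U := by
  obtain ⟨d, hd⟩ := exists_stage P hHI n A B U V hA hB hU hV hAU hBV
  have hc : Continuous (bond P n d) := (bond P n d).continuous
  exact ⟨d, exists_sep _ _ _ _ (hA.preimage hc) (hB.preimage hc) (hU.preimage hc)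
    (hV.preimage hc) (preimage_mono hAU) (preimage_mono hBV) (hUV.preimage _) hd⟩

end Pool.Agent.Lib_MP_1dc66a_gt
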