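import Pool.Agent.Lib_MP_1dc66a_gt.Step
import Pool.Agent.Lib_MP_1dc66a_gt.FoldKm
import Pool.Agent.Lib_MP_1dc66a_gt.Km

/-!
Towers of folds and the null-homotopy theorem.
-/

set_option autoImplicit false

open Set Topology Filter

namespace Pool.Agent.Lib_MP_1dc66a_gt

theorem LC.comap {X Y S : Type} [TopologicalSpace X] [TopologicalSpace Y] {f : X → S} {U : Set X}
    (h : LC f U) (φ : C(Y, X)) : LC (fun y => f (φ y)) (φ ⁻¹' U) := by
  intro y hy
  exact (φ.continuous.continuousAt (x := y)).eventually (h (φ y) hy)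

/-- Pull back fold data. -/
def Fold.comap {X Y : Type} [TopologicalSpace X] [TopologicalSpace Y] {k : ℕ}
    {g : X → Fin (k + 2) → ℝ} (D : Fold X k g) (φ : C(Y, X)) : Fold Y k (fun y => g (φ y)) where
  w := fun y => D.w (φ y)
  w_cont := fun j => (D.w_cont j).comp φ.continuous
  w_nonneg := fun y j => D.w_nonneg (φ y) j
  w_sum := fun y => D.w_sum (φ y)
  U2 := φ ⁻¹' D.U2
  U2_open := D.U2_open.preimage φ.continuous
  U2_g := fun y hy => D.U2_g (φ y) hy
  s := fun y => D.s (φ y)
  s_cont := D.s_cont.comp φ.continuous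
  C_closed := D.C_closed.preimage φ.continuous
  flip := D.flip
  flip_fun := D.flip_fun
  flip_inj := D.flip_inj
  kind := fun j y => D.kind j (φ y)
  kp := fun j y => D.kp j (φ y)
  kind_LC := fun j => (D.kind_LC j).comap φ
  kp_LC := fun j => (D.kp_LC j).comap φ
  kind_ok := fun j y => D.kind_ok j (φ y)
  kp_pos := fun j y => D.kp_pos j (φ y)
  kp_neg := fun j y => D.kp_neg j (φ y)
  kp_dom := fun j y => D.kp_dom j (φ y)

/-- Iterated folds. -/
def Tower : (k : ℕ) → (X : Type) → [TopologicalSpace X] → (X → Fin (k + 1) → ℝ) → Prop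
  | 0, _, _, _ => True
  | k + 1, X, _, g => ∃ D : Fold X k g, Tower k X D.w

theorem Tower.comap {k : ℕ} : ∀ {X Y : Type} [TopologicalSpace X] [TopologicalSpace Y]
    {g : X → Fin (k + 1) → ℝ}, Tower k X g → ∀ φ : C(Y, X), Tower k Y (fun y => g (φ y)) := by
  induction k with
  | zero => intro X Y _ _ g _ φ; trivial
  | succ k ih =>
    rintro X Y _ _ g ⟨D, hD⟩ φ
    exact ⟨D.comap φ, ih hD φ⟩

theorem typ_cont {V : Type} [Fintype V] {k : ℕ} (K : Cx V k) (i : Fin (k + 1)) :
    Continuous (fun x : V → ℝ => K.typ x i) := by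
  unfold Cx.typ
  refine continuous_finsetSum _ fun v _ => ?_
  split_ifs
  · exact continuous_apply v
  · exact continuous_const

theorem typ_nonneg {V : Type} [Fintype V] {k : ℕ} (K : Cx V k) {x : V → ℝ} (hx : x ∈ K.real)
    (i : Fin (k + 1)) : 0 ≤ K.typ x i := by
  unfold Cx.typ
  refine Finset.sum_nonneg fun v _ => ?_
  split_ifs
  · exact hx.1 v
  · exact le_rfl

theorem typ_sum {V : Type} [Fintype V] {k : ℕ} (K : Cx V k) {x : V → ℝ} (hx : x ∈ K.real) :
    ∑ i, K.typ x i = 1 := by
  unfold Cx.typ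
  rw [Finset.sum_comm]
  simp only [Finset.sum_ite_eq, Finset.mem_univ, if_true]
  exact hx.2.1

/-- Base case: maps from a connected space to a zero-dimensional complex are constant. -/
theorem base_const {M : Type} [TopologicalSpace M] [ConnectedSpace M] {V : Type} [Fintype V]
    (K : Cx V 0) (u : C(M, K.real)) : ∃ c, u.Homotopic (ContinuousMap.const M c) := by
  classical
  obtain ⟨m₀⟩ := (inferInstance : Nonempty M)
  refine ⟨u m₀, ?_⟩
  have hval : ∀ m v, (u m).1 v = 0 ∨ (u m).1 v = 1 := by
    intro m v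
    by_cases h : (u m).1 v = 0
    · exact Or.inl h
    · right
      have hu := (u m).2
      have hz : ∀ w, w ≠ v → (u m).1 w = 0 := by
        intro w hw
        by_contra hcon
        exact hw (K.inj _ hu.2.2 w hcon v h (Fin.ext (by omega)))
      have := hu.2.1
      rwa [Finset.sum_eq_single v (fun w _ hw => hz w hw)
        (fun h => absurd (Finset.mem_univ v) h)] at this
  have hconst : ∀ m, u m = u m₀ := by
    intro m
    refine Subtype.ext (funext fun v => ?_)
    have hc : Continuous (fun m => (u m).1 v) :=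
      (continuous_apply v).comp (continuous_subtype_val.comp u.continuous)
    have hpre : IsPreconnected (range fun m => (u m).1 v) := isPreconnected_range hc
    have hhalf : (1 / 2 : ℝ) ∉ (range fun m => (u m).1 v) := by
      rintro ⟨m', hm'⟩
      have hm'' : (u m').1 v = 1 / 2 := hm'
      rcases hval m' v with h | h
      · rw [h] at hm''; norm_num at hm''
      · rw [h] at hm''; norm_num at hm''
    rcases hval m v with h | h
    · rcases hval m₀ v with h' | h'
      · rw [h, h']
      · exact absurd (hpre.Icc_subset ⟨m, h⟩ ⟨m₀, h'⟩ ⟨by norm_num, by norm_num⟩) hhalf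
    · rcases hval m₀ v with h' | h'
      · exact absurd (hpre.Icc_subset ⟨m₀, h'⟩ ⟨m, h⟩ ⟨by norm_num, by norm_num⟩) hhalf
      · rw [h, h']
  have : u = ContinuousMap.const M (u m₀) := by
    ext1 m
    exact hconst m
  rw [← this]

theorem null_of_tower {M : Type} [TopologicalSpace M] [CompactSpace M] [ConnectedSpace M]
    (hSC : SC M) (k : ℕ) : ∀ {V : Type} [Fintype V] (K : Cx V k) (u : C(M, K.real)),
    Tower k M (fun m => K.typ (u m).1) → ∃ c, u.Homotopic (ContinuousMap.const M c) := by
  induction k with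
  | zero => intro V _ K u _; exact base_const K u
  | succ k ih =>
    rintro V _ K u ⟨D, hD⟩
    obtain ⟨V', _, K', u', θ, h1, h2⟩ := step hSC K u D
    have h3 : (fun m => K'.typ (u' m).1) = D.w := funext h1
    obtain ⟨c, hc⟩ := ih K' u' (by rw [h3]; exact hD)
    refine ⟨θ c, h2.trans ?_⟩
    exact (ContinuousMap.Homotopic.refl θ).comp hc

/-- Towers exist at a later stage of a hereditarily indecomposable inverse sequence. -/
theorem exists_tower {X : ℕ → Type} [∀ n, TopologicalSpace (X n)] [∀ n, CompactSpace (X n)]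
    [∀ n, T2Space (X n)] (P : ∀ n, C(X (n + 1), X n))
    (hHI : ∀ A B : Set (∀ n, X n), A ⊆ lim P → B ⊆ lim P → IsCompact A → IsConnected A →
      IsCompact B → IsConnected B → (A ∩ B).Nonempty → A ⊆ B ∨ B ⊆ A)
    {M : Type} [TopologicalSpace M] (F : ∀ n, C(M, X n))
    (hF : ∀ n, (F n).Homotopic ((P n).comp (F (n + 1)))) (k : ℕ) :
    ∀ (n : ℕ) (g : X n → Fin (k + 1) → ℝ), (∀ i, Continuous (fun x => g x i)) →
      (∀ x i, 0 ≤ g x i) → (∀ x, ∑ i, g x i = 1) →
      ∃ (N : ℕ) (φ : C(X N, X n)), (F n).Homotopic (φ.comp (F N)) ∧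
        Tower k (X N) (fun x => g (φ x)) := by
  have hbond : ∀ n d, (F n).Homotopic ((bond P n d).comp (F (n + d))) := by
    intro n d
    induction d with
    | zero => exact ContinuousMap.Homotopic.refl _
    | succ d ih =>
      refine ih.trans ?_
      exact (ContinuousMap.Homotopic.refl (bond P n d)).comp (hF (n + d))
  induction k with
  | zero =>
    intro n g _ _ _
    exact ⟨n, ContinuousMap.id _, ContinuousMap.Homotopic.refl _, trivial⟩
  | succ k ih =>
    intro n g hg hg0 hg1
    have hFFc : ∀ j, Continuous (fun x => FF (g x) j) := by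
      intro j
      unfold FF
      exact continuous_const.mul ((hg _).sub (hg _))
    have hTc : Continuous (fun x => TT (g x)) := hFFc 0
    have hNc : Continuous (fun x => NN (g x)) := by
      unfold NN
      exact continuous_finsetSum _ fun j _ => (hFFc j.succ).abs
    obtain ⟨d, X₀, XM, X₁, h₀, hM, h₁, hcov, hA, hB, hdis, h0M, hM1⟩ := km_fin P hHI n
      (setA (fun x => TT (g x)) (fun x => NN (g x))) (setB (fun x => TT (g x)) (fun x => NN (g x)))
      (setU (fun x => TT (g x)) (fun x => NN (g x))) (setV (fun x => TT (g x)) (fun x => NN (g x)))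
      (setA_closed _ _ hTc hNc) (setB_closed _ _ hTc hNc) (setU_open _ _ hTc hNc)
      (setV_open _ _ hTc hNc) (setA_sub _ _) (setB_sub _ _) (setUV _ _)
    obtain ⟨D⟩ := fold_of_km (fun x => g (bond P n d x))
      (fun i => (hg i).comp (bond P n d).continuous) (fun x i => hg0 _ i) (fun x => hg1 _)
      X₀ XM X₁ h₀ hM h₁ hcov hA hB hdis h0M hM1
    obtain ⟨N, φ, h3, h4⟩ := ih (n + d) D.w D.w_cont D.w_nonneg D.w_sum
    refine ⟨N, (bond P n d).comp φ, ?_, D.comap φ, h4⟩
    refine (hbond n d).trans ?_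
    exact (ContinuousMap.Homotopic.refl (bond P n d)).comp h3

end Pool.Agent.Lib_MP_1dc66a_gt
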