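import Pool.Agent.Lib_MP_1dc66a_gt.Basic

/-!
A finite union of compact convex sets is dominated by a finite coloured complex
(the barycentric subdivision of the nerve).
-/

set_option autoImplicit false
set_option linter.unusedSectionVars false

open Set Topology

namespace Pool.Agent.Lib_MP_1dc66a_gt

namespace NerveDom

variable {E : Type} [NormedAddCommGroup E] [NormedSpace ℝ E] {ι : Type} [Fintype ι]
  [DecidableEq ι]

/-- Truncated distance weights. -/
noncomputable def wt (C : ι → Set E) (ε : ℝ) (i : ι) (y : E) : ℝ :=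
  max 0 (ε - Metric.infDist y (C i))

/-- Unnormalised barycentric weights of the barycentric subdivision of the nerve. -/
noncomputable def al (C : ι → Set E) (ε : ℝ) (I : Finset ι) (y : E) : ℝ :=
  if I.Nonempty then
    (∏ i ∈ I, wt C ε i y) * ∏ i ∈ I, ∏ j ∈ Iᶜ, max 0 (wt C ε i y - wt C ε j y)
  else 0

/-- The barycentric subdivision of the nerve. -/
def cx (C : ι → Set E) : Cx (Finset ι) (Fintype.card ι) where
  faces := {s | (∀ I ∈ s, I.Nonempty ∧ (⋂ i ∈ I, C i).Nonempty) ∧ ∀ I ∈ s, ∀ J ∈ s, I ⊆ J ∨ J ⊆ I}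
  down := fun _ hs _ ht => ⟨fun I hI => hs.1 I (ht hI), fun I hI J hJ => hs.2 I (ht hI) J (ht hJ)⟩
  col := fun I => ⟨I.card, Nat.lt_succ_of_le (Finset.card_le_univ I)⟩
  inj := by
    intro s hs I hI J hJ h
    have hc : I.card = J.card := by simpa using h
    rcases hs.2 I hI J hJ with h1 | h1
    · exact Finset.eq_of_subset_of_card_le h1 hc.ge
    · exact (Finset.eq_of_subset_of_card_le h1 hc.le).symm

lemma wt_nonneg (C : ι → Set E) (ε : ℝ) (i : ι) (y : E) : 0 ≤ wt C ε i y := le_max_left _ _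

lemma wt_le (C : ι → Set E) {ε : ℝ} (hε : 0 < ε) (i : ι) (y : E) : wt C ε i y ≤ ε := by
  unfold wt
  have := Metric.infDist_nonneg (x := y) (s := C i)
  exact max_le hε.le (by linarith)

lemma wt_eq (C : ι → Set E) {ε : ℝ} (hε : 0 < ε) {i : ι} {y : E} (hy : y ∈ C i) :
    wt C ε i y = ε := by
  unfold wt
  rw [Metric.infDist_zero_of_mem hy, sub_zero, max_eq_right hε.le]

lemma wt_pos {C : ι → Set E} {ε : ℝ} {i : ι} {y : E} (h : 0 < wt C ε i y) :
    Metric.infDist y (C i) < ε := by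
  unfold wt at h
  rcases lt_max_iff.1 h with h | h
  · exact absurd h (lt_irrefl _)
  · linarith

lemma continuous_wt (C : ι → Set E) (ε : ℝ) (i : ι) : Continuous (wt C ε i) := by
  unfold wt
  exact continuous_const.max (continuous_const.sub (Metric.continuous_infDist_pt _))

lemma al_nonneg (C : ι → Set E) (ε : ℝ) (I : Finset ι) (y : E) : 0 ≤ al C ε I y := by
  unfold al
  split_ifs
  · refine mul_nonneg (Finset.prod_nonneg fun i _ => wt_nonneg C ε i y) ?_
    exact Finset.prod_nonneg fun i _ => Finset.prod_nonneg fun j _ => le_max_left _ _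
  · exact le_rfl

lemma continuous_al (C : ι → Set E) (ε : ℝ) (I : Finset ι) : Continuous (al C ε I) := by
  unfold al
  split_ifs
  · refine Continuous.mul (continuous_finsetProd _ fun i _ => continuous_wt C ε i) ?_
    refine continuous_finsetProd _ fun i _ => continuous_finsetProd _ fun j _ => ?_
    exact continuous_const.max ((continuous_wt C ε i).sub (continuous_wt C ε j))
  · exact continuous_const

lemma al_ne {C : ι → Set E} {ε : ℝ} {I : Finset ι} {y : E} (h : al C ε I y ≠ 0) :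
    I.Nonempty ∧ (∀ i ∈ I, 0 < wt C ε i y) ∧ ∀ i ∈ I, ∀ j, j ∉ I → wt C ε j y < wt C ε i y := by
  unfold al at h
  split_ifs at h with hI
  · refine ⟨hI, ?_, ?_⟩
    · intro i hi
      have := Finset.prod_ne_zero_iff.1 (left_ne_zero_of_mul h) i hi
      exact lt_of_le_of_ne (wt_nonneg C ε i y) (Ne.symm this)
    · intro i hi j hj
      have h1 := Finset.prod_ne_zero_iff.1 (right_ne_zero_of_mul h) i hi
      have h2 := Finset.prod_ne_zero_iff.1 h1 j (Finset.mem_compl.2 hj)
      by_contra h3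
      exact h2 (max_eq_left (by linarith [not_lt.1 h3]))
  · exact absurd rfl h

lemma al_pos {C : ι → Set E} {ε : ℝ} {I : Finset ι} {y : E} (hI : I.Nonempty)
    (h1 : ∀ i ∈ I, 0 < wt C ε i y) (h2 : ∀ i ∈ I, ∀ j, j ∉ I → wt C ε j y < wt C ε i y) :
    0 < al C ε I y := by
  unfold al
  rw [if_pos hI]
  refine mul_pos (Finset.prod_pos h1) ?_
  refine Finset.prod_pos fun i hi => Finset.prod_pos fun j hj => ?_
  exact lt_max_of_lt_right (by linarith [h2 i hi j (Finset.mem_compl.1 hj)])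

/-- the total weight -/
noncomputable def tot (C : ι → Set E) (ε : ℝ) (y : E) : ℝ := ∑ I, al C ε I y

lemma tot_pos {C : ι → Set E} {ε : ℝ} (hε : 0 < ε) {y : E} (hy : y ∈ ⋃ i, C i) :
    0 < tot C ε y := by
  obtain ⟨i₀, hi₀⟩ := mem_iUnion.1 hy
  set I : Finset ι := Finset.univ.filter fun i => wt C ε i y = ε with hIdef
  have hmem : ∀ i, i ∈ I ↔ wt C ε i y = ε := by intro i; simp [hIdef]
  have hpos : 0 < al C ε I y := by
    refine al_pos ⟨i₀, (hmem _).2 (wt_eq C hε hi₀)⟩ ?_ ?_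
    · intro i hi
      rw [(hmem i).1 hi]; exact hε
    · intro i hi j hj
      rw [(hmem i).1 hi]
      exact lt_of_le_of_ne (wt_le C hε j y) (fun h => hj ((hmem j).2 h))
  exact lt_of_lt_of_le hpos
    (Finset.single_le_sum (f := fun I => al C ε I y) (fun J _ => al_nonneg C ε J y)
      (Finset.mem_univ I))

lemma continuous_tot (C : ι → Set E) (ε : ℝ) : Continuous (tot C ε) :=
  continuous_finsetSum _ fun I _ => continuous_al C ε I

/-- the Lebesgue-type number -/
lemma exists_eps (C : ι → Set E) (hc : ∀ i, IsCompact (C i)) (hne : ∀ i, (C i).Nonempty) :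
    ∃ ε : ℝ, 0 < ε ∧ ∀ y ∈ ⋃ i, C i, ∀ I : Finset ι, I.Nonempty →
      (∀ i ∈ I, Metric.infDist y (C i) < ε) → (⋂ i ∈ I, C i).Nonempty := by
  have hY : IsCompact (⋃ i, C i) := isCompact_iUnion hc
  rcases (⋃ i, C i).eq_empty_or_nonempty with he | hYne
  · refine ⟨1, one_pos, ?_⟩
    intro y hy
    rw [he] at hy
    exact absurd hy (notMem_empty y)
  -- for each bad `I` a positive lower bound
  have key : ∀ I : Finset ι, ∃ δ : ℝ, 0 < δ ∧ (I.Nonempty → ¬ (⋂ i ∈ I, C i).Nonempty →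
      ∀ y ∈ ⋃ i, C i, δ ≤ ∑ i ∈ I, Metric.infDist y (C i)) := by
    intro I
    by_cases hI : I.Nonempty ∧ ¬ (⋂ i ∈ I, C i).Nonempty
    · obtain ⟨y₀, hy₀, hmin⟩ := hY.exists_isMinOn hYne
        (f := fun y => ∑ i ∈ I, Metric.infDist y (C i))
        (continuous_finsetSum _ fun i _ => Metric.continuous_infDist_pt _).continuousOn
      have hnn : ∀ y : E, ∀ i ∈ I, 0 ≤ Metric.infDist y (C i) :=
        fun y i _ => Metric.infDist_nonneg
      refine ⟨∑ i ∈ I, Metric.infDist y₀ (C i), ?_, fun _ _ y hy => hmin hy⟩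
      refine lt_of_le_of_ne (Finset.sum_nonneg (hnn y₀)) ?_
      intro h
      apply hI.2
      refine ⟨y₀, mem_iInter₂.2 fun i hi => ?_⟩
      have h0 := (Finset.sum_eq_zero_iff_of_nonneg (hnn y₀)).1 h.symm i hi
      exact ((hc i).isClosed.mem_iff_infDist_zero (hne i)).2 h0
    · refine ⟨1, one_pos, fun h1 h2 => absurd ⟨h1, h2⟩ hI⟩
  choose δ hδ hδ' using key
  obtain ⟨y₁, hy₁⟩ := hYne
  obtain ⟨i₁, _⟩ := mem_iUnion.1 hy₁
  have huniv : (Finset.univ : Finset (Finset ι)).Nonempty := Finset.univ_nonempty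
  obtain ⟨I₀, _, hI₀⟩ := Finset.exists_min_image Finset.univ δ huniv
  have hcard : (0 : ℝ) < Fintype.card ι := by
    exact_mod_cast Fintype.card_pos_iff.2 ⟨i₁⟩
  refine ⟨δ I₀ / Fintype.card ι, div_pos (hδ I₀) hcard, ?_⟩
  intro y hy I hI hlt
  by_contra hcon
  have h1 := hδ' I hI hcon y hy
  have h2 : ∑ i ∈ I, Metric.infDist y (C i) < ∑ i ∈ I, δ I₀ / (Fintype.card ι : ℝ) :=
    Finset.sum_lt_sum_of_nonempty hI hlt
  rw [Finset.sum_const, nsmul_eq_mul] at h2
  have h3 : (I.card : ℝ) ≤ Fintype.card ι := by exact_mod_cast Finset.card_le_univ I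
  have h4 : (I.card : ℝ) * (δ I₀ / Fintype.card ι) ≤ δ I₀ := by
    rw [mul_div_assoc', div_le_iff₀ hcard, mul_comm]
    exact mul_le_mul_of_nonneg_left h3 (hδ I₀).le
  have h5 := hI₀ I (Finset.mem_univ I)
  linarith

/-- the map to the complex -/
noncomputable def uFun (C : ι → Set E) (ε : ℝ) (y : E) (I : Finset ι) : ℝ :=
  al C ε I y / tot C ε y

lemma uFun_mem {C : ι → Set E} {ε : ℝ} (hε : 0 < ε)
    (hC : ∀ y ∈ ⋃ i, C i, ∀ I : Finset ι, I.Nonempty →
      (∀ i ∈ I, Metric.infDist y (C i) < ε) → (⋂ i ∈ I, C i).Nonempty)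
    {y : E} (hy : y ∈ ⋃ i, C i) : uFun C ε y ∈ (cx C).real := by
  have ht := tot_pos hε hy
  refine ⟨fun I => div_nonneg (al_nonneg C ε I y) ht.le, ?_, ?_⟩
  · unfold uFun
    rw [← Finset.sum_div]
    exact div_self ht.ne'
  · have hne : ∀ I : Finset ι, uFun C ε y I ≠ 0 → al C ε I y ≠ 0 := by
      intro I h h'
      exact h (by rw [uFun, h', zero_div])
    refine ⟨?_, ?_⟩
    · intro I hI
      have h := al_ne (hne I hI)
      exact ⟨h.1, hC y hy I h.1 fun i hi => wt_pos (h.2.1 i hi)⟩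
    · intro I hI J hJ
      have h1 := al_ne (hne I hI)
      have h2 := al_ne (hne J hJ)
      by_contra hcon
      rw [not_or] at hcon
      obtain ⟨i, hi, hi'⟩ := Finset.not_subset.1 hcon.1
      obtain ⟨j, hj, hj'⟩ := Finset.not_subset.1 hcon.2
      have a := h1.2.2 i hi j hj'
      have b := h2.2.2 j hj i hi'
      linarith

/-- chosen points -/
noncomputable def pt (C : ι → Set E) (I : Finset ι) : E :=
  open Classical in
  if h : (⋂ i ∈ I, C i).Nonempty then h.some else 0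

lemma pt_mem {C : ι → Set E} {I : Finset ι} (h : (⋂ i ∈ I, C i).Nonempty) {i : ι} (hi : i ∈ I) :
    pt C I ∈ C i := by
  unfold pt
  rw [dif_pos h]
  exact mem_iInter₂.1 h.some_mem i hi

/-- the map back -/
noncomputable def psi (C : ι → Set E) (x : Finset ι → ℝ) : E := ∑ I, x I • pt C I

lemma continuous_psi (C : ι → Set E) : Continuous (psi C) := by
  unfold psi
  exact continuous_finsetSum _ fun I _ => (continuous_apply I).smul continuous_const

lemma psi_mem {C : ι → Set E} (hcv : ∀ i, Convex ℝ (C i)) {x : Finset ι → ℝ}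
    (hx : x ∈ (cx C).real) {i : ι} (hi : ∀ I, x I ≠ 0 → i ∈ I) : psi C x ∈ C i := by
  classical
  obtain ⟨h0, h1, h2⟩ := hx
  unfold psi
  rw [← Finset.sum_filter_of_ne (p := fun I => x I ≠ 0)
    (fun I _ h h' => h (by rw [h', zero_smul]))]
  refine (hcv i).sum_mem (fun I _ => h0 I) ?_ ?_
  · rw [Finset.sum_filter_of_ne (fun I _ h => h)]
    exact h1
  · intro I hI
    have hI' : x I ≠ 0 := (Finset.mem_filter.1 hI).2
    exact pt_mem (h2.1 I hI').2 (hi I hI')

lemma exists_common {C : ι → Set E} {x : Finset ι → ℝ}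
    (hx : x ∈ (cx C).real) : ∃ i : ι, ∀ I, x I ≠ 0 → i ∈ I := by
  classical
  obtain ⟨h0, h1, h2⟩ := hx
  have hne : (Finset.univ.filter fun I : Finset ι => x I ≠ 0).Nonempty := by
    by_contra hcon
    rw [Finset.not_nonempty_iff_eq_empty, Finset.filter_eq_empty_iff] at hcon
    have : ∑ I, x I = 0 := Finset.sum_eq_zero fun I hI => by
      have := hcon hI
      exact not_not.1 this
    rw [this] at h1
    exact zero_ne_one h1
  obtain ⟨I₀, hI₀, hmin⟩ := Finset.exists_min_image _ Finset.card hne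
  have hI₀' : x I₀ ≠ 0 := (Finset.mem_filter.1 hI₀).2
  obtain ⟨i, hi⟩ := (h2.1 I₀ hI₀').1
  refine ⟨i, fun I hI => ?_⟩
  have hle := hmin I (Finset.mem_filter.2 ⟨Finset.mem_univ _, hI⟩)
  rcases h2.2 I₀ hI₀' I hI with h | h
  · exact h hi
  · rw [Finset.eq_of_subset_of_card_le h hle]
    exact hi

theorem main (C : ι → Set E) (hc : ∀ i, IsCompact (C i)) (hne : ∀ i, (C i).Nonempty)
    (hcv : ∀ i, Convex ℝ (C i)) :
    ∃ (u : C(↥(⋃ i, C i), (cx C).real)) (ψ : C((cx C).real, ↥(⋃ i, C i))),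
      (ψ.comp u).Homotopic (ContinuousMap.id ↥(⋃ i, C i)) := by
  obtain ⟨ε, hε, hC⟩ := exists_eps C hc hne
  have hcu : Continuous fun y : ↥(⋃ i, C i) => uFun C ε (y : E) := by
    refine continuous_pi fun I => ?_
    unfold uFun
    refine Continuous.div ((continuous_al C ε I).comp continuous_subtype_val)
      ((continuous_tot C ε).comp continuous_subtype_val) ?_
    intro y
    exact (tot_pos hε y.2).ne'
  let u : C(↥(⋃ i, C i), (cx C).real) :=
    ⟨fun y => ⟨uFun C ε y, uFun_mem hε hC y.2⟩, hcu.subtype_mk _⟩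
  have hpm : ∀ x : (cx C).real, psi C x ∈ ⋃ i, C i := by
    intro x
    obtain ⟨i, hi⟩ := exists_common x.2
    exact mem_iUnion.2 ⟨i, psi_mem hcv x.2 hi⟩
  let ψ : C((cx C).real, ↥(⋃ i, C i)) :=
    ⟨fun x => ⟨psi C x, hpm x⟩, ((continuous_psi C).comp continuous_subtype_val).subtype_mk _⟩
  refine ⟨u, ψ, ⟨?_⟩⟩
  have hseg : ∀ (s : unitInterval) (y : ↥(⋃ i, C i)),
      (1 - (s : ℝ)) • psi C (uFun C ε y) + (s : ℝ) • (y : E) ∈ ⋃ i, C i := by
    intro s y
    obtain ⟨i, hi⟩ := mem_iUnion.1 y.2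
    refine mem_iUnion.2 ⟨i, ?_⟩
    refine (hcv i) ?_ hi (by linarith [s.2.2]) s.2.1 (by ring)
    refine psi_mem hcv (uFun_mem hε hC y.2) ?_
    intro I hI
    have hal : al C ε I (y : E) ≠ 0 := by
      intro h'
      exact hI (by rw [uFun, h', zero_div])
    have h := al_ne hal
    by_contra hcon
    obtain ⟨j, hj⟩ := h.1
    have h3 := h.2.2 j hj i hcon
    rw [wt_eq C hε hi] at h3
    exact absurd (wt_le C hε j (y : E)) (not_le.2 h3)
  refine ⟨⟨fun p => ⟨(1 - (p.1 : ℝ)) • psi C (uFun C ε p.2) + (p.1 : ℝ) • (p.2 : E),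
    hseg p.1 p.2⟩, ?_⟩, ?_, ?_⟩
  · refine Continuous.subtype_mk ?_ _
    have h1 : Continuous fun p : unitInterval × ↥(⋃ i, C i) => ((p.1 : unitInterval) : ℝ) :=
      continuous_subtype_val.comp continuous_fst
    have h2 : Continuous fun p : unitInterval × ↥(⋃ i, C i) => ((p.2 : ↥(⋃ i, C i)) : E) :=
      continuous_subtype_val.comp continuous_snd
    have h3 : Continuous fun p : unitInterval × ↥(⋃ i, C i) => psi C (uFun C ε p.2) :=
      (continuous_psi C).comp (hcu.comp continuous_snd)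
    exact ((continuous_const.sub h1).smul h3).add (h1.smul h2)
  · intro y
    apply Subtype.ext
    simp [u, ψ]
  · intro y
    apply Subtype.ext
    simp

end NerveDom

theorem nerve_dom {E : Type} [NormedAddCommGroup E] [NormedSpace ℝ E] (Y : Set E)
    (hY : ∃ T : Finset (Finset E), Y = ⋃ t ∈ T, convexHull ℝ (t : Set E)) :
    ∃ (k : ℕ) (V : Type) (_ : Fintype V) (K : Cx V k) (u : C(Y, K.real)) (ψ : C(K.real, Y)),
      (ψ.comp u).Homotopic (ContinuousMap.id Y) := by
  classical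
  obtain ⟨T, hT⟩ := hY
  let T' : Finset (Finset E) := T.filter fun t => t.Nonempty
  let C : ↥T' → Set E := fun i => convexHull ℝ ((i : Finset E) : Set E)
  have hYC : Y = ⋃ i, C i := by
    rw [hT]
    ext y
    simp only [mem_iUnion]
    constructor
    · rintro ⟨t, ht, hy⟩
      have htne : t.Nonempty := by
        by_contra hcon
        rw [Finset.not_nonempty_iff_eq_empty] at hcon
        rw [hcon, Finset.coe_empty, convexHull_empty] at hy
        exact hy
      exact ⟨⟨t, Finset.mem_filter.2 ⟨ht, htne⟩⟩, hy⟩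
    · rintro ⟨i, hi⟩
      exact ⟨i, (Finset.mem_filter.1 i.2).1, hi⟩
  subst hYC
  obtain ⟨u, ψ, h⟩ := NerveDom.main C
    (fun i => (i : Finset E).finite_toSet.isCompact_convexHull (𝕜 := ℝ))
    (fun i => (convexHull_nonempty_iff (𝕜 := ℝ)).2 (by exact_mod_cast (Finset.mem_filter.1 i.2).2))
    (fun i => convex_convexHull ℝ _)
  exact ⟨_, Finset ↥T', inferInstance, NerveDom.cx C, u, ψ, h⟩

end Pool.Agent.Lib_MP_1dc66a_gt
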