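import Pool.Agent.Lib_MP_1dc66a_gt.Basic

set_option autoImplicit false

open Set Topology Bundle

namespace Pool.Agent.Lib_MP_1dc66a_gt

/-- A function that is locally constant on a set is continuous on it, for the discrete topology. -/
theorem LC.continuousOn {M : Type} [TopologicalSpace M] {S : Type} [TopologicalSpace S]
    {f : M → S} {U : Set M} (h : LC f U) : ContinuousOn f U := by
  intro x hx
  have h1 := h x hx
  have : ContinuousAt f x := by
    have h2 : f =ᶠ[𝓝 x] fun _ => f x := h1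
    exact (continuousAt_const (x := x) (y := f x)).congr h2.symm
  exact this.continuousWithinAt

theorem LC.of_continuousOn {M : Type} [TopologicalSpace M] {S : Type} [TopologicalSpace S]
    [DiscreteTopology S] {f : M → S} {U : Set M} (hU : IsOpen U) (h : ContinuousOn f U) :
    LC f U := by
  intro x hx
  have h1 : ContinuousAt f x := (h x hx).continuousAt (hU.mem_nhds hx)
  have h2 : {f x} ∈ 𝓝 (f x) := (isOpen_discrete {f x}).mem_nhds rfl
  exact h1 h2

/-- The covering space attached to a discrete cocycle on a two-set cover. -/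
noncomputable def core {M : Type} [TopologicalSpace M] {G : Type} [Group G] [TopologicalSpace G]
    [DiscreteTopology G] (U₁ U₂ : Set M) (h : M → G) (hU₁ : IsOpen U₁) (hU₂ : IsOpen U₂)
    (hU : U₁ ∪ U₂ = univ) (hh : LC h (U₁ ∩ U₂)) : FiberBundleCore Bool M G where
  baseSet i := if i then U₁ else U₂
  isOpen_baseSet i := by cases i <;> simpa
  indexAt x := by
    classical
    exact if x ∈ U₁ then true else false
  mem_baseSet_at x := by
    classical
    by_cases hx : x ∈ U₁
    · simp [hx]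
    · have : x ∈ U₁ ∪ U₂ := hU ▸ mem_univ x
      simp [hx]
      exact this.resolve_left hx
  coordChange i j x g :=
    match i, j with
    | true, true => g
    | false, false => g
    | false, true => h x * g
    | true, false => (h x)⁻¹ * g
  coordChange_self i x hx v := by cases i <;> rfl
  continuousOn_coordChange i j := by
    have hc : ContinuousOn h (U₁ ∩ U₂) := hh.continuousOn
    have hm : Continuous (fun p : G × G => p.1 * p.2) := continuous_of_discreteTopology
    have hm' : Continuous (fun p : G × G => p.1⁻¹ * p.2) := continuous_of_discreteTopology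
    have hfst : ContinuousOn (fun p : M × G => h p.1) ((U₁ ∩ U₂) ×ˢ univ) :=
      hc.comp continuous_fst.continuousOn (fun p hp => hp.1)
    cases i <;> cases j
    · exact continuous_snd.continuousOn
    · have : ContinuousOn (fun p : M × G => h p.1 * p.2) ((U₁ ∩ U₂) ×ˢ univ) :=
        hm.comp_continuousOn (hfst.prodMk continuous_snd.continuousOn)
      refine this.mono ?_
      rintro ⟨x, g⟩ ⟨hx, _⟩
      simp at hx
      exact ⟨⟨hx.2, hx.1⟩, mem_univ _⟩
    · have : ContinuousOn (fun p : M × G => (h p.1)⁻¹ * p.2) ((U₁ ∩ U₂) ×ˢ univ) :=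
        hm'.comp_continuousOn (hfst.prodMk continuous_snd.continuousOn)
      refine this.mono ?_
      rintro ⟨x, g⟩ ⟨hx, _⟩
      simp at hx
      exact ⟨⟨hx.1, hx.2⟩, mem_univ _⟩
    · exact continuous_snd.continuousOn
  coordChange_comp i j k x hx v := by
    cases i <;> cases j <;> cases k <;> simp

theorem sc_of_simplyConnected (M : Type) [TopologicalSpace M] [SimplyConnectedSpace M]
    [LocallyPathConnectedSpace M] : SC M := by
  classical
  intro G _ U₁ U₂ h hU₁ hU₂ hU hh
  let _ : TopologicalSpace G := ⊥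
  have : DiscreteTopology G := ⟨rfl⟩
  let Z := core U₁ U₂ h hU₁ hU₂ hU hh
  have hcov : IsCoveringMap (Z.proj) :=
    IsFiberBundle.isCoveringMap fun x => ⟨Z.localTrivAt x, Z.mem_localTrivAt_baseSet x⟩
  obtain ⟨a₀⟩ : Nonempty M := PathConnectedSpace.nonempty
  obtain ⟨F, ⟨-, hF⟩, -⟩ := hcov.existsUnique_continuousMap_lifts (ContinuousMap.id M) a₀
    (⟨a₀, (1 : G)⟩ : Z.TotalSpace) rfl
  have hproj : ∀ x, (F x).1 = x := fun x => congrFun hF x
  -- the sections in the two charts
  let f : Bool → M → G := fun i x => (Z.localTriv i (F x)).2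
  have hf : ∀ i x, f i x = Z.coordChange (Z.indexAt x) i x (F x).2 := by
    intro i x
    show (Z.localTriv i (F x)).2 = _
    rw [FiberBundleCore.localTriv_apply, hproj x]
  have hfc : ∀ i, ContinuousOn (f i) (Z.baseSet i) := by
    intro i
    have h1 : ContinuousOn (Z.localTriv i) (Z.localTriv i).source :=
      (Z.localTriv i).continuousOn
    have h2 : ContinuousOn (fun x => Z.localTriv i (F x)) (Z.baseSet i) := by
      refine h1.comp F.continuous.continuousOn ?_
      intro x hx
      rw [FiberBundleCore.mem_localTriv_source, hproj x]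
      exact hx
    exact continuous_snd.comp_continuousOn h2
  refine ⟨f true, f false, ?_, ?_, ?_⟩
  · exact LC.of_continuousOn hU₁ (hfc true)
  · exact LC.of_continuousOn hU₂ (hfc false)
  · intro x hx
    have hbase : x ∈ Z.baseSet (Z.indexAt x) ∩ Z.baseSet false ∩ Z.baseSet true :=
      ⟨⟨Z.mem_baseSet_at x, hx.2⟩, hx.1⟩
    rw [hf, hf, ← Z.coordChange_comp (Z.indexAt x) false true x hbase]
    rfl


theorem LC.comp_cont {M N : Type} [TopologicalSpace M] [TopologicalSpace N] {S : Type}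
    {f : N → S} {V : Set N} (hf : LC f V) {u : M → N} {U : Set M}
    (hu : ∀ x ∈ U, ContinuousAt u x) (hUV : ∀ x ∈ U, u x ∈ V) : LC (fun x => f (u x)) U := by
  intro x hx
  exact (hu x hx) (hf (u x) (hUV x hx))

theorem sc_plane : SC (EuclideanSpace ℝ (Fin 2)) := sc_of_simplyConnected _

theorem sc_chart {M N : Type} [TopologicalSpace M] [TopologicalSpace N]
    (hN : SC N) (φ : OpenPartialHomeomorph M N)
    (ht : φ.target = univ) (G : Type) [Group G] (U₁ U₂ : Set M) (h : M → G)
    (hU₁ : IsOpen U₁) (hU₂ : IsOpen U₂) (hU : U₁ ∪ U₂ = univ) (hh : LC h (U₁ ∩ U₂)) :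
    ∃ f₁ f₂ : M → G, LC f₁ (U₁ ∩ φ.source) ∧ LC f₂ (U₂ ∩ φ.source) ∧
      ∀ x ∈ U₁ ∩ U₂ ∩ φ.source, f₁ x = h x * f₂ x := by
  have hsymm : Continuous φ.symm := by
    have := φ.continuousOn_symm
    rw [ht] at this
    exact continuousOn_univ.mp this
  obtain ⟨f₁, f₂, h1, h2, h3⟩ := hN G (φ.symm ⁻¹' U₁) (φ.symm ⁻¹' U₂) (fun y => h (φ.symm y))
    (hU₁.preimage hsymm) (hU₂.preimage hsymm) (by rw [← preimage_union, hU, preimage_univ])
    (hh.comp_cont (fun x _ => hsymm.continuousAt) (fun x hx => hx))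
  refine ⟨fun x => f₁ (φ x), fun x => f₂ (φ x), ?_, ?_, ?_⟩
  · refine h1.comp_cont (fun x hx => φ.continuousAt hx.2) (fun x hx => ?_)
    show φ.symm (φ x) ∈ U₁
    rw [φ.left_inv hx.2]
    exact hx.1
  · refine h2.comp_cont (fun x hx => φ.continuousAt hx.2) (fun x hx => ?_)
    show φ.symm (φ x) ∈ U₂
    rw [φ.left_inv hx.2]
    exact hx.1
  · intro x hx
    have h4 := h3 (φ x) (by
      show φ.symm (φ x) ∈ U₁ ∧ φ.symm (φ x) ∈ U₂
      rw [φ.left_inv hx.2]
      exact hx.1)
    rw [φ.left_inv hx.2] at h4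
    exact h4

/-- A space covered by two charts with simply connected images, with connected overlap. -/
theorem sc_glue {M N : Type} [TopologicalSpace M] [TopologicalSpace N]
    (hN : SC N) (φ ψ : OpenPartialHomeomorph M N)
    (hφ : φ.target = univ) (hψ : ψ.target = univ) (hcov : φ.source ∪ ψ.source = univ)
    (hconn : IsPreconnected (φ.source ∩ ψ.source)) : SC M := by
  classical
  intro G _ U₁ U₂ h hU₁ hU₂ hU hh
  obtain ⟨a₁, a₂, ha₁, ha₂, ha⟩ := sc_chart hN φ hφ G U₁ U₂ h hU₁ hU₂ hU hh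
  obtain ⟨b₁, b₂, hb₁, hb₂, hb⟩ := sc_chart hN ψ hψ G U₁ U₂ h hU₁ hU₂ hU hh
  set A := φ.source with hA
  set B := ψ.source with hB
  have hAo : IsOpen A := φ.open_source
  have hBo : IsOpen B := ψ.open_source
  -- the comparison function
  let g : M → G := fun x => if x ∈ U₁ then (a₁ x)⁻¹ * b₁ x else (a₂ x)⁻¹ * b₂ x
  have hg1 : ∀ x ∈ U₁, g x = (a₁ x)⁻¹ * b₁ x := fun x hx => if_pos hx
  have hg2 : ∀ x ∈ U₂ ∩ (A ∩ B), g x = (a₂ x)⁻¹ * b₂ x := by
    intro x hx
    by_cases hx1 : x ∈ U₁
    · rw [hg1 x hx1, ha x ⟨⟨hx1, hx.1⟩, hx.2.1⟩, hb x ⟨⟨hx1, hx.1⟩, hx.2.2⟩]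
      group
    · exact if_neg hx1
  have hgLC : LC g (A ∩ B) := by
    intro x hx
    have : x ∈ U₁ ∪ U₂ := hU ▸ mem_univ x
    rcases this with hx1 | hx2
    · filter_upwards [ha₁ x ⟨hx1, hx.1⟩, hb₁ x ⟨hx1, hx.2⟩, hU₁.mem_nhds hx1] with y h1 h2 h3
      rw [hg1 y h3, hg1 x hx1, h1, h2]
    · filter_upwards [ha₂ x ⟨hx2, hx.1⟩, hb₂ x ⟨hx2, hx.2⟩,
        (hU₂.inter (hAo.inter hBo)).mem_nhds ⟨hx2, hx⟩] with y h1 h2 h3
      rw [hg2 y h3, hg2 x ⟨hx2, hx⟩, h1, h2]
  have hconst : ∃ c : G, ∀ x ∈ A ∩ B, g x = c := by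
    let _ : TopologicalSpace G := ⊥
    have : DiscreteTopology G := ⟨rfl⟩
    rcases (A ∩ B).eq_empty_or_nonempty with he | ⟨x₀, hx₀⟩
    · exact ⟨1, by simp [he]⟩
    · exact ⟨g x₀, fun x hx => hconn.constant hgLC.continuousOn hx hx₀⟩
  obtain ⟨c, hc⟩ := hconst
  have key1 : ∀ x ∈ U₁ ∩ (A ∩ B), b₁ x = a₁ x * c := by
    intro x hx
    rw [← hc x hx.2, hg1 x hx.1]
    group
  have key2 : ∀ x ∈ U₂ ∩ (A ∩ B), b₂ x = a₂ x * c := by
    intro x hx
    rw [← hc x hx.2, hg2 x hx]
    group
  refine ⟨fun x => if x ∈ A then a₁ x * c else b₁ x, fun x => if x ∈ A then a₂ x * c else b₂ x,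
    ?_, ?_, ?_⟩
  · intro x hx
    have hxAB : x ∈ A ∪ B := hcov ▸ mem_univ x
    by_cases hxA : x ∈ A
    · filter_upwards [ha₁ x ⟨hx, hxA⟩, hAo.mem_nhds hxA] with y h1 h2
      simp only [h2, hxA, if_true, h1]
    · have hxB : x ∈ B := hxAB.resolve_left hxA
      filter_upwards [hb₁ x ⟨hx, hxB⟩, hBo.mem_nhds hxB, hU₁.mem_nhds hx] with y h1 h2 h3
      simp only [hxA, if_false]
      by_cases hyA : y ∈ A
      · simp only [hyA, if_true]
        rw [← key1 y ⟨h3, hyA, h2⟩, h1]
      · simp only [hyA, if_false, h1]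
  · intro x hx
    have hxAB : x ∈ A ∪ B := hcov ▸ mem_univ x
    by_cases hxA : x ∈ A
    · filter_upwards [ha₂ x ⟨hx, hxA⟩, hAo.mem_nhds hxA] with y h1 h2
      simp only [h2, hxA, if_true, h1]
    · have hxB : x ∈ B := hxAB.resolve_left hxA
      filter_upwards [hb₂ x ⟨hx, hxB⟩, hBo.mem_nhds hxB, hU₂.mem_nhds hx] with y h1 h2 h3
      simp only [hxA, if_false]
      by_cases hyA : y ∈ A
      · simp only [hyA, if_true]
        rw [← key2 y ⟨h3, hyA, h2⟩, h1]
      · simp only [hyA, if_false, h1]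
  · intro x hx
    have hxAB : x ∈ A ∪ B := hcov ▸ mem_univ x
    by_cases hxA : x ∈ A
    · simp only [hxA, if_true]
      rw [ha x ⟨hx, hxA⟩, mul_assoc]
    · simp only [hxA, if_false]
      exact hb x ⟨hx, hxAB.resolve_left hxA⟩

theorem sc_sphere : SC ↥(Metric.sphere (0 : EuclideanSpace ℝ (Fin 3)) 1) := by
  have hfr : Fact (Module.finrank ℝ (EuclideanSpace ℝ (Fin 3)) = 2 + 1) := ⟨by simp⟩
  let v : Metric.sphere (0 : EuclideanSpace ℝ (Fin 3)) 1 :=
    ⟨EuclideanSpace.single 0 1, by simp⟩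
  have hv : v ≠ -v := by
    intro h
    have h1 := congrArg (fun w : Metric.sphere (0 : EuclideanSpace ℝ (Fin 3)) 1 => (w : EuclideanSpace ℝ (Fin 3)) 0) h
    simp [v] at h1
    linarith
  have hs1 := stereographic'_source (n := 2) v
  have hs2 := stereographic'_source (n := 2) (-v)
  have ht1 := stereographic'_target (n := 2) v
  refine sc_glue sc_plane (stereographic' 2 v) (stereographic' 2 (-v)) ht1
    (stereographic'_target _) ?_ ?_
  · rw [hs1, hs2]
    ext x
    simp only [mem_union, mem_compl_iff, mem_singleton_iff, mem_univ, iff_true]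
    by_contra hcon
    push Not at hcon
    exact hv (hcon.1.symm.trans hcon.2)
  · have himg : (stereographic' 2 v).source ∩ (stereographic' 2 (-v)).source =
        (stereographic' 2 v).symm '' ({(stereographic' 2 v) (-v)}ᶜ) := by
      ext x
      rw [hs2]
      constructor
      · rintro ⟨hx1, hx2⟩
        refine ⟨stereographic' 2 v x, ?_, (stereographic' 2 v).left_inv hx1⟩
        intro h
        apply hx2
        have hnv : (-v) ∈ (stereographic' 2 v).source := by
          rw [hs1]
          exact fun h => hv h.symm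
        exact (stereographic' 2 v).injOn hx1 hnv h
      · rintro ⟨y, hy, rfl⟩
        have hyt : y ∈ (stereographic' 2 v).target := by rw [ht1]; exact mem_univ _
        refine ⟨(stereographic' 2 v).map_target hyt, ?_⟩
        intro h
        apply hy
        rw [mem_singleton_iff] at h ⊢
        rw [← h, (stereographic' 2 v).right_inv hyt]
    rw [himg]
    have hconn : IsConnected ({(stereographic' 2 v) (-v)}ᶜ : Set (EuclideanSpace ℝ (Fin 2))) := by
      apply isConnected_compl_singleton_of_one_lt_rank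
      rw [← Module.finrank_eq_rank]
      simp
    refine hconn.isPreconnected.image _ ?_
    exact (stereographic' 2 v).continuousOn_symm.mono (by rw [ht1]; exact subset_univ _)

end Pool.Agent.Lib_MP_1dc66a_gt
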