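import Pool.Agent.Lib_MP_1dc66a_gt.StepM

/-!
The step theorem.
-/

set_option autoImplicit false

open Set Topology Filter

namespace Pool.Agent.Lib_MP_1dc66a_gt

theorem convex_comb_le {a b c t : ℝ} (h0 : 0 ≤ t) (h1 : t ≤ 1) (ha : a ≤ c) (hb : b ≤ c) :
    (1 - t) * a + t * b ≤ c := by nlinarith

theorem le_convex_comb {a b c t : ℝ} (h0 : 0 ≤ t) (h1 : t ≤ 1) (ha : c ≤ a) (hb : c ≤ b) :
    c ≤ (1 - t) * a + t * b := by nlinarith

theorem step {M : Type} [TopologicalSpace M] [CompactSpace M] [Nonempty M] (hSC : SC M)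
    {V : Type} [Fintype V] {k : ℕ} (K : Cx V (k + 1)) (u : C(M, K.real))
    (D : Fold M k (fun m => K.typ (u m).1)) :
    ∃ (V' : Type) (_ : Fintype V') (K' : Cx V' k) (u' : C(M, K'.real)) (θ : C(K'.real, K.real)),
      (∀ m, K'.typ (u' m).1 = D.w m) ∧ u.Homotopic (θ.comp u') := by
  classical
  haveI hV : Nonempty V := by
    by_contra hcon
    rw [not_nonempty_iff] at hcon
    obtain ⟨m⟩ := (inferInstance : Nonempty M)
    have := (u m).2.2.1
    simp at this
  letI : Fintype (V ⊕ Set V) := Fintype.ofFinite _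
  -- wall
  have hWc : IsClosed {m | m ∈ D.U2 ∧ D.s m = 0} := by
    have : {m | m ∈ D.U2 ∧ D.s m = 0} = {m | m ∈ D.U2 ∧ |D.s m| ≤ 1 / 4} ∩ {m | D.s m = 0} := by
      ext m
      constructor
      · rintro ⟨h1, h2⟩
        exact ⟨⟨h1, by rw [h2]; norm_num⟩, h2⟩
      · rintro ⟨⟨h1, _⟩, h2⟩
        exact ⟨h1, h2⟩
    rw [this]
    exact D.C_closed.inter (isClosed_eq D.s_cont continuous_const)
  let U1 : Set M := {m | ¬ (m ∈ D.U2 ∧ D.s m = 0)}
  have hU1 : IsOpen U1 := hWc.isOpen_compl
  let h : M → FreeGroup (Set V) := fun m => if 0 < D.s m then 1 else FreeGroup.of (su u m)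
  have hh : LC h (U1 ∩ D.U2) := by
    rintro m₀ ⟨h1, h2⟩
    have hs : D.s m₀ ≠ 0 := fun h3 => h1 ⟨h2, h3⟩
    rcases lt_or_gt_of_ne hs with h3 | h3
    · filter_upwards [D.s_cont.continuousAt.eventually_lt continuousAt_const h3,
        su_LC u (D.U2_g m₀ h2)] with m hm hm'
      simp only [h, if_neg (not_lt.2 hm.le), if_neg (not_lt.2 h3.le), hm']
    · filter_upwards [continuousAt_const.eventually_lt D.s_cont.continuousAt h3] with m hm
      simp only [h, if_pos hm, if_pos h3]
  obtain ⟨f₁, f₂, hf₁, hf₂, hff⟩ := hSC (FreeGroup (Set V)) U1 D.U2 h hU1 D.U2_open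
    (by
      rw [eq_univ_iff_forall]
      intro m
      by_cases hm : m ∈ D.U2
      · exact Or.inr hm
      · exact Or.inl fun h' => hm h'.1) hh
  have hpos : ∀ m, m ∈ D.U2 → 0 < D.s m → f₁ m = f₂ m := by
    intro m h1 h2
    have := hff m ⟨fun h3 => h2.ne' h3.2, h1⟩
    simpa [h, h2] using this
  have hneg : ∀ m, m ∈ D.U2 → D.s m < 0 → f₁ m = FreeGroup.of (su u m) * f₂ m := by
    intro m h1 h2
    have := hff m ⟨fun h3 => h2.ne h3.2, h1⟩
    simpa [h, not_lt.2 h2.le] using this
  -- bounds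
  let E1 : Set M := {m | ¬ (m ∈ D.U2 ∧ |D.s m| < 1 / 4)}
  have hE1 : IsClosed E1 :=
    (D.U2_open.inter (isOpen_lt D.s_cont.abs continuous_const)).isClosed_compl
  obtain ⟨B₁, hB₁⟩ := LC_bdd hf₁ hE1.isCompact (fun m hm h' => hm ⟨h'.1, by
    rw [h'.2]; norm_num⟩) (fun v => (wd v).length)
  obtain ⟨B₂, hB₂⟩ := LC_bdd hf₂ D.C_closed.isCompact (fun m hm => hm.1) (fun v => (wd v).length)
  obtain ⟨B, hB⟩ : ∃ B : ℕ, B = max B₁ B₂ + 1 := ⟨_, rfl⟩
  let vw : M → List (Set V × Bool) := fun m => wd (f₂ m)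
  let vw' : M → List (Set V × Bool) := fun m => wd (FreeGroup.of (su u m) * f₂ m)
  have hcase : ∀ m, vw' m = (su u m, true) :: vw m ∨ vw m = (su u m, false) :: vw' m :=
    fun m => toWord_cases (su u m) (f₂ m)
  have hlen : ∀ m, m ∈ D.U2 → (vw m).length ≤ B ∧ (vw' m).length ≤ B := by
    intro m hm
    have hdiff : (vw' m).length ≤ (vw m).length + 1 ∧ (vw m).length ≤ (vw' m).length + 1 := by
      rcases hcase m with h1 | h1
      · rw [h1, List.length_cons]; omega
      · rw [h1, List.length_cons]; omega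
    by_cases h1 : |D.s m| ≤ 1 / 4
    · have := hB₂ m ⟨hm, h1⟩
      have h2 : (vw m).length ≤ B₂ := this
      omega
    · push Not at h1
      have h2 := hB₁ m (fun h' => absurd h'.2 (not_lt.2 h1.le))
      rcases lt_or_ge (D.s m) 0 with h3 | h3
      · rw [hneg m hm h3] at h2
        have h4 : (vw' m).length ≤ B₁ := h2
        omega
      · have h5 : D.s m ≠ 0 := by
          intro h6
          rw [h6] at h1
          norm_num at h1
        rw [hpos m hm (lt_of_le_of_ne h3 h5.symm)] at h2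
        have h4 : (vw m).length ≤ B₁ := h2
        omega
  have hlen1 : ∀ m, m ∉ D.U2 → (wd (f₁ m)).length ≤ B := by
    intro m hm
    have := hB₁ m (fun h' => hm h'.1)
    omega
  let R : Fin (k + 1) → Set V × Bool → V ⊕ Set V → V ⊕ Set V → Prop := TR K D.flip
  have hRf := TR_fun (K := K) D.flip_fun D.flip_inj
  have hRi := TR_inj (K := K) D.flip_fun D.flip_inj
  let q₀ : Fin (k + 1) → M → List (Set V × Bool) × (V ⊕ Set V) := fun j m =>
    if m ∈ D.U2 then nf (R j) (vw m) (lab K (su u m) (D.kp j m))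
    else nf (R j) (wd (f₁ m)) (lab K (su u m) (D.kind j m))
  have hq₀len : ∀ j m, (q₀ j m).1.length ≤ B := by
    intro j m
    simp only [q₀]
    split_ifs with hm
    · exact (nf_reach (R j) _ _).suffix.length_le.trans (hlen m hm).1
    · exact (nf_reach (R j) _ _).suffix.length_le.trans (hlen1 m hm)
  let q : Fin (k + 1) → M → {p : List (Set V × Bool) // p.length ≤ B} × (V ⊕ Set V) :=
    fun j m => (⟨(q₀ j m).1, hq₀len j m⟩, (q₀ j m).2)
  have hqq : ∀ j m m', q₀ j m = q₀ j m' → q j m = q j m' := by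
    intro j m m' he
    have h1 := congrArg Prod.fst he
    have h2 := congrArg Prod.snd he
    exact Prod.ext (Subtype.ext h1) h2
  have hfull : ∀ m, m ∈ D.U2 → Full K (su u m) := fun m hm => su_full u (D.U2_g m hm)
  -- crossing facts
  have hcr : ∀ j m κ', m ∈ D.U2 → D.flip j (D.kp j m) κ' →
      nf (R j) (vw' m) (lab K (su u m) κ') = nf (R j) (vw m) (lab K (su u m) (D.kp j m)) := by
    intro j m κ' hm hκ
    exact crossing D.flip_fun D.flip_inj (hfull m hm) j hκ (f₂ m)
  have hq1 : ∀ j m, D.w m j ≠ 0 → ¬ (m ∈ D.U2 ∧ D.s m = 0) →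
      q₀ j m = nf (R j) (wd (f₁ m)) (lab K (su u m) (D.kind j m)) := by
    intro j m hw hm
    simp only [q₀]
    split_ifs with hm2
    · have hs : D.s m ≠ 0 := fun h3 => hm ⟨hm2, h3⟩
      rcases lt_or_gt_of_ne hs with h3 | h3
      · rw [hneg m hm2 h3]
        exact (hcr j m _ hm2 (D.kp_neg j m hw hm2 h3)).symm
      · rw [hpos m hm2 h3, D.kp_pos j m hw hm2 h3]
    · rfl
  have hw_ev : ∀ j (m₀ : M), D.w m₀ j ≠ 0 → ∀ᶠ m in 𝓝 m₀, D.w m j ≠ 0 := by
    intro j m₀ hm₀
    exact (D.w_cont j).continuousAt.eventually_ne hm₀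
  have hCcompl : ∀ m₀, m₀ ∉ D.U2 → ∀ᶠ m in 𝓝 m₀, ¬ (m ∈ D.U2 ∧ |D.s m| ≤ 1 / 4) := by
    intro m₀ hm₀
    exact D.C_closed.isOpen_compl.mem_nhds (fun h' => hm₀ h'.1)
  have hq : ∀ j, LC (q₀ j) {m | D.w m j ≠ 0} := by
    intro j m₀ hm₀
    by_cases hU : m₀ ∈ D.U2
    · filter_upwards [D.U2_open.mem_nhds hU, hf₂ m₀ hU, su_LC u (D.U2_g m₀ hU),
        D.kp_LC j m₀ ⟨hm₀, hU⟩] with m h1 h2 h3 h4
      simp only [q₀, if_pos h1, if_pos hU, vw, h2, h3, h4]
    · have hnW : ¬ (m₀ ∈ D.U2 ∧ D.s m₀ = 0) := fun h' => hU h'.1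
      filter_upwards [hCcompl m₀ hU, hw_ev j m₀ hm₀, hf₁ m₀ hnW, D.kind_LC j m₀ ⟨hm₀, hnW⟩,
        lab_LC u (D.kind_ok j m₀ hm₀ hnW)] with m h1 h2 h3 h4 h5
      rw [hq1 j m h2 (fun h' => h1 ⟨h'.1, by rw [h'.2]; norm_num⟩), hq1 j m₀ hm₀ hnW, h3, h4, h5]
  -- the long word and the depth
  let Lm : M → List (Set V × Bool) := fun m =>
    if m ∈ D.U2 then (if (vw m).length ≤ (vw' m).length then vw' m else vw m) else wd (f₁ m)
  let χ : M → ℝ := fun m => clp (1 / 2 - 2 * D.s m)
  have hχc : Continuous χ := clp_cont.comp (continuous_const.sub (continuous_const.mul D.s_cont))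
  let dp : M → ℝ := fun m =>
    if m ∈ D.U2 then (1 - χ m) * (vw m).length + χ m * (vw' m).length else (wd (f₁ m)).length
  -- reach facts
  have hr1 : ∀ j m, m ∉ D.U2 →
      Reach (R j) (q₀ j m).1 (q₀ j m).2 (wd (f₁ m)) (lab K (su u m) (D.kind j m)) := by
    intro j m hm
    simp only [q₀, if_neg hm]
    exact nf_reach (R j) _ _
  have hr2 : ∀ j m, m ∈ D.U2 →
      Reach (R j) (q₀ j m).1 (q₀ j m).2 (vw m) (lab K (su u m) (D.kp j m)) := by
    intro j m hm
    simp only [q₀, if_pos hm]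
    exact nf_reach (R j) _ _
  have hr3 : ∀ j m κ', m ∈ D.U2 → D.flip j (D.kp j m) κ' →
      Reach (R j) (q₀ j m).1 (q₀ j m).2 (vw' m) (lab K (su u m) κ') := by
    intro j m κ' hm hκ
    simp only [q₀, if_pos hm]
    rw [← hcr j m κ' hm hκ]
    exact nf_reach (R j) _ _
  have hdpU : ∀ m, m ∈ D.U2 → dp m = (1 - χ m) * (vw m).length + χ m * (vw' m).length :=
    fun m hm => if_pos hm
  have hdpN : ∀ m, m ∉ D.U2 → dp m = (wd (f₁ m)).length := fun m hm => if_neg hm
  have hLmU1 : ∀ m, m ∈ D.U2 → vw' m = (su u m, true) :: vw m → Lm m = vw' m := by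
    intro m hm he
    have : (vw m).length ≤ (vw' m).length := by rw [he, List.length_cons]; omega
    simp only [Lm, if_pos hm, if_pos this]
  have hLmU2 : ∀ m, m ∈ D.U2 → vw m = (su u m, false) :: vw' m → Lm m = vw m := by
    intro m hm he
    have : ¬ (vw m).length ≤ (vw' m).length := by rw [he, List.length_cons]; omega
    simp only [Lm, if_pos hm, if_neg this]
  have hLmN : ∀ m, m ∉ D.U2 → Lm m = wd (f₁ m) := fun m hm => if_neg hm
  have hχ0 : ∀ m, 0 ≤ χ m := fun m => clp_nonneg _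
  have hχ1 : ∀ m, χ m ≤ 1 := fun m => clp_le_one _
  obtain ⟨u', θ, h1, h2⟩ := step_abs (K := K) (R := R) (pt := lpt K) (fc := Prod.fst) (B := B)
    hRi TR_face u D.w D.w_cont D.w_nonneg D.w_sum q
    (fun j m₀ hm₀ => (hq j m₀ hm₀).mono fun m hm => hqq j m m₀ hm) Lm dp B
    (by
      intro m
      refine ⟨su u m, su_face u m, fun j hw => ?_⟩
      by_cases hm : m ∈ D.U2
      · obtain ⟨κ', hκ⟩ := D.kp_dom j m hw hm
        rcases hcase m with hc | hc
        · rw [hLmU1 m hm hc]
          exact ⟨_, hr3 j m κ' hm hκ, lpt_mem (hfull m hm) _⟩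
        · rw [hLmU2 m hm hc]
          exact ⟨_, hr2 j m hm, lpt_mem (hfull m hm) _⟩
      · rw [hLmN m hm]
        exact ⟨_, hr1 j m hm, lab_mem u (D.kind_ok j m hw fun h' => hm h'.1)⟩)
    (by
      intro m j hw
      show ((q₀ j m).1.length : ℝ) ≤ dp m
      by_cases hm : m ∈ D.U2
      · obtain ⟨κ', hκ⟩ := D.kp_dom j m hw hm
        rw [hdpU m hm]
        refine le_convex_comb (hχ0 m) (hχ1 m) ?_ ?_
        · exact_mod_cast (hr2 j m hm).suffix.length_le
        · exact_mod_cast (hr3 j m κ' hm hκ).suffix.length_le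
      · rw [hdpN m hm]
        exact_mod_cast (hr1 j m hm).suffix.length_le)
    (by
      intro m
      by_cases hm : m ∈ D.U2
      · rw [hdpU m hm]
        exact le_convex_comb (hχ0 m) (hχ1 m) (by positivity) (by positivity)
      · rw [hdpN m hm]
        positivity)
    (by
      intro m
      by_cases hm : m ∈ D.U2
      · rw [hdpU m hm]
        rcases hcase m with hc | hc
        · rw [hLmU1 m hm hc]
          refine convex_comb_le (hχ0 m) (hχ1 m) ?_ le_rfl
          rw [hc, List.length_cons]; push_cast; linarith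
        · rw [hLmU2 m hm hc]
          refine convex_comb_le (hχ0 m) (hχ1 m) le_rfl ?_
          rw [hc, List.length_cons]; push_cast; linarith
      · rw [hdpN m hm, hLmN m hm])
    (by
      intro m
      by_cases hm : m ∈ D.U2
      · rw [hdpU m hm]
        refine convex_comb_le (hχ0 m) (hχ1 m) ?_ ?_
        · exact_mod_cast (hlen m hm).1
        · exact_mod_cast (hlen m hm).2
      · rw [hdpN m hm]
        exact_mod_cast hlen1 m hm)
    (by
      intro m j hw
      show pth (R j) (lpt K) (q₀ j m) (Lm m) (dp m) ∈ Splx (su u m)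
      by_cases hm : m ∈ D.U2
      · obtain ⟨κ', hκ⟩ := D.kp_dom j m hw hm
        rw [hdpU m hm]
        rcases hcase m with hc | hc
        · rw [hLmU1 m hm hc]
          have hl : ((vw' m).length : ℝ) = (vw m).length + 1 := by
            rw [hc, List.length_cons]; push_cast; ring
          rw [hl, hc]
          exact pth_mid_mem (R j) (lpt K) (hRi j) (hr2 j m hm)
            (show TR K D.flip j (su u m, true) (lab K (su u m) κ') _ from
              ⟨hfull m hm, _, κ', hκ, rfl, rfl⟩)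
            (by nlinarith [hχ0 m]) (by nlinarith [hχ1 m]) (lpt_mem (hfull m hm) _)
            (lpt_mem (hfull m hm) _)
        · rw [hLmU2 m hm hc]
          have hl : ((vw m).length : ℝ) = (vw' m).length + 1 := by
            rw [hc, List.length_cons]; push_cast; ring
          rw [hl, hc]
          exact pth_mid_mem (R j) (lpt K) (hRi j) (hr3 j m κ' hm hκ)
            (show TR K D.flip j (su u m, false) (lab K (su u m) (D.kp j m)) _ from
              ⟨hfull m hm, _, κ', hκ, rfl, rfl⟩)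
            (by nlinarith [hχ1 m]) (by nlinarith [hχ0 m]) (lpt_mem (hfull m hm) _)
            (lpt_mem (hfull m hm) _)
      · rw [hdpN m hm, hLmN m hm]
        rw [pth_end (R j) (lpt K) (hRi j) (hr1 j m hm) le_rfl]
        exact vpt_mem (lab_mem u (D.kind_ok j m hw fun h' => hm h'.1)))
    (by
      intro j m₀ r₀ hw₀
      show ContinuousAt (fun z : M × ℝ =>
        pth (R j) (lpt K) (q₀ j z.1) (Lm z.1) (min z.2 (dp z.1))) (m₀, r₀)
      have hfst : Tendsto (fun z : M × ℝ => z.1) (𝓝 (m₀, r₀)) (𝓝 m₀) :=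
        continuous_fst.continuousAt
      by_cases hU : m₀ ∈ D.U2
      · have hev : ∀ᶠ m in 𝓝 m₀, m ∈ D.U2 ∧ q₀ j m = q₀ j m₀ ∧ vw m = vw m₀ ∧
            vw' m = vw' m₀ ∧ Lm m = Lm m₀ := by
          filter_upwards [D.U2_open.mem_nhds hU, hf₂ m₀ hU, su_LC u (D.U2_g m₀ hU),
            hq j m₀ hw₀] with m h1 h2 h3 h4
          refine ⟨h1, h4, ?_, ?_, ?_⟩
          · simp only [vw, h2]
          · simp only [vw', h2, h3]
          · simp only [Lm, if_pos h1, if_pos hU, vw, vw', h2, h3]
        have heq : (fun z : M × ℝ =>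
            pth (R j) (lpt K) (q₀ j z.1) (Lm z.1) (min z.2 (dp z.1))) =ᶠ[𝓝 (m₀, r₀)]
            fun z => pth (R j) (lpt K) (q₀ j m₀) (Lm m₀)
              (min z.2 ((1 - χ z.1) * (vw m₀).length + χ z.1 * (vw' m₀).length)) := by
          filter_upwards [hfst.eventually hev] with z hz
          obtain ⟨h1, h2, h3, h4, h5⟩ := hz
          rw [hdpU z.1 h1, h2, h3, h4, h5]
        refine ContinuousAt.congr ?_ heq.symm
        refine Continuous.continuousAt ((pth_cont (R j) (lpt K) (q₀ j m₀) (Lm m₀)).comp ?_)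
        refine continuous_snd.min ?_
        exact ((continuous_const.sub (hχc.comp continuous_fst)).mul continuous_const).add
          ((hχc.comp continuous_fst).mul continuous_const)
      · have hnW : ¬ (m₀ ∈ D.U2 ∧ D.s m₀ = 0) := fun h' => hU h'.1
        have hev : ∀ᶠ m in 𝓝 m₀, ¬ (m ∈ D.U2 ∧ |D.s m| ≤ 1 / 4) ∧ D.w m j ≠ 0 ∧
            f₁ m = f₁ m₀ ∧ q₀ j m = q₀ j m₀ := by
          filter_upwards [hCcompl m₀ hU, hw_ev j m₀ hw₀, hf₁ m₀ hnW, hq j m₀ hw₀] with
            m h1 h2 h3 h4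
          exact ⟨h1, h2, h3, h4⟩
        have heq : (fun z : M × ℝ =>
            pth (R j) (lpt K) (q₀ j z.1) (Lm z.1) (min z.2 (dp z.1))) =ᶠ[𝓝 (m₀, r₀)]
            fun z => pth (R j) (lpt K) (q₀ j m₀) (wd (f₁ m₀))
              (min z.2 ((wd (f₁ m₀)).length)) := by
          filter_upwards [hfst.eventually hev] with z hz
          obtain ⟨h1, h2, h3, h4⟩ := hz
          rw [← h3, ← h4]
          by_cases hm : z.1 ∈ D.U2
          · have h5 : 1 / 4 < |D.s z.1| := by
              by_contra hcon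
              exact h1 ⟨hm, not_lt.1 hcon⟩
            obtain ⟨κ', hκ⟩ := D.kp_dom j z.1 h2 hm
            have hs1 := (hr2 j z.1 hm).suffix
            have hs2 := (hr3 j z.1 κ' hm hκ).suffix
            rcases lt_or_ge (D.s z.1) 0 with h6 | h6
            · -- s < -1/4
              have h7 : D.s z.1 < -(1 / 4) := by
                rw [abs_of_neg h6] at h5; linarith
              have h8 : χ z.1 = 1 := clp_of_one_le (by linarith)
              have h9 : wd (f₁ z.1) = vw' z.1 := by rw [hneg z.1 hm h6]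
              have h10 : dp z.1 = (vw' z.1).length := by
                rw [hdpU z.1 hm, h8]; ring
              rw [h10, h9]
              rcases hcase z.1 with hc | hc
              · rw [hLmU1 z.1 hm hc]
              · rw [hLmU2 z.1 hm hc]
                exact pth_le (R j) (lpt K) hs2 (by rw [hc]; exact List.suffix_cons _ _)
                  (min_le_right _ _)
            · have h6' : 0 < D.s z.1 := by
                rcases h6.lt_or_eq with h | h
                · exact h
                · rw [← h] at h5; norm_num at h5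
              have h7 : 1 / 4 < D.s z.1 := by
                rwa [abs_of_pos h6'] at h5
              have h8 : χ z.1 = 0 := clp_of_nonpos (by linarith)
              have h9 : wd (f₁ z.1) = vw z.1 := by rw [hpos z.1 hm h6']
              have h10 : dp z.1 = (vw z.1).length := by
                rw [hdpU z.1 hm, h8]; ring
              rw [h10, h9]
              rcases hcase z.1 with hc | hc
              · rw [hLmU1 z.1 hm hc]
                exact pth_le (R j) (lpt K) hs1 (by rw [hc]; exact List.suffix_cons _ _)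
                  (min_le_right _ _)
              · rw [hLmU2 z.1 hm hc]
          · rw [hdpN z.1 hm, hLmN z.1 hm]
        refine ContinuousAt.congr ?_ heq.symm
        refine Continuous.continuousAt ((pth_cont (R j) (lpt K) (q₀ j m₀) _).comp ?_)
        exact continuous_snd.min continuous_const)
  exact ⟨_, inferInstance, Kp K R (lpt K) B, u', θ, h1, h2⟩

end Pool.Agent.Lib_MP_1dc66a_gt
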