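import Pool.Agent.Lib_MP_1dc66a_gt.Theta

/-!
The abstract step: from a developing map of `M` to a homotopy factorisation through `|Kp|`.
-/

set_option autoImplicit false

open Set Topology Filter

namespace Pool.Agent.Lib_MP_1dc66a_gt

theorem homotopic_of {M V : Type} [TopologicalSpace M] {Y : Set (V → ℝ)}
    (f g : C(M, Y)) (H : ℝ → M → (V → ℝ)) (hc : Continuous (fun z : ℝ × M => H z.1 z.2))
    (hm : ∀ t ∈ Icc (0 : ℝ) 1, ∀ m, H t m ∈ Y) (h0 : ∀ m, H 0 m = (f m).1)
    (h1 : ∀ m, H 1 m = (g m).1) : f.Homotopic g := by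
  refine ⟨⟨⟨fun z => ⟨H z.1.1 z.2, hm _ z.1.2 _⟩, ?_⟩, fun m => ?_, fun m => ?_⟩⟩
  · refine Continuous.subtype_mk ?_ _
    exact hc.comp ((continuous_subtype_val.comp continuous_fst).prodMk continuous_snd)
  · exact Subtype.ext (h0 m)
  · exact Subtype.ext (h1 m)

section StepAbs

variable {V : Type} [Fintype V] {l : ℕ} (K : Cx V l) {Γ A : Type} [Finite Γ] [Fintype A] {k : ℕ}
  (R : Fin (k + 1) → Γ → A → A → Prop) (pt : A → V) (fc : Γ → Set V) (B : ℕ)
  {M : Type} [TopologicalSpace M]

/-- The lifted map in barycentric coordinates. -/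
noncomputable def upt (w : M → Fin (k + 1) → ℝ)
    (q : Fin (k + 1) → M → {p : List Γ // p.length ≤ B} × A) (m : M) : VV Γ A k B → ℝ := by
  classical
  exact fun y => if q y.1 m = y.2 then w m y.1 else 0

variable {B}

theorem upt_sum_gen (w : M → Fin (k + 1) → ℝ)
    (q : Fin (k + 1) → M → {p : List Γ // p.length ≤ B} × A) (m : M) {E : Type} [AddCommMonoid E]
    (F : VV Γ A k B → ℝ → E) (hF : ∀ y, F y 0 = 0) :
    ∑ y, F y (upt B w q m y) = ∑ j, F (j, q j m) (w m j) := by
  classical
  rw [Fintype.sum_prod_type]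
  refine Finset.sum_congr rfl fun j _ => ?_
  rw [Finset.sum_eq_single (q j m)]
  · simp [upt]
  · intro z _ hz
    simp [upt, Ne.symm hz, hF]
  · intro h
    exact absurd (Finset.mem_univ _) h

theorem upt_cont (w : M → Fin (k + 1) → ℝ) (hwc : ∀ j, Continuous (fun m => w m j))
    (hw0 : ∀ m j, 0 ≤ w m j)
    (q : Fin (k + 1) → M → {p : List Γ // p.length ≤ B} × A)
    (hq : ∀ j, LC (q j) {m | w m j ≠ 0}) : Continuous (upt B w q) := by
  classical
  refine continuous_pi fun y => continuous_iff_continuousAt.2 fun m₀ => ?_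
  by_cases h : w m₀ y.1 = 0
  · have h1 : upt B w q m₀ y = 0 := by
      simp [upt, h]
    show Tendsto (fun a => upt B w q a y) (𝓝 m₀) (𝓝 (upt B w q m₀ y))
    rw [h1]
    refine squeeze_zero (fun m => ?_) (fun m => ?_) (g := fun m => w m y.1) ?_
    · simp only [upt]
      split_ifs
      · exact hw0 _ _
      · exact le_refl _
    · simp only [upt]
      split_ifs
      · exact le_refl _
      · exact hw0 _ _
    · have h2 : Tendsto (fun m => w m y.1) (𝓝 m₀) (𝓝 (w m₀ y.1)) :=
        (hwc y.1).continuousAt (x := m₀)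
      rwa [h] at h2
  · have h1 : (fun m => upt B w q m y) =ᶠ[𝓝 m₀] fun m => if q y.1 m₀ = y.2 then w m y.1 else 0 := by
      filter_upwards [hq y.1 m₀ h] with m hm
      simp only [upt, hm]
    refine ContinuousAt.congr ?_ h1.symm
    split_ifs
    · exact (hwc y.1).continuousAt
    · exact continuousAt_const

theorem upt_real (w : M → Fin (k + 1) → ℝ)
    (hw0 : ∀ m j, 0 ≤ w m j) (hw1 : ∀ m, ∑ j, w m j = 1)
    (q : Fin (k + 1) → M → {p : List Γ // p.length ≤ B} × A)
    (Lm : M → List Γ)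
    (hL : ∀ m, ∃ ρ ∈ K.faces, ∀ j, w m j ≠ 0 →
      ∃ a, Reach (R j) (q j m).1.1 (q j m).2 (Lm m) a ∧ pt a ∈ ρ) (m : M) :
    upt B w q m ∈ (Kp K R pt B).real := by
  classical
  refine ⟨fun y => ?_, ?_, ?_, ?_⟩
  · simp only [upt]
    split_ifs
    · exact hw0 _ _
    · exact le_refl _
  · rw [upt_sum_gen w q m (fun _ t => t) (fun _ => rfl)]
    exact hw1 m
  · intro y hy z hz h
    have hy' : q y.1 m = y.2 := by
      by_contra hcon
      exact hy (by simp [upt, hcon])
    have hz' : q z.1 m = z.2 := by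
      by_contra hcon
      exact hz (by simp [upt, hcon])
    rw [h] at hy'
    exact Prod.ext h (hy'.symm.trans hz')
  · obtain ⟨ρ, hρ, h⟩ := hL m
    refine ⟨Lm m, ρ, hρ, fun y hy => ?_⟩
    have hy' : q y.1 m = y.2 := by
      by_contra hcon
      exact hy (by simp [upt, hcon])
    have hy2 : w m y.1 ≠ 0 := by
      intro hcon
      exact hy (by simp [upt, hcon])
    have := h y.1 hy2
    rw [hy'] at this
    exact this

theorem upt_typ (w : M → Fin (k + 1) → ℝ)
    (q : Fin (k + 1) → M → {p : List Γ // p.length ≤ B} × A) (m : M) :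
    (Kp K R pt B).typ (upt B w q m) = w m := by
  classical
  funext i
  unfold Cx.typ
  have := upt_sum_gen w q m (fun y t => if (Kp K R pt B).col y = i then t else 0) (fun _ => by simp)
  rw [this]
  have h2 : ∀ j : Fin (k + 1), (Kp K R pt B).col (j, q j m) = j := fun _ => rfl
  simp only [h2]
  simp

variable {K R pt fc}

theorem kap_upt (w : M → Fin (k + 1) → ℝ)
    (q : Fin (k + 1) → M → {p : List Γ // p.length ≤ B} × A) (m : M) (y : VV Γ A k B) :
    kap k (upt B w q m) y = upt B (fun m => kap k (w m)) q m y := by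
  classical
  have hmax : max (0 - dl k) 0 = 0 := max_eq_right (by linarith [dl_pos k])
  have hsum := upt_sum_gen w q m (fun _ t => max (t - dl k) 0) (fun _ => hmax)
  unfold kap
  rw [hsum]
  simp only [upt]
  split_ifs
  · rfl
  · rw [hmax, zero_div]

theorem step_abs (hinj : ∀ j x a a' b, R j x a b → R j x a' b → a = a')
    (hface : ∀ j x a b, R j x a b → fc x ∈ K.faces ∧ pt a ∈ fc x ∧ pt b ∈ fc x)
    (u : C(M, K.real)) (w : M → Fin (k + 1) → ℝ) (hwc : ∀ j, Continuous (fun m => w m j))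
    (hw0 : ∀ m j, 0 ≤ w m j) (hw1 : ∀ m, ∑ j, w m j = 1)
    (q : Fin (k + 1) → M → {p : List Γ // p.length ≤ B} × A)
    (hq : ∀ j, LC (q j) {m | w m j ≠ 0})
    (Lm : M → List Γ) (dp : M → ℝ) (B' : ℝ)
    (hL : ∀ m, ∃ ρ ∈ K.faces, ∀ j, w m j ≠ 0 →
      ∃ a, Reach (R j) (q j m).1.1 (q j m).2 (Lm m) a ∧ pt a ∈ ρ)
    (hgate : ∀ m j, w m j ≠ 0 → ((q j m).1.1.length : ℝ) ≤ dp m)
    (hdp0 : ∀ m, 0 ≤ dp m)
    (hdpL : ∀ m, dp m ≤ (Lm m).length) (hdpB : ∀ m, dp m ≤ B')
    (hend : ∀ m j, w m j ≠ 0 → pth (R j) pt ((q j m).1.1, (q j m).2) (Lm m) (dp m) ∈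
      Splx {v | (u m).1 v ≠ 0})
    (hG : ∀ j (m₀ : M) (r₀ : ℝ), w m₀ j ≠ 0 → ContinuousAt (fun z : M × ℝ =>
      pth (R j) pt ((q j z.1).1.1, (q j z.1).2) (Lm z.1) (min z.2 (dp z.1))) (m₀, r₀)) :
    ∃ (u' : C(M, (Kp K R pt B).real)) (θ : C((Kp K R pt B).real, K.real)),
      (∀ m, (Kp K R pt B).typ (u' m).1 = w m) ∧ u.Homotopic (θ.comp u') := by
  classical
  obtain ⟨θ, hθ⟩ := exists_theta (K := K) (R := R) (pt := pt) fc (B := B) hinj hface
  have hu'c := upt_cont (B := B) w hwc hw0 q hq
  let u' : C(M, (Kp K R pt B).real) :=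
    ⟨fun m => ⟨upt B w q m, upt_real K R pt w hw0 hw1 q Lm hL m⟩, hu'c.subtype_mk _⟩
  refine ⟨u', θ, fun m => upt_typ K R pt w q m, ?_⟩
  -- support facts
  have hsup : ∀ m (y : VV Γ A k B), upt B w q m y ≠ 0 → q y.1 m = y.2 ∧ w m y.1 ≠ 0 := by
    intro m y hy
    constructor
    · by_contra hcon
      exact hy (by simp [upt, hcon])
    · intro hcon
      exact hy (by simp [upt, hcon])
  let D : M → ℝ := fun m => dep k (fun y : VV Γ A k B => y.2.1.1.length) (upt B w q m)
  have hDc : Continuous D := (dep_cont k _).comp hu'c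
  have hD0 : ∀ m, 0 ≤ D m := fun m => dep_nonneg _ _ _
  have hu0 : ∀ m y, 0 ≤ upt B w q m y := fun m => (upt_real K R pt w hw0 hw1 q Lm hL m).1
  have hDdp : ∀ m, D m ≤ dp m := by
    intro m
    refine dep_le _ (hu0 m) (hdp0 m) fun y hy => ?_
    obtain ⟨h1, h2⟩ := hsup m y hy
    have := hgate m y.1 h2
    rwa [h1] at this
  -- the intermediate family
  let G : Fin (k + 1) → M → ℝ → (V → ℝ) := fun j m r =>
    pth (R j) pt ((q j m).1.1, (q j m).2) (Lm m) (min r (dp m))
  let H : M → ℝ → (V → ℝ) := fun m r => ∑ j, kap k (w m) j • G j m r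
  have hwt : ∀ m, Wt k (fun j : Fin (k + 1) => j) (w m) := fun m =>
    ⟨hw0 m, hw1 m, fun y z _ _ h => h⟩
  have hkapc : ∀ j, Continuous (fun m => kap k (w m) j) := by
    intro j
    unfold kap
    refine Continuous.div (((hwc j).sub continuous_const).max continuous_const) ?_ ?_
    · exact continuous_finsetSum _ fun z _ => ((hwc z).sub continuous_const).max continuous_const
    · intro m
      exact (hwt m).den_pos.ne'
  -- continuity of H along continuous depth functions
  have hHc : ∀ f : ℝ × M → ℝ, Continuous f → Continuous (fun z : ℝ × M => H z.2 (f z)) := by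
    intro f hf
    refine continuous_finsetSum _ fun j _ => continuous_iff_continuousAt.2 fun z₀ => ?_
    by_cases h : w z₀.2 j = 0
    · have hev : ∀ᶠ z : ℝ × M in 𝓝 z₀, w z.2 j < dl k := by
        have hc : ContinuousAt (fun z : ℝ × M => w z.2 j) z₀ :=
          ((hwc j).comp continuous_snd).continuousAt
        refine hc.eventually_lt continuousAt_const ?_
        rw [h]
        exact dl_pos k
      have heq : (fun z : ℝ × M => kap k (w z.2) j • G j z.2 (f z)) =ᶠ[𝓝 z₀] fun _ => 0 := by
        filter_upwards [hev] with z hz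
        have : kap k (w z.2) j = 0 := by
          by_contra hcon
          exact absurd (kap_ne hcon) (not_lt.2 hz.le)
        rw [this, zero_smul]
      exact ContinuousAt.congr continuousAt_const heq.symm
    · refine ContinuousAt.smul ((hkapc j).comp continuous_snd).continuousAt ?_
      have h1 := hG j z₀.2 (f z₀) h
      have h2 : ContinuousAt (fun z : ℝ × M => (z.2, f z)) z₀ :=
        (continuous_snd.prodMk hf).continuousAt
      exact ContinuousAt.comp (f := fun z : ℝ × M => (z.2, f z)) (x := z₀) h1 h2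
  -- membership of H
  have hHm : ∀ m r, D m ≤ r → H m r ∈ K.real := by
    intro m r hr
    obtain ⟨ρ, hρ, h⟩ := hL m
    obtain ⟨ρ', hρ', h4⟩ := pth_common K R pt fc hinj hface
      (T := {p | ∃ j, kap k (w m) j ≠ 0 ∧ p = (j, (q j m).1.1, (q j m).2)}) (Lm m)
      (r := min r (dp m)) hρ ((min_le_right _ _).trans (hdpL m))
      (by
        rintro p ⟨j, hj, rfl⟩
        exact h j (lt_trans (dl_pos k) (kap_ne hj)).ne')
      (by
        rintro p ⟨j, hj, rfl⟩
        have hwj : dl k < w m j := kap_ne hj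
        refine le_min (le_trans ?_ hr) (hgate m j (lt_trans (dl_pos k) hwj).ne')
        refine le_dep (k := k) (fun y : VV Γ A k B => y.2.1.1.length) (y := (j, q j m)) ?_
        simp only [upt, if_true]
        exact hwj.le)
    refine Splx_real K hρ' ?_
    refine splx_comb _ _ (fun j => kap_nonneg (w m) j) (hwt m).kap_sum fun j hj => ?_
    exact h4 _ ⟨j, hj, rfl⟩
  have hθH : ∀ m, (θ (u' m)).1 = H m (D m) := by
    intro m
    rw [hθ (u' m) (Lm m) (by
      intro y hy
      obtain ⟨h1, h2⟩ := hsup m y hy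
      obtain ⟨ρ, hρ, h⟩ := hL m
      obtain ⟨a, ha, _⟩ := h y.1 h2
      rw [h1] at ha
      exact ha.suffix)]
    unfold th0
    have h1 : ∀ y : VV Γ A k B, kap k (u' m).1 y = upt B (fun m => kap k (w m)) q m y :=
      fun y => kap_upt w q m y
    simp only [h1]
    rw [upt_sum_gen (fun m => kap k (w m)) q m (fun y t => t •
      pth (R y.1) pt (y.2.1.1, y.2.2) (Lm m)
        (dep k (fun y : VV Γ A k B => y.2.1.1.length) (u' m).1)) (fun y => zero_smul _ _)]
    refine Finset.sum_congr rfl fun j _ => ?_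
    have : min (D m) (dp m) = D m := min_eq_left (hDdp m)
    simp only [G, this]
    rfl
  have hHend : ∀ m r, dp m ≤ r → H m r ∈ Splx {v | (u m).1 v ≠ 0} := by
    intro m r hr
    refine splx_comb _ _ (fun j => kap_nonneg (w m) j) (hwt m).kap_sum fun j hj => ?_
    have hwj : dl k < w m j := kap_ne hj
    simp only [G, min_eq_right hr]
    exact hend m j (lt_trans (dl_pos k) hwj).ne'
  have hB0 : 0 ≤ B' ∨ IsEmpty M := by
    rcases isEmpty_or_nonempty M with h | ⟨⟨m⟩⟩
    · exact Or.inr h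
    · exact Or.inl ((hdp0 m).trans (hdpB m))
  -- the middle map
  have hmidc : Continuous (fun m => H m B') :=
    (hHc (fun _ => B') continuous_const).comp (continuous_const.prodMk continuous_id (f := fun _ => (0 : ℝ)))
  let mid : C(M, K.real) := ⟨fun m => ⟨H m B', hHm m B' ((hDdp m).trans (hdpB m))⟩,
    hmidc.subtype_mk _⟩
  refine ContinuousMap.Homotopic.trans (g := mid) ?_ (ContinuousMap.Homotopic.symm ?_)
  · refine homotopic_of u mid (fun t m => (1 - t) • (u m).1 + t • H m B') ?_ ?_ ?_ ?_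
    · have h1 : Continuous (fun z : ℝ × M => H z.2 B') := hHc _ continuous_const
      have h2 : Continuous (fun z : ℝ × M => (u z.2).1) :=
        continuous_subtype_val.comp (u.continuous.comp continuous_snd)
      exact ((continuous_const.sub continuous_fst).smul h2).add (continuous_fst.smul h1)
    · intro t ht m
      refine Splx_real K (ρ := {v | (u m).1 v ≠ 0}) (u m).2.2.2 ?_
      exact Splx_convex _ (mem_Splx_supp K (u m).2) (hHend m B' (hdpB m)) (by linarith [ht.2])
        ht.1 (by ring)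
    · intro m; simp
    · intro m
      simp only [sub_self, zero_smul, one_smul, zero_add]
      rfl
  · refine homotopic_of (θ.comp u') mid (fun t m => H m (max (D m) (t * B'))) ?_ ?_ ?_ ?_
    · exact hHc (fun z => max (D z.2) (z.1 * B'))
        ((hDc.comp continuous_snd).max (continuous_fst.mul continuous_const))
    · intro t ht m
      exact hHm m _ (le_max_left _ _)
    · intro m
      show H m (max (D m) (0 * B')) = (θ (u' m)).1
      rw [zero_mul, max_eq_left (hD0 m), hθH]
    · intro m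
      show H m (max (D m) (1 * B')) = H m B'
      rw [one_mul, max_eq_right ((hDdp m).trans (hdpB m))]

end StepAbs

end Pool.Agent.Lib_MP_1dc66a_gt
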