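import Pool.Agent.Lib_MP_1dc66a_gt.StepAbs

/-!
The step: fold data on `M` for the type map of `u : M → |K|` and the vanishing of discrete
cocycles on `M` give a factorisation of `u` up to homotopy through a complex with one colour less.
-/

set_option autoImplicit false

open Set Topology Filter

namespace Pool.Agent.Lib_MP_1dc66a_gt

/-- The positivity condition attached to a kind. -/
def KOk {n : ℕ} (g : Fin n → ℝ) : Option (Fin n) → Prop
  | some i => 0 < g i
  | none => ∀ i, 0 < g i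

/-- Fold data on `X` for a type map `g : X → Δ^{k+1}`. -/
structure Fold (X : Type) [TopologicalSpace X] (k : ℕ) (g : X → Fin (k + 2) → ℝ) where
  /-- new type map -/
  w : X → Fin (k + 1) → ℝ
  w_cont : ∀ j, Continuous (fun x => w x j)
  w_nonneg : ∀ x j, 0 ≤ w x j
  w_sum : ∀ x, ∑ j, w x j = 1
  /-- neighbourhood of the wall -/
  U2 : Set X
  U2_open : IsOpen U2
  U2_g : ∀ x ∈ U2, ∀ i, 0 < g x i
  /-- the wall is `s = 0` in `U2` -/
  s : X → ℝ
  s_cont : Continuous s
  C_closed : IsClosed {x | x ∈ U2 ∧ |s x| ≤ 1 / 4}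
  /-- transition of kinds across the wall -/
  flip : Fin (k + 1) → Option (Fin (k + 2)) → Option (Fin (k + 2)) → Prop
  flip_fun : ∀ j a b b', flip j a b → flip j a b' → b = b'
  flip_inj : ∀ j a a' b, flip j a b → flip j a' b → a = a'
  /-- kinds off the wall -/
  kind : Fin (k + 1) → X → Option (Fin (k + 2))
  /-- kinds near the wall, on the positive side -/
  kp : Fin (k + 1) → X → Option (Fin (k + 2))
  kind_LC : ∀ j, LC (kind j) {x | w x j ≠ 0 ∧ ¬ (x ∈ U2 ∧ s x = 0)}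
  kp_LC : ∀ j, LC (kp j) {x | w x j ≠ 0 ∧ x ∈ U2}
  kind_ok : ∀ j x, w x j ≠ 0 → ¬ (x ∈ U2 ∧ s x = 0) → KOk (g x) (kind j x)
  kp_pos : ∀ j x, w x j ≠ 0 → x ∈ U2 → 0 < s x → kind j x = kp j x
  kp_neg : ∀ j x, w x j ≠ 0 → x ∈ U2 → s x < 0 → flip j (kp j x) (kind j x)
  kp_dom : ∀ j x, w x j ≠ 0 → x ∈ U2 → ∃ κ', flip j (kp j x) κ'

section Labels

variable {V : Type} [Fintype V] [Nonempty V] {l : ℕ} (K : Cx V l)

/-- The vertex of colour `i` in `ρ`. -/
noncomputable def vx (ρ : Set V) (i : Fin (l + 1)) : V :=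
  Classical.epsilon (fun v => v ∈ ρ ∧ K.col v = i)

/-- A face with all colours. -/
def Full (ρ : Set V) : Prop := ρ ∈ K.faces ∧ ∀ i, ∃ v ∈ ρ, K.col v = i

/-- labels -/
noncomputable def lab (ρ : Set V) : Option (Fin (l + 1)) → V ⊕ Set V
  | some i => Sum.inl (vx K ρ i)
  | none => Sum.inr ρ

/-- position of labels -/
noncomputable def lpt : V ⊕ Set V → V
  | Sum.inl v => v
  | Sum.inr ρ => vx K ρ 0

variable {K}

theorem vx_spec {ρ : Set V} {i : Fin (l + 1)} (h : ∃ v ∈ ρ, K.col v = i) :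
    vx K ρ i ∈ ρ ∧ K.col (vx K ρ i) = i := by
  obtain ⟨v, hv⟩ := h
  exact Classical.epsilon_spec (p := fun v => v ∈ ρ ∧ K.col v = i) ⟨v, hv⟩

theorem vx_eq {ρ : Set V} (hρ : ρ ∈ K.faces) {i : Fin (l + 1)} {v : V} (hv : v ∈ ρ)
    (hc : K.col v = i) : vx K ρ i = v := by
  obtain ⟨h1, h2⟩ := vx_spec (K := K) (ρ := ρ) (i := i) ⟨v, hv, hc⟩
  exact K.inj ρ hρ _ h1 _ hv (h2.trans hc.symm)

theorem lab_inj {ρ : Set V} (h : Full K ρ) {κ κ' : Option (Fin (l + 1))}
    (he : lab K ρ κ = lab K ρ κ') : κ = κ' := by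
  cases κ with
  | none =>
    cases κ' with
    | none => rfl
    | some i' => simp [lab] at he
  | some i =>
    cases κ' with
    | none => simp [lab] at he
    | some i' =>
      simp only [lab, Sum.inl.injEq] at he
      have h1 := (vx_spec (h.2 i)).2
      have h2 := (vx_spec (h.2 i')).2
      rw [he] at h1
      exact congrArg some (h1.symm.trans h2)

theorem lpt_mem {ρ : Set V} (h : Full K ρ) (κ : Option (Fin (l + 1))) : lpt K (lab K ρ κ) ∈ ρ := by
  cases κ with
  | none => exact (vx_spec (h.2 0)).1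
  | some i => exact (vx_spec (h.2 i)).1

variable {k : ℕ} (flip : Fin (k + 1) → Option (Fin (l + 1)) → Option (Fin (l + 1)) → Prop)

variable (K) in
/-- The transport relation of labels, inward. -/
def TR (j : Fin (k + 1)) : Set V × Bool → V ⊕ Set V → V ⊕ Set V → Prop
  | (ρ, false), a, b => Full K ρ ∧ ∃ κ κ', flip j κ κ' ∧ a = lab K ρ κ ∧ b = lab K ρ κ'
  | (ρ, true), a, b => Full K ρ ∧ ∃ κ κ', flip j κ κ' ∧ b = lab K ρ κ ∧ a = lab K ρ κ'

variable {flip}

theorem TR_fun (hf : ∀ j a b b', flip j a b → flip j a b' → b = b')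
    (hi : ∀ j a a' b, flip j a b → flip j a' b → a = a') :
    ∀ j x a b b', TR K flip j x a b → TR K flip j x a b' → b = b' := by
  rintro j ⟨ρ, b0⟩ a b b' h h'
  cases b0 with
  | false =>
    obtain ⟨h0, κ, κ', h1, h2, h3⟩ := h
    obtain ⟨-, μ, μ', h1', h2', h3'⟩ := h'
    have := lab_inj h0 (h2.symm.trans h2')
    subst this
    rw [h3, h3', hf j _ _ _ h1 h1']
  | true =>
    obtain ⟨h0, κ, κ', h1, h2, h3⟩ := h
    obtain ⟨-, μ, μ', h1', h2', h3'⟩ := h'
    have := lab_inj h0 (h3.symm.trans h3')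
    subst this
    rw [h2, h2', hi j _ _ _ h1 h1']

theorem TR_inj (hf : ∀ j a b b', flip j a b → flip j a b' → b = b')
    (hi : ∀ j a a' b, flip j a b → flip j a' b → a = a') :
    ∀ j x a a' b, TR K flip j x a b → TR K flip j x a' b → a = a' := by
  rintro j ⟨ρ, b0⟩ a a' b h h'
  cases b0 with
  | false =>
    obtain ⟨h0, κ, κ', h1, h2, h3⟩ := h
    obtain ⟨-, μ, μ', h1', h2', h3'⟩ := h'
    have := lab_inj h0 (h3.symm.trans h3')
    subst this
    rw [h2, h2', hi j _ _ _ h1 h1']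
  | true =>
    obtain ⟨h0, κ, κ', h1, h2, h3⟩ := h
    obtain ⟨-, μ, μ', h1', h2', h3'⟩ := h'
    have := lab_inj h0 (h2.symm.trans h2')
    subst this
    rw [h3, h3', hf j _ _ _ h1 h1']

theorem TR_face : ∀ j x a b, TR K flip j x a b →
    x.1 ∈ K.faces ∧ lpt K a ∈ x.1 ∧ lpt K b ∈ x.1 := by
  rintro j ⟨ρ, b0⟩ a b h
  cases b0 with
  | false =>
    obtain ⟨h0, κ, κ', h1, h2, h3⟩ := h
    exact ⟨h0.1, h2 ▸ lpt_mem h0 _, h3 ▸ lpt_mem h0 _⟩
  | true =>
    obtain ⟨h0, κ, κ', h1, h2, h3⟩ := h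
    exact ⟨h0.1, h3 ▸ lpt_mem h0 _, h2 ▸ lpt_mem h0 _⟩

/-- the reduced word, with classical decidability -/
noncomputable def wd {α : Type} (v : FreeGroup α) : List (α × Bool) :=
  @FreeGroup.toWord α (Classical.decEq α) v

theorem toWord_cases {α : Type} (ρ : α) (v : FreeGroup α) :
    wd (FreeGroup.of ρ * v) = (ρ, true) :: wd v ∨
      wd v = (ρ, false) :: wd (FreeGroup.of ρ * v) := by
  letI := Classical.decEq α
  unfold wd
  have h1 : (FreeGroup.of ρ * v).toWord = FreeGroup.reduce ((ρ, true) :: v.toWord) := by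
    rw [← FreeGroup.toWord_mk]
    congr 1
    have : v = FreeGroup.mk v.toWord := FreeGroup.mk_toWord.symm
    conv_lhs => rw [this]
    rfl
  rw [h1, FreeGroup.reduce.cons, FreeGroup.reduce_toWord]
  cases hv : v.toWord with
  | nil => left; rfl
  | cons hd tl =>
    simp only
    split_ifs with h
    · right
      obtain ⟨h2, h3⟩ := h
      have : hd = (ρ, false) := by
        refine Prod.ext h2.symm ?_
        simpa using h3
      rw [this]
    · left; rfl

theorem crossing (hf : ∀ j a b b', flip j a b → flip j a b' → b = b')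
    (hi : ∀ j a a' b, flip j a b → flip j a' b → a = a') {ρ : Set V} (hρ : Full K ρ)
    (j : Fin (k + 1)) {κ κ' : Option (Fin (l + 1))} (h : flip j κ κ') (v : FreeGroup (Set V)) :
    nf (TR K flip j) (wd (FreeGroup.of ρ * v)) (lab K ρ κ') =
      nf (TR K flip j) (wd v) (lab K ρ κ) := by
  rcases toWord_cases ρ v with h1 | h1
  · rw [h1]
    exact nf_cons_of _ (TR_fun hf hi j) (show TR K flip j (ρ, true) _ _ from
      ⟨hρ, κ, κ', h, rfl, rfl⟩) _
  · rw [h1]
    exact (nf_cons_of _ (TR_fun hf hi j) (show TR K flip j (ρ, false) _ _ from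
      ⟨hρ, κ, κ', h, rfl, rfl⟩) _).symm

end Labels

section Support

variable {V : Type} [Fintype V] {l : ℕ} {K : Cx V l}
  {M : Type} [TopologicalSpace M] (u : C(M, K.real))

/-- support of `u m` -/
def su (m : M) : Set V := {v | (u m).1 v ≠ 0}

theorem su_face (m : M) : su u m ∈ K.faces := (u m).2.2.2

theorem typ_pos {x : V → ℝ} (hx : ∀ v, 0 ≤ x v) {i : Fin (l + 1)} (h : 0 < K.typ x i) :
    ∃ v, x v ≠ 0 ∧ K.col v = i := by
  unfold Cx.typ at h
  by_contra hcon
  refine absurd h (not_lt.2 (Finset.sum_nonpos fun v _ => ?_))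
  by_cases hc : K.col v = i
  · rw [if_pos hc]
    by_contra hv
    exact hcon ⟨v, fun h0 => hv (by rw [h0]), hc⟩
  · rw [if_neg hc]

theorem su_ex {m : M} {i : Fin (l + 1)} (h : 0 < K.typ (u m).1 i) :
    ∃ v ∈ su u m, K.col v = i := typ_pos (u m).2.1 h

theorem su_full {m : M} (h : ∀ i, 0 < K.typ (u m).1 i) : Full K (su u m) :=
  ⟨su_face u m, fun i => su_ex u (h i)⟩

theorem u_ev {m₀ : M} {v : V} (h : v ∈ su u m₀) : ∀ᶠ m in 𝓝 m₀, v ∈ su u m := by
  have hc : Continuous fun m => (u m).1 v :=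
    (continuous_apply v).comp (continuous_subtype_val.comp u.continuous)
  exact hc.continuousAt.eventually_ne h

theorem su_LC {m₀ : M} (h : ∀ i, 0 < K.typ (u m₀).1 i) : ∀ᶠ m in 𝓝 m₀, su u m = su u m₀ := by
  have h1 : ∀ᶠ m in 𝓝 m₀, ∀ v : V, v ∈ su u m₀ → v ∈ su u m := by
    rw [eventually_all]
    intro v
    by_cases hv : v ∈ su u m₀
    · filter_upwards [u_ev u hv] with m hm _
      exact hm
    · exact Eventually.of_forall fun m h => absurd h hv
  filter_upwards [h1] with m hm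
  refine Subset.antisymm (fun v hv => ?_) hm
  obtain ⟨v', hv', hc⟩ := su_ex u (h (K.col v))
  have : v = v' := K.inj _ (su_face u m) _ hv _ (hm v' hv') hc.symm
  rwa [this]

variable [Nonempty V]

theorem lab_LC {m₀ : M} {κ : Option (Fin (l + 1))} (h : KOk (K.typ (u m₀).1) κ) :
    ∀ᶠ m in 𝓝 m₀, lab K (su u m) κ = lab K (su u m₀) κ := by
  cases κ with
  | none =>
    filter_upwards [su_LC u h] with m hm
    rw [hm]
  | some i =>
    obtain ⟨v, hv, hc⟩ := su_ex u h
    filter_upwards [u_ev u hv] with m hm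
    simp only [lab]
    rw [vx_eq (su_face u m) hm hc, vx_eq (su_face u m₀) hv hc]

theorem lab_mem {m : M} {κ : Option (Fin (l + 1))} (h : KOk (K.typ (u m).1) κ) :
    lpt K (lab K (su u m) κ) ∈ su u m := by
  cases κ with
  | none => exact lpt_mem (su_full u h) none
  | some i => exact (vx_spec (su_ex u h)).1

end Support

theorem LC_bdd {M S : Type} [TopologicalSpace M] {f : M → S} {U C : Set M} (hf : LC f U)
    (hC : IsCompact C) (hCU : C ⊆ U) (len : S → ℕ) : ∃ B : ℕ, ∀ m ∈ C, len (f m) ≤ B := by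
  have h : ContinuousOn (fun m => (len (f m) : ℝ)) C := by
    intro m hm
    refine ContinuousAt.continuousWithinAt ?_
    have : (fun m => (len (f m) : ℝ)) =ᶠ[𝓝 m] fun _ => (len (f m) : ℝ) := by
      filter_upwards [hf m (hCU hm)] with m' hm'
      rw [hm']
    exact ContinuousAt.congr continuousAt_const this.symm
  obtain ⟨b, hb⟩ := hC.bddAbove_image h
  obtain ⟨B, hB⟩ := exists_nat_ge b
  refine ⟨B, fun m hm => ?_⟩
  have h2 : (len (f m) : ℝ) ≤ B := (hb ⟨m, hm, rfl⟩ : (len (f m) : ℝ) ≤ b).trans hB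
  exact_mod_cast h2

end Pool.Agent.Lib_MP_1dc66a_gt
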