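import Pool.Agent.Lib_MP_1dc66a_gt.Comb

/-!
The unfolded complex `Kp` and the map `theta : |Kp| → |K|`.
-/

set_option autoImplicit false

open Set Topology

namespace Pool.Agent.Lib_MP_1dc66a_gt

section Theta

variable {V : Type} [Fintype V] {l : ℕ} (K : Cx V l) {Γ A : Type} {k : ℕ}
  (R : Fin (k + 1) → Γ → A → A → Prop) (pt : A → V) (fc : Γ → Set V)

theorem pth_common (hinj : ∀ j x a a' b, R j x a b → R j x a' b → a = a')
    (hface : ∀ j x a b, R j x a b → fc x ∈ K.faces ∧ pt a ∈ fc x ∧ pt b ∈ fc x)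
    {T : Set (Fin (k + 1) × List Γ × A)} (L : List Γ) {r : ℝ} :
    ∀ {ρ : Set V}, ρ ∈ K.faces → r ≤ L.length →
    (∀ q ∈ T, ∃ a, Reach (R q.1) q.2.1 q.2.2 L a ∧ pt a ∈ ρ) →
    (∀ q ∈ T, (q.2.1.length : ℝ) ≤ r) →
    ∃ ρ' ∈ K.faces, ∀ q ∈ T, pth (R q.1) pt q.2 L r ∈ Splx ρ' := by
  rcases T.eq_empty_or_nonempty with hT | ⟨q₀, hq₀⟩
  · intro ρ hρ _ _ _
    exact ⟨ρ, hρ, fun q hq => by simp [hT] at hq⟩
  induction L with
  | nil =>
    intro ρ hρ _ h _
    refine ⟨ρ, hρ, fun q hq => ?_⟩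
    obtain ⟨a, ha, hpt⟩ := h q hq
    simp only [pth]
    rw [← ha.nil.2]
    exact vpt_mem hpt
  | cons x L ih =>
    intro ρ hρ hr h hlen
    by_cases h1 : (L.length : ℝ) + 1 ≤ r
    · refine ⟨ρ, hρ, fun q hq => ?_⟩
      obtain ⟨a, ha, hpt⟩ := h q hq
      rw [pth_end (R q.1) pt (hinj q.1) ha (by simpa using h1)]
      exact vpt_mem hpt
    · push Not at h1
      have key : ∀ q ∈ T, ∃ a a', Reach (R q.1) q.2.1 q.2.2 L a' ∧ R q.1 x a a' := by
        intro q hq
        obtain ⟨a, ha, hpt⟩ := h q hq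
        rcases ha.cases' with h2 | ⟨a', h2, h3⟩
        · exfalso
          have h4 := hlen q hq
          rw [h2.1] at h4
          simp at h4
          linarith
        · exact ⟨a, a', h2, h3⟩
      have hx : fc x ∈ K.faces := by
        obtain ⟨a, a', _, h3⟩ := key q₀ hq₀
        exact (hface _ _ _ _ h3).1
      by_cases h2 : (L.length : ℝ) ≤ r
      · refine ⟨fc x, hx, fun q hq => ?_⟩
        obtain ⟨a, a', h3, h4⟩ := key q hq
        exact pth_mid_mem (R q.1) pt (hinj q.1) h3 h4 h2 h1.le (hface _ _ _ _ h4).2.1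
          (hface _ _ _ _ h4).2.2
      · push Not at h2
        obtain ⟨ρ', hρ', h5⟩ := ih hx h2.le (fun q hq => by
          obtain ⟨a, a', h3, h4⟩ := key q hq
          exact ⟨a', h3, (hface _ _ _ _ h4).2.2⟩) hlen
        refine ⟨ρ', hρ', fun q hq => ?_⟩
        obtain ⟨a, a', h3, h4⟩ := key q hq
        rw [pth_le (R q.1) pt h3.suffix (List.suffix_cons x L) h2.le]
        exact h5 q hq

/-- The vertex type of the unfolded complex. -/
abbrev VV (Γ A : Type) (k B : ℕ) : Type := Fin (k + 1) × {p : List Γ // p.length ≤ B} × A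

noncomputable instance instFintypeWords (Γ : Type) [Finite Γ] (B : ℕ) :
    Fintype {p : List Γ // p.length ≤ B} := by
  haveI : Finite {p : List Γ // p.length ≤ B} := (List.finite_length_le Γ B).to_subtype
  exact Fintype.ofFinite _

variable (B : ℕ)

/-- The unfolded complex. -/
def Kp : Cx (VV Γ A k B) k where
  faces := {S | (∀ y ∈ S, ∀ z ∈ S, y.1 = z.1 → y = z) ∧ ∃ (L : List Γ) (ρ : Set V), ρ ∈ K.faces ∧
    ∀ y ∈ S, ∃ a, Reach (R y.1) y.2.1 y.2.2 L a ∧ pt a ∈ ρ}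
  down := by
    rintro s ⟨h1, L, ρ, h2, h3⟩ t hts
    exact ⟨fun y hy z hz => h1 y (hts hy) z (hts hz), L, ρ, h2, fun y hy => h3 y (hts hy)⟩
  col := fun y => y.1
  inj := by
    rintro s ⟨h1, -⟩ v hv w hw h
    exact h1 v hv w hw h

variable {K R pt B}

/-- the cutoff -/
noncomputable def dl (k : ℕ) : ℝ := 1 / (k + 2)

theorem dl_pos (k : ℕ) : 0 < dl k := by unfold dl; positivity

variable {W : Type} [Fintype W]

/-- the truncated weights -/
noncomputable def kap (k : ℕ) (w : W → ℝ) (y : W) : ℝ :=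
  max (w y - dl k) 0 / ∑ z, max (w z - dl k) 0

/-- A weight function with at most `k+1` nonzero entries (each colour once). -/
def Wt (k : ℕ) (c : W → Fin (k + 1)) (w : W → ℝ) : Prop :=
  (∀ y, 0 ≤ w y) ∧ ∑ y, w y = 1 ∧ ∀ y z, w y ≠ 0 → w z ≠ 0 → c y = c z → y = z

theorem Wt.exists_big {c : W → Fin (k + 1)} {w : W → ℝ} (h : Wt k c w) : ∃ y, dl k < w y := by
  classical
  by_contra hcon
  push Not at hcon
  have h1 : ∑ y, w y = ∑ y ∈ Finset.univ.filter (fun y => w y ≠ 0), w y := by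
    rw [Finset.sum_filter_ne_zero]
  have hcard : (Finset.univ.filter (fun y => w y ≠ 0)).card ≤ k + 1 := by
    have := Finset.card_le_card_of_injOn (s := Finset.univ.filter (fun y => w y ≠ 0))
      (t := (Finset.univ : Finset (Fin (k + 1)))) c (fun _ _ => Finset.mem_coe.2 (Finset.mem_univ _))
      (fun y hy z hz hyz => h.2.2 y z (by simpa using hy) (by simpa using hz) hyz)
    simpa using this
  have h2 : ∑ y ∈ Finset.univ.filter (fun y => w y ≠ 0), w y ≤
      ∑ y ∈ Finset.univ.filter (fun y => w y ≠ 0), dl k := Finset.sum_le_sum fun y _ => hcon y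
  rw [Finset.sum_const, nsmul_eq_mul] at h2
  have h3 : ((Finset.univ.filter (fun y => w y ≠ 0)).card : ℝ) * dl k ≤ (k + 1) * dl k := by
    refine mul_le_mul_of_nonneg_right ?_ (dl_pos k).le
    exact_mod_cast hcard
  have h4 : ((k : ℝ) + 1) * dl k < 1 := by
    unfold dl
    rw [mul_one_div, div_lt_one (by positivity)]
    linarith
  have h5 := h.2.1
  rw [h1] at h5
  linarith

theorem Wt.den_pos {c : W → Fin (k + 1)} {w : W → ℝ} (h : Wt k c w) :
    0 < ∑ z, max (w z - dl k) 0 := by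
  obtain ⟨y, hy⟩ := h.exists_big
  refine Finset.sum_pos' (fun z _ => le_max_right _ _) ⟨y, Finset.mem_univ _, ?_⟩
  exact lt_max_of_lt_left (by linarith)

theorem kap_nonneg (w : W → ℝ) (y : W) : 0 ≤ kap k w y := by
  unfold kap
  exact div_nonneg (le_max_right _ _) (Finset.sum_nonneg fun z _ => le_max_right _ _)

theorem Wt.kap_sum {c : W → Fin (k + 1)} {w : W → ℝ} (h : Wt k c w) :
    ∑ y, kap k w y = 1 := by
  unfold kap
  rw [← Finset.sum_div]
  exact div_self h.den_pos.ne'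

theorem kap_ne {w : W → ℝ} {y : W} (h : kap k w y ≠ 0) : dl k < w y := by
  by_contra hcon
  push Not at hcon
  apply h
  unfold kap
  rw [max_eq_right (by linarith), zero_div]

/-- the depth function -/
noncomputable def dep (k : ℕ) (len : W → ℕ) (w : W → ℝ) : ℝ :=
  ‖(fun y => (len y : ℝ) * min 1 (w y / dl k) : W → ℝ)‖

theorem dep_cont (k : ℕ) (len : W → ℕ) : Continuous (dep k len) := by
  unfold dep
  refine continuous_norm.comp (continuous_pi fun y => ?_)
  fun_prop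

theorem dep_nonneg (k : ℕ) (len : W → ℕ) (w : W → ℝ) : 0 ≤ dep k len w := norm_nonneg _

theorem le_dep (len : W → ℕ) {w : W → ℝ} {y : W} (h : dl k ≤ w y) : (len y : ℝ) ≤ dep k len w := by
  have h1 := norm_le_pi_norm (fun y => (len y : ℝ) * min 1 (w y / dl k) : W → ℝ) y
  have h2 : min 1 (w y / dl k) = 1 := min_eq_left ((one_le_div (dl_pos k)).2 h)
  simp only [h2, mul_one] at h1
  refine le_trans (le_of_eq ?_) h1
  rw [Real.norm_of_nonneg (by positivity)]

theorem dep_le (len : W → ℕ) {w : W → ℝ} {r : ℝ} (h0 : ∀ y, 0 ≤ w y) (hr : 0 ≤ r)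
    (h : ∀ y, w y ≠ 0 → (len y : ℝ) ≤ r) : dep k len w ≤ r := by
  unfold dep
  rw [pi_norm_le_iff_of_nonneg hr]
  intro y
  have h3 : 0 ≤ min 1 (w y / dl k) := le_min (by norm_num) (div_nonneg (h0 y) (dl_pos k).le)
  rw [Real.norm_of_nonneg (by positivity)]
  by_cases h1 : w y = 0
  · simp [h1, hr]
  · calc (len y : ℝ) * min 1 (w y / dl k) ≤ len y * 1 :=
        mul_le_mul_of_nonneg_left (min_le_left _ _) (by positivity)
      _ ≤ r := by simpa using h y h1

theorem Kp_wt [Finite Γ] [Fintype A] {w : VV Γ A k B → ℝ} (hw : w ∈ (Kp K R pt B).real) :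
    Wt k (fun y : VV Γ A k B => y.1) w :=
  ⟨hw.1, hw.2.1, fun y z hy hz h => hw.2.2.1 y hy z hz h⟩

variable (K R pt B)

/-- The map `theta` computed along the word `L`. -/
noncomputable def th0 [Finite Γ] [Fintype A] (L : List Γ) (w : VV Γ A k B → ℝ) : V → ℝ :=
  ∑ y : VV Γ A k B, kap k w y •
    pth (R y.1) pt (y.2.1.1, y.2.2) L (dep k (fun y : VV Γ A k B => y.2.1.1.length) w)

variable {K R pt B}

theorem exists_longest [Finite Γ] [Fintype A] {w : VV Γ A k B → ℝ} (h0 : ∀ y, 0 ≤ w y)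
    (hs : ∑ y, w y = 1) : ∃ y₀ : VV Γ A k B, w y₀ ≠ 0 ∧
      (∀ y, w y ≠ 0 → y.2.1.1.length ≤ y₀.2.1.1.length) ∧
      dep k (fun y : VV Γ A k B => y.2.1.1.length) w ≤ y₀.2.1.1.length := by
  classical
  have hne : (Finset.univ.filter (fun y : VV Γ A k B => w y ≠ 0)).Nonempty := by
    rw [Finset.nonempty_iff_ne_empty]
    intro he
    have : ∑ y, w y = 0 := by
      rw [← Finset.sum_filter_ne_zero, he, Finset.sum_empty]
    rw [this] at hs
    norm_num at hs
  obtain ⟨y₀, hy₀, hmax⟩ := Finset.exists_max_image _ (fun y : VV Γ A k B => y.2.1.1.length) hne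
  have hmax' : ∀ y, w y ≠ 0 → y.2.1.1.length ≤ y₀.2.1.1.length :=
    fun y hy => hmax y (by simpa using hy)
  refine ⟨y₀, by simpa using hy₀, hmax', ?_⟩
  exact dep_le _ h0 (by positivity) fun y hy => by exact_mod_cast hmax' y hy

theorem th0_eq [Finite Γ] [Fintype A] {w : VV Γ A k B → ℝ} (h0 : ∀ y, 0 ≤ w y)
    (hs : ∑ y, w y = 1) {L L' : List Γ} (hL : ∀ y, w y ≠ 0 → y.2.1.1 <:+ L)
    (hL' : ∀ y, w y ≠ 0 → y.2.1.1 <:+ L') : th0 R pt B L w = th0 R pt B L' w := by
  obtain ⟨y₀, h1, h2, h3⟩ := exists_longest (k := k) h0 hs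
  unfold th0
  refine Finset.sum_congr rfl fun y _ => ?_
  by_cases hk : kap k w y = 0
  · rw [hk, zero_smul, zero_smul]
  · have hwy : w y ≠ 0 := (lt_trans (dl_pos k) (kap_ne hk)).ne'
    have hsuf : y.2.1.1 <:+ y₀.2.1.1 := List.suffix_of_suffix_length_le (hL y hwy) (hL y₀ h1) (h2 y hwy)
    rw [pth_le (R y.1) pt (q := (y.2.1.1, y.2.2)) hsuf (hL y₀ h1) h3,
      pth_le (R y.1) pt (q := (y.2.1.1, y.2.2)) hsuf (hL' y₀ h1) h3]

theorem splx_comb {V : Type} [Fintype V] {ι : Type} [Fintype ι] {ρ : Set V} (c : ι → ℝ) (z : ι → V → ℝ)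
    (h0 : ∀ i, 0 ≤ c i) (h1 : ∑ i, c i = 1) (hz : ∀ i, c i ≠ 0 → z i ∈ Splx ρ) :
    ∑ i, c i • z i ∈ Splx ρ := by
  classical
  have : ∑ i, c i • z i = ∑ i ∈ Finset.univ.filter (fun i => c i ≠ 0), c i • z i := by
    rw [Finset.sum_filter]
    refine Finset.sum_congr rfl fun i _ => ?_
    by_cases h : c i = 0 <;> simp [h]
  rw [this]
  refine (Splx_convex ρ).sum_mem (fun i _ => h0 i) ?_ (fun i hi => hz i (by simpa using hi))
  rw [Finset.sum_filter_ne_zero, h1]

theorem th0_mem [Finite Γ] [Fintype A] (hinj : ∀ j x a a' b, R j x a b → R j x a' b → a = a')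
    (hface : ∀ j x a b, R j x a b → fc x ∈ K.faces ∧ pt a ∈ fc x ∧ pt b ∈ fc x)
    {w : VV Γ A k B → ℝ} (hw : w ∈ (Kp K R pt B).real) {L : List Γ} {ρ : Set V} (hρ : ρ ∈ K.faces)
    (hL : ∀ y, w y ≠ 0 → ∃ a, Reach (R y.1) y.2.1.1 y.2.2 L a ∧ pt a ∈ ρ) :
    th0 R pt B L w ∈ K.real := by
  obtain ⟨y₀, h1, h2, h3⟩ := exists_longest (k := k) hw.1 hw.2.1
  have hlen : (y₀.2.1.1.length : ℝ) ≤ L.length := by
    obtain ⟨a, ha, _⟩ := hL y₀ h1
    exact_mod_cast ha.suffix.length_le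
  obtain ⟨ρ', hρ', h4⟩ := pth_common K R pt fc hinj hface
    (T := {q | ∃ y : VV Γ A k B, kap k w y ≠ 0 ∧ q = (y.1, y.2.1.1, y.2.2)}) L
    (r := dep k (fun y : VV Γ A k B => y.2.1.1.length) w) hρ (h3.trans hlen)
    (by
      rintro q ⟨y, hy, rfl⟩
      exact hL y (lt_trans (dl_pos k) (kap_ne hy)).ne')
    (by
      rintro q ⟨y, hy, rfl⟩
      exact le_dep (fun y : VV Γ A k B => y.2.1.1.length) (kap_ne hy).le)
  refine Splx_real K hρ' ?_
  unfold th0
  refine splx_comb _ _ (fun y => kap_nonneg w y) (Kp_wt hw).kap_sum fun y hy => ?_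
  exact h4 (y.1, y.2.1.1, y.2.2) ⟨y, hy, rfl⟩

theorem kap_contOn [Finite Γ] [Fintype A] (y : VV Γ A k B) :
    Continuous (fun w : (Kp K R pt B).real => kap k w.1 y) := by
  unfold kap
  refine Continuous.div ?_ ?_ ?_
  · have : Continuous fun w : (Kp K R pt B).real => w.1 y :=
      (continuous_apply y).comp continuous_subtype_val
    exact (this.sub continuous_const).max continuous_const
  · refine continuous_finsetSum _ fun z _ => ?_
    have : Continuous fun w : (Kp K R pt B).real => w.1 z :=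
      (continuous_apply z).comp continuous_subtype_val
    exact (this.sub continuous_const).max continuous_const
  · intro w
    exact (Kp_wt w.2).den_pos.ne'

theorem th0_cont [Finite Γ] [Fintype A] (L : List Γ) :
    Continuous (fun w : (Kp K R pt B).real => th0 R pt B L w.1) := by
  unfold th0
  refine continuous_finsetSum _ fun y _ => ?_
  refine (kap_contOn y).smul ?_
  exact (pth_cont (R y.1) pt (y.2.1.1, y.2.2) L).comp ((dep_cont k _).comp continuous_subtype_val)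

/-- The map `theta : |Kp| → |K|`. -/
theorem exists_theta [Finite Γ] [Fintype A]
    (hinj : ∀ j x a a' b, R j x a b → R j x a' b → a = a')
    (hface : ∀ j x a b, R j x a b → fc x ∈ K.faces ∧ pt a ∈ fc x ∧ pt b ∈ fc x) :
    ∃ θ : C((Kp K R pt B).real, K.real), ∀ (w : (Kp K R pt B).real) (L : List Γ),
      (∀ y, w.1 y ≠ 0 → y.2.1.1 <:+ L) → (θ w).1 = th0 R pt B L w.1 := by
  classical
  have hwit : ∀ S : {S // S ∈ (Kp K R pt B).faces}, ∃ L : List Γ, ∀ y ∈ S.1, y.2.1.1 <:+ L := by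
    rintro ⟨S, h1, L, ρ, h2, h3⟩
    refine ⟨L, fun y hy => ?_⟩
    obtain ⟨a, ha, _⟩ := h3 y hy
    exact ha.suffix
  choose wit hwit using hwit
  have hmem : ∀ w : (Kp K R pt B).real, th0 R pt B (wit ⟨_, w.2.2.2⟩) w.1 ∈ K.real := by
    intro w
    obtain ⟨h1, L, ρ, h2, h3⟩ := w.2.2.2
    rw [th0_eq w.2.1 w.2.2.1 (hwit ⟨_, w.2.2.2⟩) (L' := L) (fun y hy => by
      obtain ⟨a, ha, _⟩ := h3 y hy
      exact ha.suffix)]
    exact th0_mem fc hinj hface w.2 h2 h3
  have hcont : Continuous (fun w : (Kp K R pt B).real => th0 R pt B (wit ⟨_, w.2.2.2⟩) w.1) := by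
    refine (locallyFinite_of_finite (fun S : {S // S ∈ (Kp K R pt B).faces} =>
      {w : (Kp K R pt B).real | ∀ y, y ∉ S.1 → w.1 y = 0})).continuous ?_ ?_ ?_
    · rw [eq_univ_iff_forall]
      intro w
      rw [mem_iUnion]
      refine ⟨⟨_, w.2.2.2⟩, fun y hy => ?_⟩
      simpa using hy
    · intro S
      simp only [Set.ofPred_forall]
      refine isClosed_iInter fun y => isClosed_iInter fun hy => ?_
      exact isClosed_eq ((continuous_apply y).comp continuous_subtype_val) continuous_const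
    · intro S
      refine (th0_cont (wit S)).continuousOn.congr fun w hw => ?_
      refine th0_eq w.2.1 w.2.2.1 (hwit ⟨_, w.2.2.2⟩) fun y hy => ?_
      refine hwit S y ?_
      by_contra hcon
      exact hy (hw y hcon)
  refine ⟨⟨fun w => ⟨_, hmem w⟩, hcont.subtype_mk _⟩, fun w L hL => ?_⟩
  exact th0_eq w.2.1 w.2.2.1 (hwit ⟨_, w.2.2.2⟩) hL

end Theta

end Pool.Agent.Lib_MP_1dc66a_gt
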